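import Mathlib

/-!
# MP_db9399, ENGN: matchings from one shot, general form (helper89)
-/

set_option autoImplicit false

namespace Pool.Agent.Work.MP_db9399_eo

open Finset Classical

universe u v

/-- matchings `T b` of all colours from the matchings `N b` and the output `F b` of Hall -/
theorem asm {V : Type u} {B : Type v} (O A C W : B → Finset V) (N : B → V → V)
    (Sb : B → V → V → Prop) (F : B → V → V) (MA MC : B → V → Prop)
    (hNN : ∀ b v, N b (N b v) = v)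
    (hNd : ∀ b b' v, N b v ≠ v → N b v = N b' v → b = b')
    (hNS : ∀ b b' u y, u ∈ A b → y ∈ C b → Sb b u y → N b' u ≠ y ∧ N b' y ≠ u)
    (hSd : ∀ b b' u y, u ∈ A b → y ∈ C b → Sb b u y →
      ((u ∈ A b' ∧ y ∈ C b' ∧ Sb b' u y) ∨ (y ∈ A b' ∧ u ∈ C b' ∧ Sb b' y u)) → b = b')
    (hO : ∀ b, ∀ v ∈ O b, v ∉ A b ∧ v ∉ C b)
    (hout : ∀ b v, v ∉ O b → v ∉ A b → v ∉ C b →
      N b v ≠ v ∧ N b v ∉ O b ∧ N b v ∉ A b ∧ N b v ∉ C b)
    (hFA : ∀ b, ∀ v ∈ A b, (F b v = v ∧ MA b v) ∨ (F b v ∈ C b ∧ F b (F b v) = v ∧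
        ((v ∉ W b ∧ N b v = F b v) ∨ Sb b v (F b v))))
    (hFC : ∀ b, ∀ v ∈ C b, (F b v = v ∧ MC b v) ∨ (F b v ∈ A b ∧ F b (F b v) = v ∧
        ((v ∉ W b ∧ N b v = F b v) ∨ Sb b (F b v) v))) :
    ∃ T : B → V → V, (∀ b v, T b (T b v) = v) ∧
      (∀ b v, T b v ≠ v → (N b v = T b v) ∨
        (v ∈ A b ∧ T b v ∈ C b ∧ Sb b v (T b v)) ∨ (T b v ∈ A b ∧ v ∈ C b ∧ Sb b (T b v) v)) ∧
      (∀ b b' v, T b v ≠ v → T b v = T b' v → b = b') ∧ (∀ b, ∀ v ∈ O b, T b v = v) ∧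
      (∀ b v, (v ∈ A b ∨ v ∈ C b) → T b v = F b v) ∧
      (∀ b v, v ∉ O b → v ∉ A b → v ∉ C b → T b v = N b v) := by
  set T : B → V → V := fun b v => if v ∈ A b ∨ v ∈ C b then F b v else if v ∈ O b then v else N b v
    with hT
  have hT1 : ∀ b v, (v ∈ A b ∨ v ∈ C b) → T b v = F b v := fun b v h => by simp only [hT, if_pos h]
  have hT2 : ∀ b v, v ∈ O b → T b v = v := fun b v h => by
    have := hO b v h
    simp only [hT, if_neg (not_or.2 this), if_pos h]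
  have hT3 : ∀ b v, v ∉ O b → v ∉ A b → v ∉ C b → T b v = N b v := fun b v h h1 h2 => by
    simp only [hT, if_neg (not_or.2 ⟨h1, h2⟩), if_neg h]
  -- the kind of an edge of `T b`
  have hkind : ∀ b v, T b v ≠ v → (N b v = T b v) ∨
      (v ∈ A b ∧ T b v ∈ C b ∧ Sb b v (T b v)) ∨ (T b v ∈ A b ∧ v ∈ C b ∧ Sb b (T b v) v) := by
    intro b v hv
    by_cases h1 : v ∈ A b
    · rw [hT1 b v (Or.inl h1)] at hv ⊢
      rcases hFA b v h1 with h2 | ⟨h2, _, h3⟩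
      · exact absurd h2.1 hv
      · rcases h3 with h3 | h3
        · exact Or.inl h3.2
        · exact Or.inr (Or.inl ⟨h1, h2, h3⟩)
    · by_cases h2 : v ∈ C b
      · rw [hT1 b v (Or.inr h2)] at hv ⊢
        rcases hFC b v h2 with h3 | ⟨h3, _, h4⟩
        · exact absurd h3.1 hv
        · rcases h4 with h4 | h4
          · exact Or.inl h4.2
          · exact Or.inr (Or.inr ⟨h3, h2, h4⟩)
      · by_cases h3 : v ∈ O b
        · exact absurd (hT2 b v h3) hv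
        · exact Or.inl (hT3 b v h3 h1 h2).symm
  refine ⟨T, ?_, hkind, ?_, hT2, hT1, hT3⟩
  · intro b v
    by_cases h1 : v ∈ A b
    · rcases hFA b v h1 with h2 | ⟨h2, h3, _⟩
      · rw [hT1 b v (Or.inl h1), h2.1, hT1 b v (Or.inl h1), h2.1]
      · rw [hT1 b v (Or.inl h1), hT1 b _ (Or.inr h2), h3]
    · by_cases h2 : v ∈ C b
      · rcases hFC b v h2 with h3 | ⟨h3, h4, _⟩
        · rw [hT1 b v (Or.inr h2), h3.1, hT1 b v (Or.inr h2), h3.1]
        · rw [hT1 b v (Or.inr h2), hT1 b _ (Or.inl h3), h4]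
      · by_cases h3 : v ∈ O b
        · rw [hT2 b v h3, hT2 b v h3]
        · obtain ⟨h4, h5, h6, h7⟩ := hout b v h3 h1 h2
          rw [hT3 b v h3 h1 h2, hT3 b _ h5 h6 h7, hNN]
  · intro b b' v hv hbb
    have hv' : T b' v ≠ v := hbb ▸ hv
    rcases hkind b v hv with h1 | h1
    · rcases hkind b' v hv' with h2 | h2
      · exact hNd b b' v (h1 ▸ hv) (h1.trans (hbb.trans h2.symm))
      · exfalso
        rcases h2 with ⟨h2, h4, h5⟩ | ⟨h2, h4, h5⟩
        · exact (hNS b' b _ _ h2 h4 h5).1 (h1.trans hbb)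
        · exact (hNS b' b _ _ h2 h4 h5).2 (h1.trans hbb)
    · rcases hkind b' v hv' with h2 | h2
      · exfalso
        rcases h1 with ⟨h1, h4, h5⟩ | ⟨h1, h4, h5⟩
        · exact (hNS b b' _ _ h1 h4 h5).1 (h2.trans hbb.symm)
        · exact (hNS b b' _ _ h1 h4 h5).2 (h2.trans hbb.symm)
      · rw [← hbb] at h2
        rcases h1 with ⟨h1, h4, h5⟩ | ⟨h1, h4, h5⟩
        · exact hSd b b' _ _ h1 h4 h5 h2
        · exact hSd b b' _ _ h1 h4 h5 h2.symm

end Pool.Agent.Work.MP_db9399_eo
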