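import Pool.Agent.Work.MP_db9399_eo.WALK
import Pool.Agent.Work.MP_db9399_en.CERT

/-!
# MP_db9399, ENGINE: the certificate and the load of one colour under the good events (helper89)
-/

set_option autoImplicit false

namespace Pool.Agent.Work.MP_db9399_eo

open Finset Classical
open Pool.Agent.Work.MP_db9399_all (nb)
open Pool.Agent.Work.MP_db9399_as.helper89
open Pool.Agent.Work.MP_db9399_en

universe u



section Cert

variable {V : Type u} [Fintype V] {P M : ℕ} {G S : SimpleGraph V} {d r K0 T0 Bo m1 L : ℕ}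
  {ρ D Dt δ Mr : ℝ}
  {O : Finset V} {c : Fin P → Finset V} {N : Fin P → V → V} {Ac K Km Q : Finset V} {lab : Fin P → V → Bool}
  {ix : V × V → Fin P → ℕ} {ω : Co V P → Fin M} {b : Fin P} {θ θ' : ℕ → ℝ}

/-- the two residuals of the walk on `S`, scaled, are at most `T0 / D` -/
theorem res_bd (hE : E1 G S r K0 T0 Bo ρ O c N Ac K Km Q b) (hn : Nm r K0 T0 L P ρ D Dt δ Mr)
    (hθ : Wts L θ) (hθ' : Wts L θ') (s : Bool) (v : V) :
    Mr / 3 * |resE S r L θ θ' (tksO O c N lab b s) (tksO O c N lab b (!s)) v| ≤ T0 / D ∧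
    Mr / 3 * |resO S r L θ θ' (tksO O c N lab b s) (tksO O c N lab b (!s)) v| ≤ T0 / D := by
  have hM := hn.M0
  have hD := hn.D0
  have hT := hn.t0
  have hTD : (0 : ℝ) ≤ T0 / D := by positivity
  have hM3 : 0 < Mr / 3 := by positivity
  have key : ∀ (a x : ℕ → ℝ), (∀ i, 0 ≤ a i) → ∑ i ∈ range L, a i ≤ 1 →
      (∀ i < L, 0 ≤ x i) → (∀ i < L, Mr / 3 * x i ≤ T0 / D) →
      0 ≤ Mr / 3 * ∑ i ∈ range L, a i * x i ∧ Mr / 3 * ∑ i ∈ range L, a i * x i ≤ T0 / D := by
    intro a x ha hs hx0 hx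
    constructor
    · exact mul_nonneg hM3.le (sum_nonneg fun i hi => mul_nonneg (ha i) (hx0 i (mem_range.1 hi)))
    · have h1 := sum_coef (x := fun i => Mr / 3 * x i) ha hs hTD hx
      refine le_trans (le_of_eq ?_) h1
      rw [mul_sum]
      refine sum_congr rfl fun i _ => ?_
      ring
  have habs : ∀ x y : ℝ, 0 ≤ Mr / 3 * x ∧ Mr / 3 * x ≤ T0 / D → 0 ≤ Mr / 3 * y ∧
      Mr / 3 * y ≤ T0 / D → Mr / 3 * |x - y| ≤ T0 / D := by
    intro x y hx hy
    rw [← abs_of_pos hM3, ← abs_mul, mul_sub, abs_le]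
    constructor <;> linarith [hx.1, hx.2, hy.1, hy.2]
  constructor
  · refine habs _ _ (key _ _ hθ.c1 (hθ.s1 L) (fun i _ => wlk_nonneg _ _ v) fun i hi => ?_)
      (key _ _ hθ'.c2 (hθ'.s2 L) (fun i _ => wlk_nonneg _ _ v) fun i hi => ?_)
    · exact (F_bd hE hn s (by omega) (by omega) v).2
    · exact (F_bd hE hn (!s) (by omega) (by omega) v).2
  · refine habs _ _ (key _ _ hθ.c2 (hθ.s2 L) (fun i _ => wlk_nonneg _ _ v) fun i hi => ?_)
      (key _ _ hθ'.c1 (hθ'.s1 L) (fun i _ => wlk_nonneg _ _ v) fun i hi => ?_)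
    · exact (F_bd hE hn s (by omega) (by omega) v).2
    · exact (F_bd hE hn (!s) (by omega) (by omega) v).2

theorem resT_nonneg (v : V) : 0 ≤ resQ S r L θ θ' O c N lab b v :=
  sum_nonneg fun s _ => add_nonneg (abs_nonneg _) (abs_nonneg _)

/-- bounds for `q`, `q1`, `q2` -/
theorem q_bd (hE : E1 G S r K0 T0 Bo ρ O c N Ac K Km Q b) (hn : Nm r K0 T0 L P ρ D Dt δ Mr)
    (hθ : Wts L θ) (hθ' : Wts L θ') (v : V) :
    (0 ≤ qf O c N S lab r L δ Mr (6 * T0 / Dt) θ θ' b v ∧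
      qf O c N S lab r L δ Mr (6 * T0 / Dt) θ θ' b v ≤ 6 * T0 / Dt) ∧
    (0 ≤ q1f O c N S lab r L δ Mr (6 * T0 / Dt) θ θ' b v ∧
      q1f O c N S lab r L δ Mr (6 * T0 / Dt) θ θ' b v ≤ 4 * (6 * T0 / Dt)) ∧
    (0 ≤ q2f O c N S lab r L δ Mr (6 * T0 / Dt) θ θ' b v ∧
      q2f O c N S lab r L δ Mr (6 * T0 / Dt) θ θ' b v ≤ 35 * (6 * T0 / Dt)) := by
  have hM := hn.M0
  have hD := hn.D0
  have hDt := hn.Dt0
  have hT := hn.t0
  have hδ := hn.δ0
  have hδs := hn.δs
  have hL := hn.l0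
  set Φ : ℝ := 6 * T0 / Dt with hΦ
  have hΦ0 : 0 ≤ Φ := by positivity
  have hTD : T0 / D ≤ Φ / 12 := by
    rw [hΦ, div_div, div_le_div_iff₀ hD (by positivity)]
    have := hn.Dt2
    nlinarith
  have hq : ∀ v, 0 ≤ qf O c N S lab r L δ Mr Φ θ θ' b v ∧ qf O c N S lab r L δ Mr Φ θ θ' b v ≤ Φ := by
    intro v
    have h1 : Mr / 3 * resQ S r L θ θ' O c N lab b v ≤ 4 * (T0 / D) := by
      rw [resQ, Fintype.sum_bool]
      have g1 := res_bd (lab := lab) (b := b) hE hn hθ hθ' true v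
      have g2 := res_bd (lab := lab) (b := b) hE hn hθ hθ' false v
      linarith [g1.1, g1.2, g2.1, g2.2]
    have h2 := resT_nonneg (S := S) (r := r) (L := L) (θ := θ) (θ' := θ') (O := O) (c := c) (N := N)
      (lab := lab) (b := b) v
    have h3 : 200 * L * δ * Φ ≤ Φ / 5 := by
      have := hn.lδ
      have g1 : 1000 * (L * δ) * Φ ≤ 1 * Φ := mul_le_mul_of_nonneg_right this hΦ0
      linarith
    rw [qf]
    constructor
    · positivity
    · linarith
  have hq1 : ∀ v, 0 ≤ q1f O c N S lab r L δ Mr Φ θ θ' b v ∧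
      q1f O c N S lab r L δ Mr Φ θ θ' b v ≤ 4 * Φ := by
    intro v
    have h1 := HH_nonneg (S := S) (r := r) (fun v => (hq v).1) v
    have h2 := HH_le hE hn hΦ0 (fun v => (hq v).2) v
    have h3 := hq v
    rw [q1f]
    constructor
    · have : 0 ≤ 12 * δ * Φ := by positivity
      linarith
    · have : δ * Φ ≤ Φ / 100000 := by nlinarith
      nlinarith
  have hq2 : ∀ v, 0 ≤ q2f O c N S lab r L δ Mr Φ θ θ' b v ∧
      q2f O c N S lab r L δ Mr Φ θ θ' b v ≤ 35 * Φ := by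
    intro v
    have h1 := HH_nonneg (S := S) (r := r) (fun v => (hq1 v).1) v
    have h2 := HH_le hE hn (by positivity : 0 ≤ 4 * Φ) (fun v => (hq1 v).2) v
    have h3 := hq v
    rw [q2f]
    constructor
    · have : 0 ≤ 144 * δ * Φ := by positivity
      linarith
    · have : δ * Φ ≤ Φ / 100000 := by nlinarith
      nlinarith
  exact ⟨hq v, hq1 v, hq2 v⟩

/-- residual of the walk of the colour on the side `s`, generic vertex -/
theorem resA_le (hE : E1 G S r K0 T0 Bo ρ O c N Ac K Km Q b) (hn : Nm r K0 T0 L P ρ D Dt δ Mr)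
    (hG : GdB O c N S Km Q lab ix K0 m1 r T0 L ρ D Dt δ Mr θ θ' Ac K b ω) (hθ : Wts L θ)
    (hθ' : Wts L θ') (s : Bool) {u : V} (hu : u ∈ XX O c N Km Q lab K0 m1 b s ω) :
    (u ∉ tkO O c N b → resA L θ θ' (fun i => fw O c N S Km Q lab ix K0 m1 b s ω (2 * i))
      (fun i => fw O c N S Km Q lab ix K0 m1 b (!s) ω (2 * i + 1)) u ≤
        qf O c N S lab r L δ Mr (6 * T0 / Dt) θ θ' b u) ∧
    resA L θ θ' (fun i => fw O c N S Km Q lab ix K0 m1 b s ω (2 * i))
      (fun i => fw O c N S Km Q lab ix K0 m1 b (!s) ω (2 * i + 1)) u ≤ 6 * T0 / Dt := by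
  have hM := hn.M0
  have hDt := hn.Dt0
  have hT := hn.t0
  have hδ := hn.δ0
  have hL := hn.l0
  set Φ : ℝ := 6 * T0 / Dt with hΦ
  have hΦ0 : 0 ≤ Φ := by positivity
  have he : ∀ i, u ∈ Zt O c N Km Q lab K0 m1 b s (2 * i) ω := by
    intro i
    rw [Zt, if_pos (by exact even_two_mul i)]
    exact hu
  have ho : ∀ i, u ∈ Zt O c N Km Q lab K0 m1 b (!s) (2 * i + 1) ω := by
    intro i
    rw [Zt, if_neg (by rw [Nat.not_even_iff_odd]; exact odd_two_mul_add_one i), Bool.not_not]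
    exact hu
  constructor
  · intro hW
    have h1 := sum_coef_abs (n := L) (x := fun i => fw O c N S Km Q lab ix K0 m1 b s ω (2 * (i + 1)) u)
      (y := fun i => Mr / 3 * wlk S r (tksO O c N lab b s) (2 * i + 2) u) (B := 100 * L * δ * Φ)
      hθ.c1 (hθ.s1 L) (by positivity) (fun i hi _ => by
        have := fw_approx hE hn hG s (j := 2 * (i + 1)) (by omega) (by omega) u (he (i + 1)) hW
        rwa [show 2 * (i + 1) = 2 * i + 2 by ring] at this ⊢)
    have h2 := sum_coef_abs (n := L)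
      (x := fun i => fw O c N S Km Q lab ix K0 m1 b (!s) ω (2 * i + 1) u)
      (y := fun i => Mr / 3 * wlk S r (tksO O c N lab b (!s)) (2 * i + 1) u) (B := 100 * L * δ * Φ)
      hθ'.c2 (hθ'.s2 L) (by positivity) (fun i hi h0 => by
        have hi0 : i ≠ 0 := by
          rintro rfl
          apply h0
          simp [hθ'.w0, hθ'.w1]
        exact fw_approx hE hn hG (!s) (j := 2 * i + 1) (by omega) (by omega) u (ho i) hW)
    have h3 := (abs_le.1 h1).2
    have h4 := (abs_le.1 h2).1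
    have e1 : Mr / 3 * resE S r L θ θ' (tksO O c N lab b s) (tksO O c N lab b (!s)) u =
        ∑ i ∈ range L, (θ (2 * i + 1) - θ (2 * i + 2)) *
          (Mr / 3 * wlk S r (tksO O c N lab b s) (2 * i + 2) u) -
        ∑ i ∈ range L, (θ' (2 * i) - θ' (2 * i + 1)) *
          (Mr / 3 * wlk S r (tksO O c N lab b (!s)) (2 * i + 1) u) := by
      rw [resE, mul_sub, mul_sum, mul_sum]
      congr 1 <;>
      · refine sum_congr rfl fun i _ => ?_
        ring
    have h5 : Mr / 3 * resE S r L θ θ' (tksO O c N lab b s) (tksO O c N lab b (!s)) u ≤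
        Mr / 3 * resQ S r L θ θ' O c N lab b u := by
      refine mul_le_mul_of_nonneg_left ?_ (by positivity)
      have g1 : |resE S r L θ θ' (tksO O c N lab b s) (tksO O c N lab b (!s)) u| +
          |resO S r L θ θ' (tksO O c N lab b s) (tksO O c N lab b (!s)) u| ≤
          resQ S r L θ θ' O c N lab b u := by
        rw [resQ]
        exact single_le_sum (f := fun s => |resE S r L θ θ' (tksO O c N lab b s)
          (tksO O c N lab b (!s)) u| + |resO S r L θ θ' (tksO O c N lab b s) (tksO O c N lab b (!s)) u|)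
          (fun s _ => add_nonneg (abs_nonneg _) (abs_nonneg _)) (mem_univ s)
      have g2 := le_abs_self (resE S r L θ θ' (tksO O c N lab b s) (tksO O c N lab b (!s)) u)
      have g3 := abs_nonneg (resO S r L θ θ' (tksO O c N lab b s) (tksO O c N lab b (!s)) u)
      linarith
    rw [resA, qf]
    rw [e1] at h5
    linarith
  · rw [resA]
    have h1 := sum_coef (n := L) (x := fun i => fw O c N S Km Q lab ix K0 m1 b s ω (2 * (i + 1)) u)
      hθ.c1 (hθ.s1 L) hΦ0 (fun i hi => by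
        have := (fw_crude hE hn hG s (j := 2 * i + 1) (by omega) u (he (i + 1))).2
        rwa [show 2 * (i + 1) = 2 * i + 1 + 1 by ring])
    have h2 : 0 ≤ ∑ i ∈ range L, (θ' (2 * i) - θ' (2 * i + 1)) *
        fw O c N S Km Q lab ix K0 m1 b (!s) ω (2 * i + 1) u :=
      sum_nonneg fun i hi => mul_nonneg (hθ'.c2 i)
        (fw_crude hE hn hG (!s) (j := 2 * i) (by have := mem_range.1 hi; omega) u (ho i)).1
    linarith

/-- residual of the walk of the colour on the other side -/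
theorem resC_le (hE : E1 G S r K0 T0 Bo ρ O c N Ac K Km Q b) (hn : Nm r K0 T0 L P ρ D Dt δ Mr)
    (hG : GdB O c N S Km Q lab ix K0 m1 r T0 L ρ D Dt δ Mr θ θ' Ac K b ω) (hθ : Wts L θ)
    (hθ' : Wts L θ') (s : Bool) {u : V} (hu : u ∈ XX O c N Km Q lab K0 m1 b (!s) ω) :
    (u ∉ tkO O c N b → resC L θ θ' (fun i => fw O c N S Km Q lab ix K0 m1 b s ω (2 * i + 1))
      (fun i => fw O c N S Km Q lab ix K0 m1 b (!s) ω (2 * i)) u ≤
        qf O c N S lab r L δ Mr (6 * T0 / Dt) θ θ' b u) ∧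
    resC L θ θ' (fun i => fw O c N S Km Q lab ix K0 m1 b s ω (2 * i + 1))
      (fun i => fw O c N S Km Q lab ix K0 m1 b (!s) ω (2 * i)) u ≤ 6 * T0 / Dt := by
  have hM := hn.M0
  have hDt := hn.Dt0
  have hT := hn.t0
  have hδ := hn.δ0
  have hL := hn.l0
  set Φ : ℝ := 6 * T0 / Dt with hΦ
  have hΦ0 : 0 ≤ Φ := by positivity
  have he : ∀ i, u ∈ Zt O c N Km Q lab K0 m1 b (!s) (2 * i) ω := by
    intro i
    rw [Zt, if_pos (by exact even_two_mul i)]
    exact hu
  have ho : ∀ i, u ∈ Zt O c N Km Q lab K0 m1 b s (2 * i + 1) ω := by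
    intro i
    rw [Zt, if_neg (by rw [Nat.not_even_iff_odd]; exact odd_two_mul_add_one i)]
    exact hu
  constructor
  · intro hW
    have h1 := sum_coef_abs (n := L)
      (x := fun i => fw O c N S Km Q lab ix K0 m1 b (!s) ω (2 * (i + 1)) u)
      (y := fun i => Mr / 3 * wlk S r (tksO O c N lab b (!s)) (2 * i + 2) u) (B := 100 * L * δ * Φ)
      hθ'.c1 (hθ'.s1 L) (by positivity) (fun i hi _ => by
        have := fw_approx hE hn hG (!s) (j := 2 * (i + 1)) (by omega) (by omega) u (he (i + 1)) hW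
        rwa [show 2 * (i + 1) = 2 * i + 2 by ring] at this ⊢)
    have h2 := sum_coef_abs (n := L)
      (x := fun i => fw O c N S Km Q lab ix K0 m1 b s ω (2 * i + 1) u)
      (y := fun i => Mr / 3 * wlk S r (tksO O c N lab b s) (2 * i + 1) u) (B := 100 * L * δ * Φ)
      hθ.c2 (hθ.s2 L) (by positivity) (fun i hi h0 => by
        have hi0 : i ≠ 0 := by
          rintro rfl
          apply h0
          simp [hθ.w0, hθ.w1]
        exact fw_approx hE hn hG s (j := 2 * i + 1) (by omega) (by omega) u (ho i) hW)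
    have h3 := (abs_le.1 h1).1
    have h4 := (abs_le.1 h2).2
    have e1 : Mr / 3 * resO S r L θ θ' (tksO O c N lab b s) (tksO O c N lab b (!s)) u =
        ∑ i ∈ range L, (θ (2 * i) - θ (2 * i + 1)) *
          (Mr / 3 * wlk S r (tksO O c N lab b s) (2 * i + 1) u) -
        ∑ i ∈ range L, (θ' (2 * i + 1) - θ' (2 * i + 2)) *
          (Mr / 3 * wlk S r (tksO O c N lab b (!s)) (2 * i + 2) u) := by
      rw [resO, mul_sub, mul_sum, mul_sum]
      congr 1 <;>
      · refine sum_congr rfl fun i _ => ?_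
        ring
    have h5 : Mr / 3 * resO S r L θ θ' (tksO O c N lab b s) (tksO O c N lab b (!s)) u ≤
        Mr / 3 * resQ S r L θ θ' O c N lab b u := by
      refine mul_le_mul_of_nonneg_left ?_ (by positivity)
      have g1 : |resE S r L θ θ' (tksO O c N lab b s) (tksO O c N lab b (!s)) u| +
          |resO S r L θ θ' (tksO O c N lab b s) (tksO O c N lab b (!s)) u| ≤
          resQ S r L θ θ' O c N lab b u := by
        rw [resQ]
        exact single_le_sum (f := fun s => |resE S r L θ θ' (tksO O c N lab b s)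
          (tksO O c N lab b (!s)) u| + |resO S r L θ θ' (tksO O c N lab b s) (tksO O c N lab b (!s)) u|)
          (fun s _ => add_nonneg (abs_nonneg _) (abs_nonneg _)) (mem_univ s)
      have g2 := le_abs_self (resO S r L θ θ' (tksO O c N lab b s) (tksO O c N lab b (!s)) u)
      have g3 := abs_nonneg (resE S r L θ θ' (tksO O c N lab b s) (tksO O c N lab b (!s)) u)
      linarith
    rw [resC, qf]
    rw [e1] at h5
    linarith
  · rw [resC]
    have h1 := sum_coef (n := L) (x := fun i => fw O c N S Km Q lab ix K0 m1 b s ω (2 * i + 1) u)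
      hθ.c2 (hθ.s2 L) hΦ0 (fun i hi => (fw_crude hE hn hG s (j := 2 * i) (by omega) u (ho i)).2)
    have h2 : 0 ≤ ∑ i ∈ range L, (θ' (2 * i + 1) - θ' (2 * i + 2)) *
        fw O c N S Km Q lab ix K0 m1 b (!s) ω (2 * (i + 1)) u :=
      sum_nonneg fun i hi => mul_nonneg (hθ'.c1 i) (by
        have := (fw_crude hE hn hG (!s) (j := 2 * i + 1) (by have := mem_range.1 hi; omega) u
          (he (i + 1))).1
        rwa [show 2 * (i + 1) = 2 * i + 1 + 1 by ring])
    linarith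

/-- the bound of the residuals used in the certificate -/
noncomputable def pf (O : Finset V) (c : Fin P → Finset V) (N : Fin P → V → V) (b : Fin P) (Φ : ℝ) (q : V → ℝ) (v : V) :
    ℝ := if v ∈ tkO O c N b then Φ else q v

/-- degrees into `V ∖ K` and into the star vertices -/
theorem dO_gen (hE : E1 G S r K0 T0 Bo ρ O c N Ac K Km Q b) (hn : Nm r K0 T0 L P ρ D Dt δ Mr)
    (hG : GdB O c N S Km Q lab ix K0 m1 r T0 L ρ D Dt δ Mr θ θ' Ac K b ω) (s : Bool) (u : V)
    (huA : u ∈ Ac) (hu : u ∉ tkO O c N b) :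
    D / 8 ≤ (#{y ∈ XX O c N Km Q lab K0 m1 b s ω | y ∉ K ∧ SS O c N S ix K0 m1 b u y ω} : ℝ) := by
  have hD := hn.D0
  have hδ := hn.δ0
  have hδs := hn.δs
  have h0 := hn.r0
  have h1 := NR_sum (g := fun v => if v ∈ K then 0 else 1) (Φ := 1)
    (fun v => by split_ifs <;> norm_num) (by positivity) hG.e2 hG.a1 u s
  have h2 : (1 : ℝ) / 4 ≤ HH S r (fun v => if v ∈ K then 0 else 1) u := by
    rw [HH, le_div_iff₀ h0]
    have h3 := hE.K5 u huA
    have h4 : ∑ w ∈ nb S u, (if w ∈ K then (0 : ℝ) else 1) = (#{w ∈ nb S u | w ∉ K} : ℝ) := by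
      rw [← sum_boole]
      refine sum_congr rfl fun w _ => ?_
      by_cases h : w ∈ K <;> simp [h]
    rw [h4]
    linarith
  have h3 : ∑ w ∈ NR O c N S Km Q K0 m1 b u s ω, (if w ∈ K then (0 : ℝ) else 1) ≤
      (#{y ∈ XX O c N Km Q lab K0 m1 b s ω | y ∉ K ∧ SS O c N S ix K0 m1 b u y ω} : ℝ) := by
    rw [← gen_nb (lab := lab) (ix := ix) hu s]
    have h4 : ∀ X : Finset V, ∑ w ∈ X, (if w ∈ K then (0 : ℝ) else 1) = (#{w ∈ X | w ∉ K} : ℝ) := by
      intro X
      rw [← sum_boole]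
      refine sum_congr rfl fun w _ => ?_
      by_cases h : w ∈ K <;> simp [h]
    rw [h4]
    norm_cast
    refine card_le_card fun w hw => ?_
    rw [mem_filter, mem_filter] at hw
    rw [mem_filter]
    exact ⟨hw.1.1, hw.2, hw.1.2.2⟩
  have h4 := (abs_le.1 h1).1
  have h5 : D * (1 / 4) ≤ D * HH S r (fun v => if v ∈ K then 0 else 1) u :=
    mul_le_mul_of_nonneg_left h2 hD.le
  nlinarith

theorem dO_low (hE : E1 G S r K0 T0 Bo ρ O c N Ac K Km Q b) (hn : Nm r K0 T0 L P ρ D Dt δ Mr)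
    (hG : GdB O c N S Km Q lab ix K0 m1 r T0 L ρ D Dt δ Mr θ θ' Ac K b ω) (s : Bool) (u : V)
    (huA : u ∈ Ac) : Dt / 8 ≤ (#{y ∈ XX O c N Km Q lab K0 m1 b s ω | y ∉ K ∧ SS O c N S ix K0 m1 b u y ω} : ℝ) := by
  have hD := hn.D0
  have hDt := hn.Dt0
  have hDt2 := hn.Dt2
  by_cases hu : u ∈ tkO O c N b
  · refine (hG.e6 u hu s).trans ?_
    norm_cast
    refine card_le_card fun w hw => ?_
    rw [mem_filter, ← tok_nb (lab := lab) hu s, mem_filter] at hw
    rw [mem_filter]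
    exact ⟨hw.1.1, hw.2, hw.1.2.2⟩
  · have := dO_gen hE hn hG s u huA hu
    linarith

theorem dM_gen (hn : Nm r K0 T0 L P ρ D Dt δ Mr)
    (hG : GdB O c N S Km Q lab ix K0 m1 r T0 L ρ D Dt δ Mr θ θ' Ac K b ω) (s : Bool) (y : V)
    (hyA : y ∈ Ac) (hy : y ∉ K) (hyW : y ∉ tkO O c N b) :
    ρ * D / 24 ≤ (#{u ∈ XX O c N Km Q lab K0 m1 b s ω | u ∈ MX O Km K0 m1 s ω ∧
      SS O c N S ix K0 m1 b u y ω} : ℝ) := by
  have hD := hn.D0
  have hδ := hn.δ0
  have hρ := hn.ρ0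
  have h1 := hG.e5 y hyA hy s
  have h2 := hG.e2 y
  have h3 : #{w ∈ NG O c N S Km Q K0 m1 b y s ω | w ∈ MX O Km K0 m1 s ω} ≤
      #{u ∈ XX O c N Km Q lab K0 m1 b s ω | u ∈ MX O Km K0 m1 s ω ∧ SS O c N S ix K0 m1 b u y ω} +
      #(BB N S b y ω) := by
    refine (card_le_card ?_).trans (card_union_le _ _)
    intro w hw
    rw [mem_filter, mem_NG] at hw
    obtain ⟨⟨h4, h5, h6⟩, h7⟩ := hw
    rw [mem_union]
    by_cases h8 : bl N b y w ω
    · right
      rw [BB, mem_filter, mem_nb]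
      exact ⟨h4, ac_cn h5, h8⟩
    · left
      rw [mem_filter]
      exact ⟨mem_XX.2 (Or.inr h5), h7, (SS_comm b w y).2
        ⟨h4, Or.inr ⟨hyW, h5.2.1, h6, h8⟩⟩⟩
  have h4 : (#{w ∈ NG O c N S Km Q K0 m1 b y s ω | w ∈ MX O Km K0 m1 s ω} : ℝ) ≤
      (#{u ∈ XX O c N Km Q lab K0 m1 b s ω | u ∈ MX O Km K0 m1 s ω ∧
        SS O c N S ix K0 m1 b u y ω} : ℝ) + #(BB N S b y ω) := by
    exact_mod_cast h3
  have h5 : δ * D ≤ ρ * D / 24 := by
    have h6 := hn.δρ
    have h7 := hn.k0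
    have h8 : (1 : ℝ) ≤ K0 ^ 2 := one_le_pow₀ h7
    have h9 : 24 * δ ≤ ρ := by nlinarith
    nlinarith
  linarith

theorem dM_low (hn : Nm r K0 T0 L P ρ D Dt δ Mr)
    (hG : GdB O c N S Km Q lab ix K0 m1 r T0 L ρ D Dt δ Mr θ θ' Ac K b ω) (s : Bool) (y : V)
    (hyA : y ∈ Ac) (hy : y ∉ K) :
    ρ * Dt / 12 ≤ (#{u ∈ XX O c N Km Q lab K0 m1 b s ω | u ∈ MX O Km K0 m1 s ω ∧
      SS O c N S ix K0 m1 b u y ω} : ℝ) := by
  by_cases hyW : y ∈ tkO O c N b
  · refine (hG.e5t y hy hyW s).trans ?_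
    norm_cast
    refine card_le_card fun w hw => ?_
    rw [mem_filter, mem_NT] at hw
    rw [mem_filter]
    exact ⟨mem_XX.2 (Or.inr hw.1.2.1), hw.2, (SS_comm b w y).2
      ⟨hw.1.1, Or.inl ⟨Or.inl hyW, hw.1.2.2⟩⟩⟩
  · have h1 := dM_gen hn hG s y hyA hy hyW
    have h2 := hn.Dt2
    have h3 := hn.ρ0
    nlinarith

/-- **The certificate and the load of one colour.** -/
theorem cert (hE : E1 G S r K0 T0 Bo ρ O c N Ac K Km Q b) (hn : Nm r K0 T0 L P ρ D Dt δ Mr)
    (hG : GdB O c N S Km Q lab ix K0 m1 r T0 L ρ D Dt δ Mr θ θ' Ac K b ω) (hθ : Wts L θ)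
    (hθ' : Wts L θ') (s : Bool) :
    ∃ (x : V → V → ℝ) (e : V → ℝ),
      Cert (XX O c N Km Q lab K0 m1 b s ω) (XX O c N Km Q lab K0 m1 b (!s) ω) (tkO O c N b)
        (MX O Km K0 m1 s ω) K (fun u y => SS O c N S ix K0 m1 b u y ω) x e ((1 - 4 * δ) * D) (Dt / 2)
        ((1 + 4 * δ) * D) T0 (ρ * Dt / 12) (Dt / 8)
        (2 * L * (6 * T0 / Dt / (Dt / 2)) + 6 * T0 / Dt / (Dt / 2) + (6 * T0 / Dt +
          (1 + 4 * δ) * D * ((6 * T0 / Dt + (1 + 4 * δ) * D * (6 * T0 / Dt / (Dt / 2))) /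
            (Dt / 8))) / (ρ * Dt / 12)) ∧
      (∀ u ∈ XX O c N Km Q lab K0 m1 b s ω, 0 ≤ e u) ∧
      (∀ u ∈ XX O c N Km Q lab K0 m1 b s ω, u ∉ tkO O c N b →
        e u ≤ Qf O c N S lab r L ρ δ Mr (6 * T0 / Dt) θ θ' b u) ∧
      ∀ u ∈ XX O c N Km Q lab K0 m1 b s ω, e u ≤ 3000 / ρ * (6 * T0 / Dt) := by
  have hM := hn.M0
  have hD := hn.D0
  have hDt := hn.Dt0
  have hDt2 := hn.Dt2
  have hT := hn.t0
  have hδ := hn.δ0
  have hδs := hn.δs
  have hL := hn.l0
  have hρ := hn.ρ0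
  have hρ1 := hn.ρ1
  have hTl : (T0 : ℝ) / (Dt / 2) ≤ 4 * δ := by
    rw [div_le_iff₀ (by positivity)]
    have := hn.tDt
    nlinarith
  have hTm : (T0 : ℝ) / (ρ * Dt / 12) ≤ 4 * δ := by
    rw [div_le_iff₀ (by positivity)]
    have := hn.tD
    have g : 0 ≤ δ * (ρ * Dt) := by positivity
    linarith
  have hTm' : (T0 : ℝ) / (Dt / 8) ≤ 4 * δ := by
    rw [div_le_iff₀ (by positivity)]
    have := hn.tDt
    have g : 0 ≤ δ * Dt := by positivity
    linarith
  set Φ : ℝ := 6 * T0 / Dt with hΦ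
  have hΦ0 : 0 ≤ Φ := by positivity
  set q := qf O c N S lab r L δ Mr Φ θ θ' b with hq
  set p := pf O c N b Φ q with hp
  have hqb := fun v => (q_bd (lab := lab) (b := b) hE hn hθ hθ' v).1
  have hq1b := fun v => (q_bd (lab := lab) (b := b) hE hn hθ hθ' v).2.1
  have hq2b := fun v => (q_bd (lab := lab) (b := b) hE hn hθ hθ' v).2.2
  rw [← hΦ] at hqb hq1b hq2b
  have hp0 : ∀ v, 0 ≤ p v ∧ p v ≤ Φ := by
    intro v
    rw [hp, pf]
    split_ifs
    · exact ⟨hΦ0, le_rfl⟩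
    · exact hqb v
  have hpq : ∀ v, v ∉ tkO O c N b → p v ≤ q v := by
    intro v hv
    rw [hp, pf, if_neg hv]
  set A := XX O c N Km Q lab K0 m1 b s ω with hA
  set C := XX O c N Km Q lab K0 m1 b (!s) ω with hC
  set R : V → V → Prop := fun u y => SS O c N S ix K0 m1 b u y ω with hR
  have hRc : ∀ u y, R u y ↔ R y u := fun u y => SS_comm b u y
  -- degrees
  have dAC : ∀ u, (#{y ∈ C | R u y} : ℝ) = #{w ∈ XX O c N Km Q lab K0 m1 b (!s) ω |
      SS O c N S ix K0 m1 b u w ω} := fun u => rfl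
  have dCA : ∀ y, (#{u ∈ A | R u y} : ℝ) = #{w ∈ XX O c N Km Q lab K0 m1 b s ω |
      SS O c N S ix K0 m1 b y w ω} := by
    intro y
    congr 2
    ext w
    rw [mem_filter, mem_filter]
    exact and_congr Iff.rfl (hRc w y)
  have dCAg : ∀ y, (#{u ∈ A | u ∉ tkO O c N b ∧ R u y} : ℝ) = #{w ∈ XX O c N Km Q lab K0 m1 b s ω |
      w ∉ tkO O c N b ∧ SS O c N S ix K0 m1 b y w ω} := by
    intro y
    congr 2
    ext w
    rw [mem_filter, mem_filter]
    exact and_congr Iff.rfl (and_congr Iff.rfl (hRc w y))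
  have dCAt : ∀ y, (#{u ∈ A | u ∈ tkO O c N b ∧ R u y} : ℝ) = #{w ∈ XX O c N Km Q lab K0 m1 b s ω |
      w ∈ tkO O c N b ∧ SS O c N S ix K0 m1 b y w ω} := by
    intro y
    congr 2
    ext w
    rw [mem_filter, mem_filter]
    exact and_congr Iff.rfl (and_congr Iff.rfl (hRc w y))
  have hdgA : ∀ u ∈ A, dgb O c N S Km Q lab ix K0 m1 b u ω = dA C R u := by
    intro u hu
    rw [dgb_eq hu]
    rfl
  have hdgC : ∀ y ∈ C, dgb O c N S Km Q lab ix K0 m1 b y ω = dC A R y := by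
    intro y hy
    rw [dgb_eq hy, Bool.not_not, dC, dCA]
  have e4 : ∀ y ∈ C, y ∉ K → ρ * Dt / 12 ≤ (#{u ∈ A | u ∈ MX O Km K0 m1 s ω ∧ R u y} : ℝ) :=
    fun y hyC hy => dM_low hn hG s y (XX_A hE hyC) hy
  have e5 : ∀ u ∈ A, Dt / 8 ≤ (#{y ∈ C | y ∉ K ∧ R u y} : ℝ) := fun u hu =>
    dO_low hE hn hG _ u (XX_A hE hu)
  have hcert := series (A := A) (C := C) (W := tkO O c N b) (MA := MX O Km K0 m1 s ω) (K := K) (S := R)
    (L := L) (θ := θ) (θ' := θ') (a := fun i => fw O c N S Km Q lab ix K0 m1 b s ω (2 * i))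
    (c := fun i => fw O c N S Km Q lab ix K0 m1 b s ω (2 * i + 1))
    (a' := fun i => fw O c N S Km Q lab ix K0 m1 b (!s) ω (2 * i + 1))
    (c' := fun i => fw O c N S Km Q lab ix K0 m1 b (!s) ω (2 * i))
    (Dm := (1 - 4 * δ) * D) (Dt := Dt / 2) (Dp := (1 + 4 * δ) * D) (T0 := T0)
    (m := ρ * Dt / 12) (m' := Dt / 8) (φ := Φ) (pA := p) (pC := p)
    (by positivity) (by positivity) (by positivity) hΦ0
    (fun u hu hW => by
      have := (abs_le.1 (deg_gen hE hn hG (XX_A hE hu) hW (!s))).1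
      rw [dAC]
      linarith)
    (fun u hu => by
      rw [dAC]
      exact deg_low hE hn hG (XX_A hE hu) _)
    (fun u _ => by
      rw [dAC]
      exact deg_up hE hn hG u _)
    (fun y _ => by
      rw [dCA]
      exact deg_up hE hn hG y _)
    (fun y hy => by
      rw [dCA]
      exact deg_low hE hn hG (XX_A hE hy) _)
    (fun y _ => by
      rw [dCAt]
      exact tok_cnt hE y s)
    e4 e5 hθ.w0 hθ'.w0 (hθ.zero _ le_rfl) (hθ'.zero _ le_rfl)
    (fun i => ⟨hθ.nonneg i, hθ.le1 i⟩) (fun i => ⟨hθ'.nonneg i, hθ'.le1 i⟩)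
    (fun u hu => by
      change fw O c N S Km Q lab ix K0 m1 b s ω 0 u = _
      rw [fw_zero]
      by_cases h : u ∈ tkO O c N b
      · rw [if_pos (XX_tk hu h), if_pos h]
      · rw [if_neg (fun h' => h (mem_tks.1 h').1), if_neg h])
    (fun i y hy => by
      rw [fw_succ, Zt, if_pos (even_two_mul i)]
      refine sum_congr rfl fun w hw => ?_
      rw [hdgA w (mem_filter.1 hw).1])
    (fun i u hu => by
      change fw O c N S Km Q lab ix K0 m1 b s ω (2 * (i + 1)) u = _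
      rw [show 2 * (i + 1) = 2 * i + 1 + 1 by ring, fw_succ, Zt,
        if_neg (by rw [Nat.not_even_iff_odd]; exact odd_two_mul_add_one i)]
      have : ({w ∈ XX O c N Km Q lab K0 m1 b (!s) ω | SS O c N S ix K0 m1 b w u ω} : Finset V) =
          {y ∈ C | R u y} := by
        ext w
        rw [mem_filter, mem_filter]
        exact and_congr Iff.rfl (hRc w u)
      rw [this]
      refine sum_congr rfl fun w hw => ?_
      rw [hdgC w (mem_filter.1 hw).1])
    (fun y hy => by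
      change fw O c N S Km Q lab ix K0 m1 b (!s) ω 0 y = _
      rw [fw_zero]
      by_cases h : y ∈ tkO O c N b
      · rw [if_pos (XX_tk hy h), if_pos h]
      · rw [if_neg (fun h' => h (mem_tks.1 h').1), if_neg h])
    (fun i u hu => by
      rw [fw_succ, Zt, if_pos (even_two_mul i)]
      have : ({w ∈ XX O c N Km Q lab K0 m1 b (!s) ω | SS O c N S ix K0 m1 b w u ω} : Finset V) =
          {y ∈ C | R u y} := by
        ext w
        rw [mem_filter, mem_filter]
        exact and_congr Iff.rfl (hRc w u)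
      rw [this]
      refine sum_congr rfl fun w hw => ?_
      rw [hdgC w (mem_filter.1 hw).1])
    (fun i y hy => by
      change fw O c N S Km Q lab ix K0 m1 b (!s) ω (2 * (i + 1)) y = _
      rw [show 2 * (i + 1) = 2 * i + 1 + 1 by ring, fw_succ, Zt,
        if_neg (by rw [Nat.not_even_iff_odd]; exact odd_two_mul_add_one i), Bool.not_not]
      refine sum_congr rfl fun w hw => ?_
      rw [hdgA w (mem_filter.1 hw).1])
    (fun i hi y hy => (fw_crude hE hn hG s (j := 2 * i) (by omega) y (by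
      rw [Zt, if_neg (by rw [Nat.not_even_iff_odd]; exact odd_two_mul_add_one i)]
      exact hy)).2)
    (fun i hi u hu => (fw_crude hE hn hG (!s) (j := 2 * i) (by omega) u (by
      rw [Zt, if_neg (by rw [Nat.not_even_iff_odd]; exact odd_two_mul_add_one i), Bool.not_not]
      exact hu)).2)
    (fun u _ => (hp0 u).1) (fun u _ => (hp0 u).1) (fun u _ => (hp0 u).2) (fun u _ => (hp0 u).2)
    (fun u hu => by
      obtain ⟨g1, g2⟩ := resA_le hE hn hG hθ hθ' s hu
      rw [hp, pf]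
      split_ifs with hW
      · exact g2
      · exact g1 hW)
    (fun y hy => by
      obtain ⟨g1, g2⟩ := resC_le hE hn hG hθ hθ' s hy
      rw [hp, pf]
      split_ifs with hW
      · exact g2
      · exact g1 hW)
  -- the load
  have hHq : ∀ v, 0 ≤ HH S r q v := fun v => HH_nonneg (fun w => (hqb w).1) v
  have hload := load (A := A) (C := C) (W := tkO O c N b) (MA := MX O Km K0 m1 s ω) (K := K) (S := R)
    (pA := p) (pC := p) (q := q) (h1 := HH S r q) (q1 := q1f O c N S lab r L δ Mr Φ θ θ' b)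
    (h2 := HH S r (q1f O c N S lab r L δ Mr Φ θ θ' b)) (q2 := q2f O c N S lab r L δ Mr Φ θ θ' b)
    (h3 := HH S r (q2f O c N S lab r L δ Mr Φ θ θ' b)) (D := D) (Dt := Dt) (Dl := Dt / 2)
    (δ := 4 * δ) (T := T0) (Φ := Φ) (Φ₁ := 4 * Φ) (Φ₂ := 35 * Φ) (mg := ρ * D / 24)
    (m := ρ * Dt / 12) (m' := Dt / 8) (by positivity) (by linarith) hD (by positivity) hΦ0
    (by positivity) (by positivity) (by positivity) hTl hTm hTm' hDt2
    (fun u _ _ => (cnt_le hE hn hG u (!s)).trans (by nlinarith))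
    (fun u _ hW => by
      have := (abs_le.1 (cnt_tok (lab := lab) (ix := ix) hG hW (!s))).2
      have g : δ * Dt ≤ Dt := by nlinarith
      linarith)
    (fun u _ => tok_cnt hE u (!s))
    (fun y _ _ => by
      rw [dCAg]
      exact (cnt_le hE hn hG y s).trans (by nlinarith))
    (fun y _ hW => by
      rw [dCAg]
      have := (abs_le.1 (cnt_tok (lab := lab) (ix := ix) hG hW s)).2
      have g : δ * Dt ≤ Dt := by nlinarith
      linarith)
    (fun y _ => by
      rw [dCAt]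
      exact tok_cnt hE y s)
    (fun y hy hW => by
      have := (abs_le.1 (deg_gen hE hn hG (XX_A hE hy) hW s)).1
      rw [dC, dCA]
      nlinarith)
    (fun y hy => by
      rw [dC, dCA]
      exact deg_low hE hn hG (XX_A hE hy) _)
    (fun u hu hW => dO_gen hE hn hG (!s) u (XX_A hE hu) hW)
    e5 (fun y hy hK hW => dM_gen hn hG s y (XX_A hE hy) hK hW) e4
    (fun u _ => hp0 u) (fun u _ => hp0 u) (fun u _ hW => hpq u hW) (fun u _ hW => hpq u hW)
    (fun v => (hq2b v).1)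
    (fun u _ hW => by
      have g1 := (abs_le.1 (NR_sum (g := q) (Φ := Φ) hqb (by positivity) hG.e2 hG.a3 u (!s))).2
      rw [← gen_nb (lab := lab) (ix := ix) hW (!s)] at g1
      have g2 : 0 ≤ δ * D * Φ := by positivity
      change ∑ y ∈ XX O c N Km Q lab K0 m1 b (!s) ω with (y ∉ tkO O c N b ∧ SS O c N S ix K0 m1 b u y ω),
        q y ≤ _
      linarith)
    (fun y _ hW => by
      have g1 := (abs_le.1 (NR_sum (g := q1f O c N S lab r L δ Mr Φ θ θ' b) (Φ := 4 * Φ) hq1b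
        (by positivity) hG.e2 hG.a4 y s)).2
      rw [← gen_nb (lab := lab) (ix := ix) hW s] at g1
      have g2 : 0 ≤ δ * D * Φ := by positivity
      have g3 : ({u ∈ A | u ∉ tkO O c N b ∧ R u y} : Finset V) =
          {w ∈ XX O c N Km Q lab K0 m1 b s ω | w ∉ tkO O c N b ∧ SS O c N S ix K0 m1 b y w ω} := by
        ext w
        rw [mem_filter, mem_filter]
        exact and_congr Iff.rfl (and_congr Iff.rfl (hRc w y))
      rw [g3]
      linarith)
    (fun u _ hW => by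
      have g1 := (abs_le.1 (NR_sum (g := q2f O c N S lab r L δ Mr Φ θ θ' b) (Φ := 35 * Φ) hq2b
        (by positivity) hG.e2 hG.a5 u (!s))).2
      rw [← gen_nb (lab := lab) (ix := ix) hW (!s)] at g1
      have g2 : 0 ≤ δ * D * Φ := by positivity
      change ∑ y ∈ XX O c N Km Q lab K0 m1 b (!s) ω with (y ∉ tkO O c N b ∧ SS O c N S ix K0 m1 b u y ω),
        q2f O c N S lab r L δ Mr Φ θ θ' b y ≤ _
      linarith)
    (fun v => by
      rw [q1f]
      linarith)
    (fun v => by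
      rw [q2f]
      linarith)
  obtain ⟨hl1, hl2⟩ := hload
  have hmg : D / (ρ * D / 24) = 24 / ρ := by
    field_simp
  rw [hmg] at hl1 hl2
  have hpe0 : ∀ u ∈ A, 0 ≤ pe A C (MX O Km K0 m1 s ω) K R p p u := by
    intro u hu
    rw [pe]
    split_ifs
    · have hsa0 : ∀ v ∈ A, 0 ≤ sa A C K R p p v := fun v _ =>
        add_nonneg (hp0 v).1 (sum_nonneg fun y _ => div_nonneg (hp0 y).1 (Nat.cast_nonneg _))
      refine add_nonneg (hsa0 u hu) (sum_nonneg fun y _ => div_nonneg ?_ (Nat.cast_nonneg _))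
      exact add_nonneg (hp0 y).1 (sum_nonneg fun v hv =>
        div_nonneg (hsa0 v (mem_filter.1 hv).1) (Nat.cast_nonneg _))
    · exact le_rfl
  have hρi : 1 ≤ 1 / ρ := by
    rw [le_div_iff₀ hρ]
    linarith
  have hδΦ : 0 ≤ δ * Φ := by positivity
  refine ⟨_, _, hcert, hpe0, ?_, ?_⟩
  · intro u hu hW
    by_cases hMA : u ∈ MX O Km K0 m1 s ω
    · refine (hl1 u hu hMA hW).trans ?_
      rw [Qf]
      have g1 : 4 * δ * (24 / ρ) * (35 * Φ) + 45 * (4 * δ) * Φ ≤ 4000 / ρ * δ * Φ := by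
        have g2 : δ * Φ ≤ 1 / ρ * (δ * Φ) := by nlinarith
        have g3 : 4 * δ * (24 / ρ) * (35 * Φ) = 3360 * (1 / ρ * (δ * Φ)) := by ring
        have g4 : 4000 / ρ * δ * Φ = 4000 * (1 / ρ * (δ * Φ)) := by ring
        rw [g3, g4]
        linarith
      linarith
    · rw [pe, if_neg hMA, Qf]
      have g1 := (hq1b u).1
      have g2 : 0 ≤ 24 / ρ * HH S r (q2f O c N S lab r L δ Mr Φ θ θ' b) u :=
        mul_nonneg (by positivity) (HH_nonneg (fun w => (hq2b w).1) u)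
      have g3 : 0 ≤ 4000 / ρ * δ * Φ := by positivity
      linarith
  · intro u hu
    by_cases hMA : u ∈ MX O Km K0 m1 s ω
    · refine (hl2 u hu hMA).trans ?_
      have g2 : Φ ≤ 1 / ρ * Φ := by nlinarith
      have g3 : 2 * (24 / ρ) * (45 * Φ) = 2160 * (1 / ρ * Φ) := by ring
      have g4 : 3000 / ρ * Φ = 3000 * (1 / ρ * Φ) := by ring
      have g5 : 45 * (4 * δ) * Φ ≤ Φ := by nlinarith
      rw [g3, g4]
      linarith
    · rw [pe, if_neg hMA]
      positivity

end Cert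

end Pool.Agent.Work.MP_db9399_eo
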