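import Pool.Agent.Work.MP_db9399_sg.Interface

/-!
# MP_db9399, the engine with occupied sets (helper89)

`sg.Interface` with `oc : Fin P → Finset V` instead of the own colours `c : V → Option (Fin P)`:
`v ∈ oc b` means that nothing happens at `v` in the colour `b` inside the machine (own colour, star
edge, precoloured vertex or edge, planned miss). `v` may be a light vertex. `Q` = planned vertices
(version B; `Q = ∅` in version A): no left over edges between `Q` and the missed vertices.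
-/

set_option autoImplicit false

namespace Pool.Agent.Work.MP_db9399_eo

open Finset Classical
open Pool.Agent.Work.MP_db9399_all (nb mis)
open Pool.Agent.Work.MP_db9399_cg (cdg pk sx sp)
open Pool.Agent.Work.MP_db9399_en (HH wlk resE resO Wts)
open Pool.Agent.Work.MP_db9399_sg (Mts TstN)

universe u

section Defs

variable {V I : Type u} [Fintype V] [Fintype I]

/-- the tokens of the colour `b` -/
noncomputable def tkO {P : ℕ} (O : Finset V) (c : Fin P → Finset V) (N : Fin P → V → V)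
    (b : Fin P) : Finset V :=
  O.filter fun v => v ∉ c b ∧ (N b v = v ∨ N b v ∈ c b)

/-- the tokens with the label `s` -/
noncomputable def tksO {P : ℕ} (O : Finset V) (c : Fin P → Finset V) (N : Fin P → V → V)
    (lab : Fin P → V → Bool) (b : Fin P) (s : Bool) : Finset V :=
  (tkO O c N b).filter fun v => lab b v = s

/-- the frozen vertices of the colour `b` -/
noncomputable def fzO {P : ℕ} (O : Finset V) (c : Fin P → Finset V) (N : Fin P → V → V)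
    (b : Fin P) : Finset V :=
  univ.filter fun v => v ∉ O ∧ (v ∈ c b ∨ N b v = v ∨ N b v ∈ c b)

/-- All classes together: reserves `S j`, matchings `N b` of the colours, occupied sets `c b`.
`G` contains all edges: those of the `N b`, of the `S j` and left over edges. `A j` = active
vertices of the class `j`, `nn j v` = node of the gadget vertex `v` in the class `j`. At most `T0`
tokens and at most `Bo` occupied or frozen vertices in a neighbourhood. -/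
structure AllO {J : Type u} [Fintype J] {P : ℕ} (G : SimpleGraph V) (S : J → SimpleGraph V)
    (cl : Fin P → J) (O : Finset V) (A : J → Finset V) (nn : J → V → Option I) (d K0 T0 Bo : ℕ)
    (r : J → ℕ) (c : Fin P → Finset V) (N : Fin P → V → V) : Prop where
  Pd : P ≤ 2 * d
  rd : ∀ j, r j ≤ d
  dG : ∀ v, (nb G v).card ≤ K0 * d
  SG : ∀ j, S j ≤ G
  SS : ∀ j j' v w, j ≠ j' → (S j).Adj v w → ¬ (S j').Adj v w
  Sa : ∀ j v w, (S j).Adj v w → v ∈ A j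
  dS1 : ∀ j, ∀ v ∈ A j, r j ≤ (nb (S j) v).card + K0
  dS2 : ∀ j v, (nb (S j) v).card ≤ r j + K0
  c1 : ∀ v, (univ.filter fun b => v ∈ c b).card ≤ K0
  mts : Mts G N
  NS : ∀ b v j, ¬ (S j).Adj v (N b v)
  Na : ∀ b v, N b v ≠ v → v ∈ A (cl b)
  tk1 : ∀ v, (univ.filter fun b => v ∈ tkO O c N b).card ≤ K0
  tk2 : ∀ b v, ((nb (S (cl b)) v).filter fun w => w ∈ tkO O c N b).card ≤ T0
  ow : ∀ b v, ((nb (S (cl b)) v).filter fun w => w ∈ c b ∨ w ∈ fzO O c N b).card ≤ Bo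
  AO : ∀ j, O ⊆ A j
  An : ∀ j v, nn j v ≠ none ↔ v ∈ A j ∧ v ∉ O
  sz : ∀ j i, ((univ.filter fun v => nn j v = some i).card : ℝ) ≤ K0 * d

/-- sum of the absolute values of the residuals of colour `b` -/
noncomputable def resQ {P : ℕ} (S : SimpleGraph V) (r L : ℕ) (θ θ' : ℕ → ℝ) (O : Finset V)
    (c : Fin P → Finset V) (N : Fin P → V → V) (lab : Fin P → V → Bool) (b : Fin P) (v : V) :
    ℝ :=
  ∑ s : Bool, (|resE S r L θ θ' (tksO O c N lab b s) (tksO O c N lab b (!s)) v| +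
    |resO S r L θ θ' (tksO O c N lab b s) (tksO O c N lab b (!s)) v|)

/-- The sets `K`, `Km`. -/
structure KmO {J : Type u} {P : ℕ} (G : SimpleGraph V) (S : J → SimpleGraph V)
    (O : Finset V) (A : J → Finset V) (r : J → ℕ) (ρ : ℝ) (c : Fin P → Finset V)
    (N : Fin P → V → V) (K Km : Finset V) : Prop where
  K1 : ∀ j, ∀ v ∈ K, ∀ w ∈ K, ¬ (S j).Adj v w
  K2 : Km ⊆ K
  KO : Km ⊆ O
  K3 : ∀ v ∈ Km, ∀ w ∈ Km, G.Adj v w → ∃ b, N b v = w ∧ v ∉ c b ∧ w ∉ c b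
  K4 : ∀ j, ∀ v ∈ A j, v ∉ K → ρ * r j ≤ (((nb (S j) v).filter fun w => w ∈ Km ∨ w ∉ O).card : ℝ)
  K5 : ∀ j, ∀ v ∈ A j, (r j : ℝ) / 4 ≤ (((nb (S j) v).filter fun w => w ∉ K).card : ℝ)

/-- The sets `K`, `Km`, `Q` (version B). A vertex `w` of `Km` is no exit in the colour `b` if
`N b w ∈ Q`. Nothing is needed for the pairs inside `Q`: they are usually occupied (`v ∈ c b` and
`N b v ∈ c b`), otherwise they may be opened. -/
structure KmQ {J : Type u} {P : ℕ} (G : SimpleGraph V) (S : J → SimpleGraph V) (cl : Fin P → J)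
    (O : Finset V) (A : J → Finset V) (r : J → ℕ) (ρ : ℝ) (c : Fin P → Finset V)
    (N : Fin P → V → V) (K Km Q : Finset V) : Prop where
  K1 : ∀ j, ∀ v ∈ K, ∀ w ∈ K, ¬ (S j).Adj v w
  K2 : Km ⊆ K
  KO : Km ⊆ O
  KQ : Disjoint Km Q
  K3 : ∀ v ∈ Km, ∀ w, (w ∈ Km ∨ w ∈ Q) → G.Adj v w → ∃ b, N b v = w ∧ v ∉ c b ∧ w ∉ c b
  K4 : ∀ b, ∀ v ∈ A (cl b), v ∉ K → ρ * r (cl b) ≤
    (((nb (S (cl b)) v).filter fun w => (w ∈ Km ∧ N b w ∉ Q) ∨ w ∉ O).card : ℝ)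
  K5 : ∀ j, ∀ v ∈ A j, (r j : ℝ) / 4 ≤ (((nb (S j) v).filter fun w => w ∉ K).card : ℝ)

/-- the new missing colours of the node `i` of the class `j` -/
noncomputable def msO {J : Type u} {P : ℕ} (O : Finset V) (nn : J → V → Option I)
    (c : Fin P → Finset V) (N F : Fin P → V → V) (j : J) (i : I) (b : Fin P) : ℝ :=
  ((univ.filter fun v => nn j v = some i ∧ F b v = v ∧ v ∉ fzO O c N b).card : ℝ)

/-- The output of the engine: new matchings `F b`. Missing colours on `O` only at vertices of `Km`,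
at most one per vertex (over all classes); the vertices with a missing colour are independent in the
left over graph; few of the colours in `R v` are changed at `v` (`Ft`), few vertices of a node are
changed in one colour (`Fw`), both without the frozen ones; few new missing colours in every node: at most `B0` per colour, sum at
most `ε` times the size. -/
structure OutO {J : Type u} {P : ℕ} (G : SimpleGraph V) (S : J → SimpleGraph V)
    (cl : Fin P → J) (O : Finset V) (nn : J → V → Option I) (d : ℕ) (r : J → ℕ) (ε ε₀ C₀ B0 : ℝ)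
    (R : V → Finset (Fin P)) (c : Fin P → Finset V) (N : Fin P → V → V) (Km : Finset V)
    (F : Fin P → V → V) : Prop where
  FF : ∀ b v, F b (F b v) = v
  FG : ∀ b v, F b v ≠ v → F b v = N b v ∨ (S (cl b)).Adj v (F b v)
  Fd : ∀ b b' v, F b v ≠ v → F b v = F b' v → b = b'
  Fo : ∀ b, ∀ v ∈ c b, F b v = v
  Fz : ∀ b v, v ∈ fzO O c N b → F b v = v
  Fm : ∀ b v, v ∈ O → F b v = v → v ∉ c b → v ∈ Km
  F1 : ∀ v, v ∈ O → (univ.filter fun b => F b v = v ∧ v ∉ c b).card ≤ 1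
  Fs : ∀ v w b b', v ∈ O → w ∈ O → F b v = v → v ∉ c b → F b' w = w → w ∉ c b' →
    G.Adj v w → ∃ b'', F b'' v = w
  Ft : ∀ j v, (((R v).filter fun b => cl b = j ∧ v ∉ fzO O c N b ∧ F b v ≠ N b v).card : ℝ) ≤
    C₀ * (r j / d) * (R v).card + (d : ℝ) ^ (-ε₀) * r j
  Fw : ∀ j i b, cl b = j →
    ((univ.filter fun v => nn j v = some i ∧ v ∉ fzO O c N b ∧ F b v ≠ N b v).card : ℝ) ≤
      (d : ℝ) ^ (1 - ε₀)
  Fn : ∀ j i b, cl b = j → msO O nn c N F j i b ≤ B0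
  Fl : ∀ j i, ∑ b with cl b = j, msO O nn c N F j i b ≤
    ε * (univ.filter fun v => nn j v = some i).card + 4

/-- local bounds for the occupied sets and the left over edges of the graph `G` -/
structure OwnO {J : Type u} {P : ℕ} (G : SimpleGraph V) (S : J → SimpleGraph V) (cl : Fin P → J)
    (O : Finset V) (d : ℕ) (r : J → ℕ) (a C : ℝ) (c : Fin P → Finset V) (N : Fin P → V → V) :
    Prop where
  t1 : ∀ x, ((univ.filter fun b => x ∈ tkO O c N b).card : ℝ) ≤ sp d a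
  t2 : ∀ b y, (((nb (S (cl b)) y).filter fun x => x ∈ tkO O c N b).card : ℝ) ≤ 2 * sp d a
  o1 : ∀ x, ((univ.filter fun b => x ∈ c b).card : ℝ) ≤ sp d a
  av : ∀ j y, (∑ x ∈ nb (S j) y, ((univ.filter fun b => N b x ≠ x ∧
    (x ∈ c b ∨ N b x ∈ c b)).card : ℝ)) ≤ C * r j
  l1 : ∀ x, (((nb G x).filter fun w => (¬ ∃ b, N b x = w) ∧ ¬ ∃ j, (S j).Adj x w).card : ℝ) ≤
    sp d a
  lv : ∀ j y, (∑ x ∈ nb (S j) y, (((nb G x).filter fun w => (¬ ∃ b, N b x = w) ∧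
    ¬ ∃ j', (S j').Adj x w).card : ℝ)) ≤ C * r j

end Defs

/-- ENGO: the engine with occupied sets, all classes at once (version A: `Q = ∅`, `Bo = T0`). -/
def Stmt_ENGO : Prop :=
  ∃ (ε₀ c₀ C₀ : ℝ) (d₀ : ℕ), 0 < ε₀ ∧ ε₀ ≤ 1 / 2500 ∧ 0 < c₀ ∧ 0 < C₀ ∧
    ∀ {V I J : Type u} [Fintype V] [Fintype I] [Fintype J] (P : ℕ) (G : SimpleGraph V)
      (S : J → SimpleGraph V) (cl : Fin P → J) (O : Finset V) (A : J → Finset V)
      (nn : J → V → Option I) (d K0 T0 L : ℕ) (r : J → ℕ) (ρ ε : ℝ) (R : V → Finset (Fin P))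
      (c : Fin P → Finset V) (N : Fin P → V → V) (K Km : Finset V) (lab : Fin P → V → Bool)
      (θ θ' : ℕ → ℝ),
      AllO G S cl O A nn d K0 T0 T0 r c N → KmO G S O A r ρ c N K Km → Wts L θ → Wts L θ' →
      d₀ ≤ d → 1 ≤ K0 → Fintype.card J ≤ K0 → 1 ≤ T0 → ρ ≤ 1 → 0 < ε → ε ≤ 1 →
      (∀ j, (d : ℝ) ^ (1 - ε₀) ≤ r j) →
      (K0 : ℝ) ≤ (d : ℝ) ^ ε₀ → (T0 : ℝ) ≤ (d : ℝ) ^ ε₀ → (L : ℝ) ≤ (d : ℝ) ^ ε₀ →
      (d : ℝ) ^ (-ε₀) ≤ ρ → (d : ℝ) ^ (-ε₀) ≤ ε →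
      (∀ j v, (Fintype.card J : ℝ) * ∑ b with cl b = j,
        resQ (S j) (r j) L θ θ' O c N lab b v ≤ c₀ * ρ * ε) →
      ∃ F : Fin P → V → V,
        OutO G S cl O nn d r ε ε₀ C₀ ((d : ℝ) ^ (10 * ε₀)) R c N Km F

/-- ENGQ: version B, with the planned vertices `Q` and the numbers `Bo` and `r0`. New output: no
left over edge between `Q` and the missed vertices of `O`. -/
def Stmt_ENGQ : Prop :=
  ∃ (ε₀ c₀ C₀ : ℝ) (d₀ : ℕ), 0 < ε₀ ∧ ε₀ ≤ 1 / 2500 ∧ 0 < c₀ ∧ 0 < C₀ ∧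
    ∀ {V I J : Type u} [Fintype V] [Fintype I] [Fintype J] (P : ℕ) (G : SimpleGraph V)
      (S : J → SimpleGraph V) (cl : Fin P → J) (O : Finset V) (A : J → Finset V)
      (nn : J → V → Option I) (d K0 T0 Bo L : ℕ) (r : J → ℕ) (r0 ρ ε : ℝ)
      (R : V → Finset (Fin P)) (c : Fin P → Finset V) (N : Fin P → V → V) (K Km Q : Finset V)
      (lab : Fin P → V → Bool) (θ θ' : ℕ → ℝ),
      AllO G S cl O A nn d K0 T0 Bo r c N → KmQ G S cl O A r ρ c N K Km Q → Wts L θ → Wts L θ' →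
      d₀ ≤ d → 1 ≤ K0 → Fintype.card J ≤ K0 → 1 ≤ T0 → ρ ≤ 1 → 0 < ε → ε ≤ 1 →
      (∀ j, r0 ≤ r j) → (d : ℝ) ^ (1 - ε₀) ≤ r0 →
      (K0 : ℝ) ≤ (d : ℝ) ^ ε₀ → (T0 : ℝ) ≤ (d : ℝ) ^ ε₀ → (L : ℝ) ≤ (d : ℝ) ^ ε₀ →
      (d : ℝ) ^ (-ε₀) ≤ ρ → (d : ℝ) ^ (-ε₀) ≤ ε →
      10 ^ 13 * (Bo : ℝ) * L * K0 ^ 6 * T0 * d ≤ ρ ^ 2 * ε * r0 ^ 2 →
      (∀ j v, (Fintype.card J : ℝ) * ∑ b with cl b = j,
        resQ (S j) (r j) L θ θ' O c N lab b v ≤ c₀ * ρ * ε) →
      ∃ F : Fin P → V → V,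
        OutO G S cl O nn d r ε ε₀ C₀ ((d : ℝ) ^ (10 * ε₀)) R c N Km F ∧
        ∀ v w b, v ∈ Q → w ∈ O → F b w = w → w ∉ c b → G.Adj v w → ∃ b', F b' v = w

/-- KMLO: the set `Km` and the labels, all classes at once. Test `t` belongs to the class `jt t`.
Occupied pairs and left over edges are bounded in average only. `Km` is chosen in the set `Kc` of
candidates (version A: `Kc = K`). -/
def Stmt_KMLO : Prop :=
  ∀ a C : ℝ, 0 < a → a ≤ 1 / 100 → 1 ≤ C → ∃ ρ : ℝ, 0 < ρ ∧ ρ ≤ 1 ∧ ∀ ε : ℝ, 0 < ε →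
    ∃ (e : ℝ) (d0 : ℕ), 0 < e ∧
    ∀ {V I J τ : Type u} [Fintype V] [Fintype I] [Fintype J] [Fintype τ] (P : ℕ)
      (G : SimpleGraph V) (S : J → SimpleGraph V) (cl : Fin P → J) (O : Finset V)
      (A : J → Finset V) (nn : J → V → Option I) (d K0 T0 Bo : ℕ) (r : J → ℕ)
      (jt : τ → J) (p q : τ → V → ℝ) (N : Fin P → V → V) (c : Fin P → Finset V)
      (K Kc : Finset V), d0 ≤ d → AllO G S cl O A nn d K0 T0 Bo r c N →
      OwnO G S cl O d r a C c N →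
      (Fintype.card J : ℝ) ≤ C → (∀ v, ((nb G v).card : ℝ) ≤ C * d) →
      (∀ j, (d : ℝ) ^ (1 - a) ≤ r j) → (∀ j, ∀ v ∈ K, ∀ w ∈ K, ¬ (S j).Adj v w) → Kc ⊆ K →
      (∀ j, ∀ v ∈ A j, v ∉ K → (r j : ℝ) / 150 ≤ ((nb (S j) v ∩ Kc).card : ℝ)) →
      (∀ j, ∀ v ∈ A j, (r j : ℝ) / 4 ≤ (((nb (S j) v).filter fun w => w ∉ K).card : ℝ)) →
      (∀ t x, 0 ≤ p t x) → (∀ t x, 0 ≤ q t x) → TstN O (fun t x => p t x + q t x) d a C e →
      (∀ t, ∑ x, (p t x + q t x) ^ 2 *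
        ((univ.filter fun b => cl b = jt t ∧ x ∈ tkO O c N b).card : ℝ) ≤ e / d) →
      (∀ t b, cl b = jt t → ∑ x ∈ tkO O c N b, (p t x + q t x) ≤ (d : ℝ) ^ (-(3 / 4) : ℝ)) →
      ∃ (Km : Finset V) (lab : Fin P → V → Bool), Km ⊆ Kc ∧ KmO G S O A r ρ c N K Km ∧
        (∀ t, ∑ b with cl b = jt t, ∑ s : Bool,
          |∑ x ∈ tksO O c N lab b s, p t x - ∑ x ∈ tksO O c N lab b (!s), q t x| ≤
          ∑ b with cl b = jt t, |∑ x ∈ tkO O c N b, (p t x - q t x)| + ε) ∧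
        ∀ t, ∑ b with cl b = jt t, ∑ s : Bool,
          (∑ x ∈ tksO O c N lab b s, p t x - ∑ x ∈ tksO O c N lab b (!s), q t x) ^ 2 ≤
          ∑ b with cl b = jt t, (∑ x ∈ tkO O c N b, (p t x - q t x)) ^ 2 + ε / d

end Pool.Agent.Work.MP_db9399_eo
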