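import Pool.Agent.Work.MP_db9399_eo.ENGM
import Pool.Agent.Work.MP_db9399_eo.NUM2

/-!
# MP_db9399, ENGQ and ENGO: the engine with occupied sets (helper89)
-/

set_option autoImplicit false

namespace Pool.Agent.Work.MP_db9399_eo

open Finset Classical
open Pool.Agent.Work.MP_db9399_all (nb)

universe u

/-- **ENGQ** -/
theorem stmt_ENGQ : Stmt_ENGQ.{u} := by
  obtain ⟨d₀, hd₀⟩ := stmt_ENGM.{u} helper68.stmt_NUM2
  refine ⟨1 / 2500, 1 / 80000, 1, d₀, by norm_num, le_rfl, by norm_num, one_pos, ?_⟩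
  intro V I J _ _ _ P G S cl O A nn d K0 T0 Bo L r r0 ρ ε R c N K Km Q lab θ θ' hA hK hθ hθ' hd
    hK1 hJ hT hρ1 hε hε1 hr hr0 hK' hT' hL' hρ hερ hBo hres
  rcases isEmpty_or_nonempty J with hJe | ⟨⟨j0⟩⟩
  · have hP : IsEmpty (Fin P) := ⟨fun b => hJe.false (cl b)⟩
    refine ⟨N, ⟨fun b => (hP.false b).elim, fun b => (hP.false b).elim,
      fun b => (hP.false b).elim, fun b => (hP.false b).elim, fun b => (hP.false b).elim,
      fun b => (hP.false b).elim, fun v _ => ?_, fun v w b => (hP.false b).elim,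
      fun j => (hJe.false j).elim, fun j => (hJe.false j).elim, fun j => (hJe.false j).elim,
      fun j => (hJe.false j).elim⟩, fun v w b => (hP.false b).elim⟩
    rw [univ_eq_empty, filter_empty, card_empty]
    exact Nat.zero_le _
  have hr0d : r0 ≤ d := (hr j0).trans (by exact_mod_cast hA.rd j0)
  obtain ⟨F, z, Ξ, h1, h2, h3⟩ := hd₀ P G S cl O A nn d K0 T0 Bo L r r0 ρ ε c N K Km Q lab θ θ' hA
    hK hθ hθ' hd hK1 hJ hT hρ1 hε hε1 hr hr0 hr0d hK' hT' hL' hρ hερ hBo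
    (fun j v => (hres j v).trans (le_of_eq (by ring)))
  refine ⟨F, ⟨h3.FF, h3.FG, h3.Fd, fun b v => h3.Fo b v, h3.Fz, h3.Fm, h3.F1, h3.Fs, ?_, ?_, ?_,
    h3.Fl⟩, h3.Fq⟩
  · intro j v
    have g1 : (((R v).filter fun b => cl b = j ∧ v ∉ fzO O c N b ∧
        F b v ≠ N b v).card : ℝ) ≤ 2 * z := by
      refine le_trans ?_ (h3.Ft v)
      norm_cast
      refine card_le_card fun b hb => ?_
      rw [mem_filter] at hb ⊢
      exact ⟨mem_univ _, hb.2.2⟩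
    have g2 : 0 ≤ 1 * ((r j : ℝ) / d) * ((R v).card : ℝ) := by positivity
    have g3 := h1 j
    linarith
  · intro j i b hb
    exact (h3.Fw j i b hb).trans h2
  · intro j i b hb
    refine (h3.Fn j i b hb).trans (le_of_eq ?_)
    norm_num

/-- the numbers of version A -/
theorem bo_small {d K0 T0 L : ℕ} {ρ ε e : ℝ} (he0 : 0 < e) (he : e ≤ 1 / 2500)
    (hd : 10 ^ 26 ≤ d) (hε : 0 < ε) (hK : (K0 : ℝ) ≤ (d : ℝ) ^ e) (hT : (T0 : ℝ) ≤ (d : ℝ) ^ e)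
    (hL : (L : ℝ) ≤ (d : ℝ) ^ e) (hρ : (d : ℝ) ^ (-e) ≤ ρ) (hε' : (d : ℝ) ^ (-e) ≤ ε) :
    10 ^ 13 * (T0 : ℝ) * L * K0 ^ 6 * T0 * d ≤ ρ ^ 2 * ε * ((d : ℝ) ^ (1 - e)) ^ 2 := by
  have hdR : (10 : ℝ) ^ 26 ≤ d := by
    have h : ((10 ^ 26 : ℕ) : ℝ) ≤ d := Nat.cast_le.2 hd
    rw [Nat.cast_pow] at h
    exact h
  have hd0 : (0 : ℝ) < d := lt_of_lt_of_le (by positivity) hdR
  have hd1 : (1 : ℝ) ≤ d := le_trans (by norm_num) hdR
  obtain ⟨x, hx⟩ : ∃ x : ℝ, x = (d : ℝ) ^ e := ⟨_, rfl⟩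
  have hx0 : 0 < x := by
    rw [hx]
    exact Real.rpow_pos_of_pos hd0 _
  have hxm : (d : ℝ) ^ (-e) = x⁻¹ := by
    rw [hx, Real.rpow_neg hd0.le]
  have hx1 : (d : ℝ) ^ (1 - e) = d / x := by
    rw [hx, Real.rpow_sub hd0, Real.rpow_one]
  have hx14 : x ^ 14 ≤ Real.sqrt d := by
    rw [hx, ← Real.rpow_natCast, ← Real.rpow_mul hd0.le, Real.sqrt_eq_rpow]
    refine Real.rpow_le_rpow_of_exponent_le hd1 ?_
    push_cast
    linarith
  have hs : (10 : ℝ) ^ 13 ≤ Real.sqrt d := by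
    refine Real.le_sqrt_of_sq_le (le_trans (le_of_eq ?_) hdR)
    norm_num
  have hs2 : Real.sqrt d * Real.sqrt d = d := Real.mul_self_sqrt hd0.le
  have hkey : 10 ^ 13 * x ^ 14 ≤ d := by
    rw [← hs2]
    exact mul_le_mul hs hx14 (by positivity) (Real.sqrt_nonneg _)
  rw [← hx] at hK hT hL
  rw [hxm] at hρ hε'
  rw [hx1]
  have h1 : 10 ^ 13 * (T0 : ℝ) * L * K0 ^ 6 * T0 * d ≤ 10 ^ 13 * x * x * x ^ 6 * x * d := by
    have hKn : (0 : ℝ) ≤ K0 := Nat.cast_nonneg _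
    have hTn : (0 : ℝ) ≤ T0 := Nat.cast_nonneg _
    have hLn : (0 : ℝ) ≤ L := Nat.cast_nonneg _
    gcongr
  have h2 : 10 ^ 13 * x * x * x ^ 6 * x * (d : ℝ) = 10 ^ 13 * x ^ 14 * (d / x ^ 5) := by
    field_simp
  have h3 : 10 ^ 13 * x ^ 14 * ((d : ℝ) / x ^ 5) ≤ d * (d / x ^ 5) :=
    mul_le_mul_of_nonneg_right hkey (by positivity)
  have h4 : (d : ℝ) * (d / x ^ 5) = (x⁻¹) ^ 2 * x⁻¹ * (d / x) ^ 2 := by
    field_simp
  have h5 : (x⁻¹) ^ 2 * x⁻¹ * ((d : ℝ) / x) ^ 2 ≤ ρ ^ 2 * ε * (d / x) ^ 2 := by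
    refine mul_le_mul_of_nonneg_right ?_ (by positivity)
    exact mul_le_mul (pow_le_pow_left₀ (by positivity) hρ 2) hε' (by positivity) (by positivity)
  linarith

/-- version A: no planned vertices -/
theorem KmO.toQ {V J : Type u} [Fintype V] {P : ℕ} {G : SimpleGraph V} {S : J → SimpleGraph V}
    {O : Finset V} {A : J → Finset V} {r : J → ℕ} {ρ : ℝ} {c : Fin P → Finset V}
    {N : Fin P → V → V} {K Km : Finset V} (h : KmO G S O A r ρ c N K Km) (cl : Fin P → J) :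
    KmQ G S cl O A r ρ c N K Km ∅ where
  K1 := h.K1
  K2 := h.K2
  KO := h.KO
  KQ := disjoint_empty_right _
  K3 := fun v hv w hw hvw => h.K3 v hv w (hw.resolve_right (notMem_empty _)) hvw
  K4 := fun b v hv hvK => by
    refine (h.K4 (cl b) v hv hvK).trans (le_of_eq ?_)
    congr 2
    refine filter_congr fun w _ => ?_
    constructor
    · rintro (h1 | h1)
      · exact Or.inl ⟨h1, notMem_empty _⟩
      · exact Or.inr h1
    · rintro (h1 | h1)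
      · exact Or.inl h1.1
      · exact Or.inr h1
  K5 := h.K5

/-- **ENGO** -/
theorem stmt_ENGO : Stmt_ENGO.{u} := by
  obtain ⟨ε₀, c₀, C₀, d₀, h1, h2, h3, h4, hq⟩ := stmt_ENGQ.{u}
  refine ⟨ε₀, c₀, C₀, max d₀ (10 ^ 26), h1, h2, h3, h4, ?_⟩
  intro V I J _ _ _ P G S cl O A nn d K0 T0 L r ρ ε R c N K Km lab θ θ' hA hK hθ hθ' hd hK1 hJ hT
    hρ1 hε hε1 hr hK' hT' hL' hρ hερ hres
  obtain ⟨F, hF, _⟩ := hq P G S cl O A nn d K0 T0 T0 L r ((d : ℝ) ^ (1 - ε₀)) ρ ε R c N K Km ∅ lab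
    θ θ' hA (hK.toQ cl) hθ hθ' ((le_max_left _ _).trans hd) hK1 hJ hT hρ1 hε hε1 hr le_rfl hK' hT'
    hL' hρ hερ (bo_small h1 h2 ((le_max_right _ _).trans hd) hε hK' hT' hL' hρ hερ) hres
  exact ⟨F, hF⟩

end Pool.Agent.Work.MP_db9399_eo
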