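import Pool.Agent.Work.MP_db9399_eo.GOOD
import Pool.Agent.Work.MP_db9399_en.EVT3

/-!
# MP_db9399, ENGN: probabilities of the basic events (helper89)
-/

set_option autoImplicit false

namespace Pool.Agent.Work.MP_db9399_eo

open Finset Classical
open Pool.Agent.Work.MP_db9399_all (nb pr DepOnI)
open Pool.Agent.Work.MP_db9399_en

universe u v w

attribute [-instance] instDecidableEqSum

section Coins

variable {V : Type u} [Fintype V] {P M : ℕ} {G S : SimpleGraph V} {r K0 T0 Bo m1 : ℕ} {ρ : ℝ}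
  {O : Finset V} {c : Fin P → Finset V} {N : Fin P → V → V} {Ac K Km Q : Finset V}
  {lab : Fin P → V → Bool} {ix : V × V → Fin P → ℕ}

/-- numbers of the coins -/
structure Nx (M r K0 T0 Bo m1 P : ℕ) (ρ δ : ℝ) : Prop where
  hM : M = 4 * (K0 * m1)
  hK : 1 ≤ K0
  hm : 3 ≤ m1
  u1 : 8 * ((T0 : ℝ) + Bo) ≤ δ * r
  u2 : 8 * (K0 : ℝ) ≤ δ * r
  u4 : 30000 * ((P : ℝ) + r) ≤ δ * M ^ 2

namespace Nx

variable {r Bo : ℕ} {δ : ℝ}

omit [Fintype V] in
theorem hm1 (h : Nx M r K0 T0 Bo m1 P ρ δ) : 1 ≤ m1 := le_trans (by norm_num) h.hm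

omit [Fintype V] in
theorem M12 (h : Nx M r K0 T0 Bo m1 P ρ δ) : 12 ≤ M := by
  have h1 : 1 * 3 ≤ K0 * m1 := Nat.mul_le_mul h.hK h.hm
  rw [h.hM]
  omega

omit [Fintype V] in
theorem M0 (h : Nx M r K0 T0 Bo m1 P ρ δ) : 0 < M := lt_of_lt_of_le (by norm_num) h.M12

omit [Fintype V] in
theorem Mr (h : Nx M r K0 T0 Bo m1 P ρ δ) : (0 : ℝ) < M := by exact_mod_cast h.M0

end Nx

theorem dbl_dep (b : Fin P) (w : V) :
    DepOnI {(Sum.inr (Sum.inl w) : Co V P), Sum.inr (Sum.inl (N b w))}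
      (fun ω : Co V P → Fin M => dbl N Km Q K0 m1 b w ω) := by
  intro a a' h
  have h3 : st w a = st w a' := by
    rw [st, st, h _ (by simp)]
  have h4 : st (N b w) a = st (N b w) a' := by
    rw [st, st, h _ (by simp)]
  simp only [dbl, h3, h4]

theorem ac_dep (b : Fin P) (w : V) (s : Bool) :
    DepOnI (sa0 N b w) (fun ω : Co V P → Fin M => ac O c N Km Q K0 m1 b w s ω) := by
  intro a a' h
  have h1 : cn N b w a = cn N b w a' := by
    rw [cn, cn, h _ (by simp [sa0])]
  have h2 : st w a = st w a' := by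
    rw [st, st, h _ (by simp [sa0])]
  have h3 : st (N b w) a = st (N b w) a' := by
    rw [st, st, h _ (by simp [sa0])]
  simp only [ac, dbl, h1, h2, h3]

/-- start of the window -/
noncomputable def wn (N : Fin P → V → V) (Km Q : Finset V) (b : Fin P) (w : V) (s : Bool) : ℕ :=
  if decide (w = rp N b w) = s then 0 else hh N Km Q b w

theorem ac_iff {b : Fin P} {w : V} {s : Bool} {ω : Co V P → Fin M} (h1 : nz O c N b w)
    (h2 : w ∉ tkO O c N b) : ac O c N Km Q K0 m1 b w s ω ↔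
      (wn N Km Q b w s ≤ cn N b w ω ∧ cn N b w ω < wn N Km Q b w s + hh N Km Q b w) ∧
        ¬ dbl N Km Q K0 m1 b w ω := by
  rw [ac, wn]
  split_ifs with h
  · constructor
    · rintro ⟨_, _, h3, h4⟩
      exact ⟨⟨by omega, by omega⟩, h3⟩
    · rintro ⟨h3, h4⟩
      exact ⟨h1, h2, h4, by omega⟩
  · constructor
    · rintro ⟨_, _, h3, h4⟩
      exact ⟨⟨by omega, by omega⟩, h3⟩
    · rintro ⟨h3, h4⟩
      exact ⟨h1, h2, h4, by omega⟩

omit [Fintype V] in
theorem hh_le (b : Fin P) (w : V) : hh N Km Q b w ≤ 6 := by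
  rw [hh]
  split_ifs <;> norm_num

theorem wn_le (b : Fin P) (w : V) (s : Bool) : wn N Km Q b w s + hh N Km Q b w ≤ 12 := by
  have := hh_le (N := N) (Km := Km) (Q := Q) b w
  rw [wn]
  split_ifs <;> omega

theorem pr_wn (hM12 : 12 ≤ M) (b : Fin P) (w : V) (s : Bool) :
    pr (fun ω : Co V P → Fin M => wn N Km Q b w s ≤ cn N b w ω ∧
      cn N b w ω < wn N Km Q b w s + hh N Km Q b w) = (hh N Km Q b w : ℝ) / M :=
  pr_win (by omega) (Sum.inl (b, rp N b w) : Co V P) _ _
    ((wn_le (N := N) (Km := Km) (Q := Q) b w s).trans hM12)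

theorem pr_cn12 (hM12 : 12 ≤ M) (b : Fin P) (w : V) :
    pr (fun ω : Co V P → Fin M => cn N b w ω < 12) = 12 / M := by
  have h := pr_win (M := M) (by omega) (Sum.inl (b, rp N b w) : Co V P) 0 12 (by omega)
  simp only [Nat.zero_le, true_and, Nat.zero_add] at h
  refine h.trans ?_
  norm_num

theorem pr_ac_aux (hM12 : 12 ≤ M) {b : Fin P} {w : V} (h1 : nz O c N b w)
    (h2 : w ∉ tkO O c N b) (s : Bool) :
    pr (fun ω : Co V P → Fin M => ac O c N Km Q K0 m1 b w s ω) = (hh N Km Q b w : ℝ) / M *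
      (1 - pr (fun ω : Co V P → Fin M => dbl N Km Q K0 m1 b w ω)) := by
  have hM0 : 0 < M := by omega
  have e : (fun ω : Co V P → Fin M => ac O c N Km Q K0 m1 b w s ω) = fun ω : Co V P → Fin M =>
      (wn N Km Q b w s ≤ cn N b w ω ∧ cn N b w ω < wn N Km Q b w s + hh N Km Q b w) ∧
        ¬ dbl N Km Q K0 m1 b w ω := by
    funext ω
    exact propext (ac_iff h1 h2)
  have hdd : DepOnI {(Sum.inr (Sum.inl w) : Co V P), Sum.inr (Sum.inl (N b w))}
      (fun ω : Co V P → Fin M => ¬ dbl N Km Q K0 m1 b w ω) := by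
    intro a a' h
    have := dbl_dep (M := M) (N := N) (Km := Km) (Q := Q) (K0 := K0) (m1 := m1) b w a a' h
    simp only [this]
  rw [e, pr_ind' hM0 (cn_dep b w fun x => wn N Km Q b w s ≤ x ∧
    x < wn N Km Q b w s + hh N Km Q b w) hdd (by simp), pr_wn hM12, pr_not hM0]

theorem pr_ac (hKQ : Disjoint Km Q) (hM : M = 4 * (K0 * m1)) (hK : 1 ≤ K0) (hm : 1 ≤ m1)
    (hM12 : 12 ≤ M) {b : Fin P} {w : V} (h1 : nz O c N b w) (h2 : w ∉ tkO O c N b) (s : Bool) :
    pr (fun ω : Co V P → Fin M => ac O c N Km Q K0 m1 b w s ω) = 3 / M := by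
  have hM0 : 0 < M := by omega
  have hne : N b w ≠ w := (not_tk h1 h2).1
  have hd : ∀ {x : V}, x ∈ Km → x ∉ Q := fun h => Finset.disjoint_left.1 hKQ h
  rw [pr_ac_aux hM12 h1 h2]
  by_cases hs : spc N Km b w
  · have hd' : (fun ω : Co V P → Fin M => dbl N Km Q K0 m1 b w ω) = fun ω : Co V P → Fin M =>
        st w ω / (K0 * m1) < 2 ∧ st (N b w) ω / (K0 * m1) < 2 := by
      funext ω
      refine propext ?_
      rw [dbl]
      constructor
      · rintro (h | h | h)
        · exact h.2.2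
        · exact absurd h.2.1 (hd hs.2)
        · exact absurd h.1 (hd hs.1)
      · exact fun h => Or.inl ⟨hs.1, hs.2, h⟩
    rw [hd', pr_ind' hM0 (st_dep w fun x => x / (K0 * m1) < 2)
      (st_dep (N b w) fun x => x / (K0 * m1) < 2) (by
        rw [disjoint_singleton]
        simp [hne.symm]), pr_st2 hM hK hm, pr_st2 hM hK hm, hh, if_pos hs]
    push_cast
    ring
  · by_cases hx : mxd N Km Q b w
    · have hp : pr (fun ω : Co V P → Fin M => dbl N Km Q K0 m1 b w ω) = 1 / 2 := by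
        rcases hx with hx | hx
        · have hd' : (fun ω : Co V P → Fin M => dbl N Km Q K0 m1 b w ω) =
              fun ω : Co V P → Fin M => st w ω / (K0 * m1) < 2 := by
            funext ω
            refine propext ?_
            rw [dbl]
            constructor
            · rintro (h | h | h)
              · exact h.2.2.1
              · exact h.2.2
              · exact absurd h.1 (hd hx.1)
            · exact fun h => Or.inr (Or.inl ⟨hx.1, hx.2, h⟩)
          rw [hd', pr_st2 hM hK hm]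
        · have hd' : (fun ω : Co V P → Fin M => dbl N Km Q K0 m1 b w ω) =
              fun ω : Co V P → Fin M => st (N b w) ω / (K0 * m1) < 2 := by
            funext ω
            refine propext ?_
            rw [dbl]
            constructor
            · rintro (h | h | h)
              · exact h.2.2.2
              · exact absurd hx.1 (hd h.1)
              · exact h.2.2
            · exact fun h => Or.inr (Or.inr ⟨hx.1, hx.2, h⟩)
          rw [hd', pr_st2 hM hK hm]
      rw [hp, hh, if_neg hs, if_pos hx]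
      push_cast
      ring
    · have hd' : (fun ω : Co V P → Fin M => dbl N Km Q K0 m1 b w ω) =
          fun _ : Co V P → Fin M => False := by
        funext ω
        refine propext ⟨?_, fun h => h.elim⟩
        rw [dbl]
        rintro (h | h | h)
        · exact hs ⟨h.1, h.2.1⟩
        · exact hx (Or.inl ⟨h.1, h.2.1⟩)
        · exact hx (Or.inr ⟨h.1, h.2.1⟩)
      rw [hd', pr_false, hh, if_neg hs, if_neg hx]
      push_cast
      ring

/-- active star vertices -/
theorem pr_acst (hKQ : Disjoint Km Q) (hM : M = 4 * (K0 * m1)) (hK : 1 ≤ K0) (hm : 1 ≤ m1)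
    (hM12 : 12 ≤ M) {b : Fin P} {w : V} (h1 : nz O c N b w) (h2 : w ∉ tkO O c N b)
    (hw : w ∈ Km) (hwQ : N b w ∉ Q) (s : Bool) :
    1 / (2 * M) ≤
      pr (fun ω : Co V P → Fin M => ac O c N Km Q K0 m1 b w s ω ∧ w ∈ MM Km K0 m1 s ω) := by
  have hM0 : 0 < M := by omega
  have hMr : (0 : ℝ) < M := by exact_mod_cast hM0
  have hne : N b w ≠ w := (not_tk h1 h2).1
  have hd0 : ∀ ω : Co V P → Fin M, dbl N Km Q K0 m1 b w ω → N b w ∈ Km ∧
      st (N b w) ω / (K0 * m1) < 2 := by
    intro ω hd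
    rcases hd with hd | hd | hd
    · exact ⟨hd.2.1, hd.2.2.2⟩
    · exact absurd hd.2.1 hwQ
    · exact absurd hd.1 (Finset.disjoint_left.1 hKQ hw)
  by_cases hs : spc N Km b w
  · have g1 : pr (fun ω : Co V P → Fin M => (wn N Km Q b w s ≤ cn N b w ω ∧
        cn N b w ω < wn N Km Q b w s + hh N Km Q b w) ∧
          ((st w ω / (K0 * m1) = if s then 0 else 1) ∧
          ¬ st (N b w) ω / (K0 * m1) < 2)) = 1 / (2 * M) := by
      have hd : DepOnI {(Sum.inr (Sum.inl w) : Co V P), Sum.inr (Sum.inl (N b w))}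
          (fun ω : Co V P → Fin M => (st w ω / (K0 * m1) = if s then 0 else 1) ∧
          ¬ st (N b w) ω / (K0 * m1) < 2) := by
        intro a a' h
        have h3 : st w a = st w a' := by
          rw [st, st, h _ (by simp)]
        have h4 : st (N b w) a = st (N b w) a' := by
          rw [st, st, h _ (by simp)]
        simp only [h3, h4]
      rw [pr_ind' hM0 (cn_dep b w fun x => wn N Km Q b w s ≤ x ∧
        x < wn N Km Q b w s + hh N Km Q b w)
        hd (by simp), pr_wn hM12,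
        pr_ind' hM0 (st_dep w fun x => x / (K0 * m1) = if s then 0 else 1)
        (st_dep (N b w) fun x => ¬ x / (K0 * m1) < 2) (by
          rw [disjoint_singleton]
          simp [hne.symm]), pr_sts hM hK hm, pr_not hM0, pr_st2 hM hK hm, hh, if_pos hs]
      field_simp
      norm_num
    rw [← g1]
    refine pr_mono fun ω hω => ?_
    obtain ⟨h3, h4, h5⟩ := hω
    exact ⟨(ac_iff h1 h2).2 ⟨h3, fun hd => h5 (hd0 ω hd).2⟩, mem_MM.2 ⟨hw, h4⟩⟩
  · have hx : ¬ mxd N Km Q b w := by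
      rintro (h | h)
      · exact hwQ h.2
      · exact Finset.disjoint_left.1 hKQ hw h.1
    have g1 : pr (fun ω : Co V P → Fin M => (wn N Km Q b w s ≤ cn N b w ω ∧
        cn N b w ω < wn N Km Q b w s + hh N Km Q b w) ∧
          (st w ω / (K0 * m1) = if s then 0 else 1)) = 3 / (4 * M) := by
      rw [pr_ind' hM0 (cn_dep b w fun x => wn N Km Q b w s ≤ x ∧
        x < wn N Km Q b w s + hh N Km Q b w)
        (st_dep w fun x => x / (K0 * m1) = if s then 0 else 1) (by simp), pr_wn hM12,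
        pr_sts hM hK hm, hh, if_neg hs, if_neg hx]
      field_simp
      norm_num
    have g2 : 1 / (2 * (M : ℝ)) ≤ 3 / (4 * M) := by
      rw [div_le_div_iff₀ (by positivity) (by positivity)]
      linarith
    refine g2.trans ?_
    rw [← g1]
    refine pr_mono fun ω hω => ?_
    exact ⟨(ac_iff h1 h2).2 ⟨hω.1, fun hd => hs ⟨hw, (hd0 ω hd).1⟩⟩, mem_MM.2 ⟨hw, hω.2⟩⟩

/-- active exits -/
theorem pr_acmx (hKQ : Disjoint Km Q) (hM : M = 4 * (K0 * m1)) (hK : 1 ≤ K0) (hm : 1 ≤ m1)
    (hM12 : 12 ≤ M) {b : Fin P} {w : V} (h1 : nz O c N b w) (h2 : w ∉ tkO O c N b)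
    (hw : (w ∈ Km ∧ N b w ∉ Q) ∨ w ∉ O) (s : Bool) :
    1 / (2 * M) ≤
      pr (fun ω : Co V P → Fin M => ac O c N Km Q K0 m1 b w s ω ∧ w ∈ MX O Km K0 m1 s ω) := by
  rcases hw with hw | hw
  · refine (pr_acst hKQ hM hK hm hM12 h1 h2 hw.1 hw.2 s).trans (pr_mono fun ω h => ⟨h.1, ?_⟩)
    exact mem_MX.2 (Or.inl h.2)
  · have hMr : (0 : ℝ) < M := by
      have : 0 < M := by omega
      exact_mod_cast this
    refine le_trans ?_ (pr_mono (E := fun ω : Co V P → Fin M => ac O c N Km Q K0 m1 b w s ω)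
      fun ω h => ⟨h, mem_MX.2 (Or.inr hw)⟩)
    rw [pr_ac hKQ hM hK hm hM12 h1 h2, div_le_div_iff₀ (by positivity) hMr]
    linarith

theorem mx_dep (w : V) (s : Bool) : DepOnI {(Sum.inr (Sum.inl w) : Co V P)}
    (fun ω : Co V P → Fin M => w ∈ MX O Km K0 m1 s ω) := by
  intro a a' h
  have h2 : st w a = st w a' := by
    rw [st, st, h _ (by simp)]
  simp only [mem_MX, mem_MM, h2]

end Coins

end Pool.Agent.Work.MP_db9399_eo
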