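import Pool.Agent.Work.MP_db9399_eo.EVT1
import Pool.Agent.Work.MP_db9399_eo.WALK

/-!
# MP_db9399, ENGN: failure probabilities of the neighbourhood events (helper89)
-/

set_option autoImplicit false

namespace Pool.Agent.Work.MP_db9399_eo

open Finset Classical
open Pool.Agent.Work.MP_db9399_all (nb pr DepOnI)
open Pool.Agent.Work.MP_db9399_en

universe u v w

attribute [-instance] instDecidableEqSum

section Ev

variable {V : Type u} [Fintype V] {P M : ℕ} {G S : SimpleGraph V} {d r K0 T0 Bo m1 L : ℕ}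
  {ρ D Dt δ : ℝ}
  {O : Finset V} {c : Fin P → Finset V} {N : Fin P → V → V} {Ac K Km Q : Finset V} {lab : Fin P → V → Bool}
  {ix : V × V → Fin P → ℕ} {b : Fin P}

/-- generic reserve neighbours -/
noncomputable def gnb (O : Finset V) (c : Fin P → Finset V) (N : Fin P → V → V) (S : SimpleGraph V) (b : Fin P) (v : V) :
    Finset V := {w ∈ nb S v | nz O c N b w ∧ w ∉ tkO O c N b}

theorem mem_gnb {b : Fin P} {v w : V} : w ∈ gnb O c N S b v ↔ S.Adj v w ∧ nz O c N b w ∧ w ∉ tkO O c N b := by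
  rw [gnb, mem_filter, mem_nb]

/-- sums over the generic neighbours -/
theorem gnb_sum (hE : E1 G S r K0 T0 Bo ρ O c N Ac K Km Q b) {g : V → ℝ} {Φ : ℝ}
    (hg : ∀ v, 0 ≤ g v ∧ g v ≤ Φ) (v : V) :
    ∑ w ∈ gnb O c N S b v, g w ≤ ∑ w ∈ nb S v, g w ∧
      ∑ w ∈ nb S v, g w ≤ ∑ w ∈ gnb O c N S b v, g w + (T0 + Bo) * Φ := by
  have hΦ : 0 ≤ Φ := (hg v).1.trans (hg v).2
  have h1 : ∑ w ∈ nb S v, g w = ∑ w ∈ gnb O c N S b v, g w +
      ∑ w ∈ nb S v with ¬ (nz O c N b w ∧ w ∉ tkO O c N b), g w := by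
    rw [gnb]
    exact (sum_filter_add_sum_filter_not _ _ _).symm
  have h2 : ∑ w ∈ nb S v with ¬ (nz O c N b w ∧ w ∉ tkO O c N b), g w ≤ (T0 + Bo) * Φ := by
    refine (sum_le_card_nsmul _ _ Φ fun w _ => (hg w).2).trans ?_
    rw [nsmul_eq_mul]
    refine mul_le_mul_of_nonneg_right ?_ hΦ
    have h3 : ((nb S v).filter fun w => ¬ (nz O c N b w ∧ w ∉ tkO O c N b)) ⊆
        ((nb S v).filter fun w => w ∈ c b ∨ w ∈ fzO O c N b) ∪
          (nb S v).filter fun w => w ∈ tkO O c N b := by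
      intro w hw
      rw [mem_filter] at hw
      rw [mem_union, mem_filter, mem_filter]
      by_cases h : w ∈ c b ∨ w ∈ fzO O c N b
      · exact Or.inl ⟨hw.1, h⟩
      · right
        refine ⟨hw.1, ?_⟩
        by_contra h'
        refine hw.2 ⟨⟨fun h1 => h (Or.inl h1), fun h1 => h (Or.inr h1)⟩, h'⟩
    have h4 := (card_le_card h3).trans (card_union_le _ _)
    have h5 := hE.ow v
    have h6 := hE.tk2 v
    have h7 : #((nb S v).filter fun w => ¬ (nz O c N b w ∧ w ∉ tkO O c N b)) ≤ T0 + Bo := by omega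
    exact_mod_cast h7
  have h3 : 0 ≤ ∑ w ∈ nb S v with ¬ (nz O c N b w ∧ w ∉ tkO O c N b), g w :=
    sum_nonneg fun w _ => (hg w).1
  constructor <;> linarith

/-- number of generic neighbours with a property -/
theorem gnb_card (hE : E1 G S r K0 T0 Bo ρ O c N Ac K Km Q b) (v : V) (F : V → Prop)
    [DecidablePred F] :
    (#{w ∈ nb S v | F w} : ℝ) ≤ #{w ∈ gnb O c N S b v | F w} + (T0 + Bo) := by
  have h := (gnb_sum hE (g := fun w => if F w then (1 : ℝ) else 0) (Φ := 1) (fun w => by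
    split_ifs <;> norm_num) v).2
  rw [sum_boole, sum_boole] at h
  linarith

theorem gnb_le (hE : E1 G S r K0 T0 Bo ρ O c N Ac K Km Q b) (v : V) :
    (#(gnb O c N S b v) : ℝ) ≤ r + K0 := by
  have h1 : #(gnb O c N S b v) ≤ #(nb S v) := card_le_card (filter_subset _ _)
  exact_mod_cast h1.trans (hE.dS2 v)

/-! ### the events -/

theorem acgn_dep (b : Fin P) (v w : V) (s : Bool) : DepOnI (sc N b v w)
    (fun ω : Co V P → Fin M => ac O c N Km Q K0 m1 b w s ω ∧ gn K0 m1 v w ω) :=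
  dep_and (depI_mono (sa0_sub b v w) (ac_dep b w s)) (depI_mono (by
    intro j hj
    rw [mem_singleton] at hj
    rw [mem_sc]
    tauto) (gn_dep v w))

theorem acpk_dep (b : Fin P) (v w : V) (s : Bool) : DepOnI (sc N b v w)
    (fun ω : Co V P → Fin M => ac O c N Km Q K0 m1 b w s ω ∧ pk ix K0 m1 b v w ω) :=
  dep_and (depI_mono (sa0_sub b v w) (ac_dep b w s)) (depI_mono (by
    intro j hj
    rw [mem_singleton] at hj
    rw [mem_sc]
    tauto) (pk_dep b v w))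

theorem mx_dep' (b : Fin P) (v w : V) (s : Bool) : DepOnI (sc N b v w)
    (fun ω : Co V P → Fin M => w ∈ MX O Km K0 m1 s ω) :=
  depI_mono (by
    intro j hj
    rw [mem_singleton] at hj
    rw [mem_sc]
    tauto) (mx_dep w s)

theorem mx_F (hKQ : Disjoint Km Q) {w : V} {s : Bool} {ω : Co V P → Fin M}
    (h : w ∈ MX O Km K0 m1 s ω) (ha : ac O c N Km Q K0 m1 b w s ω) :
    (w ∈ Km ∧ N b w ∉ Q) ∨ w ∉ O := by
  rcases mem_MX.1 h with h1 | h1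
  · left
    obtain ⟨h2, h3⟩ := mem_MM.1 h1
    refine ⟨h2, fun h4 => ha.2.2.1 (Or.inr (Or.inl ⟨h2, h4, ?_⟩))⟩
    rw [h3]
    split_ifs <;> norm_num
  · exact Or.inr h1

theorem pr_acgn (hKQ : Disjoint Km Q) (hx : Nx M r K0 T0 Bo m1 P ρ δ) {v w : V} (hw : w ∈ gnb O c N S b v)
    (s : Bool) : pr (fun ω : Co V P → Fin M => ac O c N Km Q K0 m1 b w s ω ∧ gn K0 m1 v w ω) =
      3 / (2 * M) := by
  obtain ⟨_, h1, h2⟩ := mem_gnb.1 hw
  have hMr := hx.Mr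
  rw [pr_ind' hx.M0 (ac_dep b w s) (gn_dep v w) (sa0_disj b v w),
    pr_ac hKQ hx.hM hx.hK hx.hm1 hx.M12 h1 h2, pr_gn hx.hM hx.hK hx.hm1]
  field_simp

theorem pr_acpk (hKQ : Disjoint Km Q) (hx : Nx M r K0 T0 Bo m1 P ρ δ) {v w : V} (hw : w ∈ gnb O c N S b v)
    (s : Bool) (hi : ix (ep v w) b < 2 * K0) :
    pr (fun ω : Co V P → Fin M => ac O c N Km Q K0 m1 b w s ω ∧ pk ix K0 m1 b v w ω) =
      3 / (4 * K0 * M) := by
  obtain ⟨_, h1, h2⟩ := mem_gnb.1 hw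
  have hMr := hx.Mr
  have hK : (0 : ℝ) < K0 := by exact_mod_cast hx.hK
  rw [pr_ind' hx.M0 (ac_dep b w s) (pk_dep b v w) (sa0_disj b v w),
    pr_ac hKQ hx.hM hx.hK hx.hm1 hx.M12 h1 h2, pr_pk hx.hM hx.hK hx.hm1 hi]
  field_simp

/-- the neighbourhood sums -/
theorem ev_a (hE : E1 G S r K0 T0 Bo ρ O c N Ac K Km Q b) (hn : Nm r K0 T0 L P ρ D Dt δ M)
    (hx : Nx M r K0 T0 Bo m1 P ρ δ) {g : V → ℝ} {Φ : ℝ} (hΦ : 0 < Φ) (hg : ∀ v, 0 ≤ g v ∧ g v ≤ Φ)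
    (v : V) (s : Bool) :
    pr (fun ω : Co V P → Fin M =>
      ¬ |∑ w ∈ NG O c N S Km Q K0 m1 b v s ω, g w - D * HH S r g v| ≤ δ * D * Φ) ≤
      2 * Real.exp (-(δ ^ 2 * D / 64)) := by
  have hD := hn.D0
  have hδ := hn.δ0
  have hδs := hn.δs
  have hr := hn.r0
  have hMr := hx.Mr
  have hNG : ∀ ω : Co V P → Fin M, ∑ w ∈ NG O c N S Km Q K0 m1 b v s ω, g w =
      ∑ w ∈ gnb O c N S b v with (ac O c N Km Q K0 m1 b w s ω ∧ gn K0 m1 v w ω), g w := by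
    intro ω
    refine sum_congr ?_ fun _ _ => rfl
    ext w
    rw [mem_NG, mem_filter, mem_gnb]
    constructor
    · rintro ⟨h1, h2, h3⟩
      exact ⟨⟨h1, h2.1, h2.2.1⟩, h2, h3⟩
    · rintro ⟨⟨h1, _⟩, h2, h3⟩
      exact ⟨h1, h2, h3⟩
  simp only [hNG]
  obtain ⟨g1, g2⟩ := gnb_sum hE hg v
  have hpr : ∑ w ∈ gnb O c N S b v, g w * pr (fun ω : Co V P → Fin M =>
      ac O c N Km Q K0 m1 b w s ω ∧ gn K0 m1 v w ω) = 3 / (2 * M) * ∑ w ∈ gnb O c N S b v, g w := by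
    rw [mul_sum]
    refine sum_congr rfl fun w hw => ?_
    rw [pr_acgn hE.KQ hx hw]
    ring
  have hHH : D * HH S r g v = 3 / (2 * M) * ∑ w ∈ nb S v, g w := by
    rw [HH, hn.dD]
    field_simp
  have hsum0 : 0 ≤ ∑ w ∈ nb S v, g w := sum_nonneg fun w _ => (hg w).1
  have hHle := HH_le hE hn hΦ.le (fun w => (hg w).2) v
  have h3 : (0 : ℝ) < 3 / (2 * M) := by positivity
  have h4 : 3 / (2 * (M : ℝ)) * ((T0 + Bo) * Φ) ≤ δ * D * Φ / 2 := by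
    have h5 : δ * D * Φ / 2 = 3 / (2 * (M : ℝ)) * (δ * r / 2 * Φ) := by
      rw [hn.dD]
      field_simp
    rw [h5]
    refine mul_le_mul_of_nonneg_left ?_ h3.le
    refine mul_le_mul_of_nonneg_right ?_ hΦ.le
    have h6 : 0 ≤ δ * r := by positivity
    linarith [hx.u1]
  have key := ev_two (M := M) hE.NN hx.M0 b v (gnb O c N S b v) g (a := D * HH S r g v)
    (e := δ * D * Φ / 2) (m := 2 * D * Φ) hΦ hg
    (fun w ω => ac O c N Km Q K0 m1 b w s ω ∧ gn K0 m1 v w ω) (fun w _ => acgn_dep b v w s)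
    (by positivity) (by rw [hHH]; positivity) ?_ ?_ ?_
  · have e1 : 2 * (δ * D * Φ / 2) = δ * D * Φ := by ring
    have e2 : (δ * D * Φ / 2) ^ 2 / (8 * Φ * (2 * D * Φ)) = δ ^ 2 * D / 64 := by
      field_simp
      norm_num
    rw [e1, e2] at key
    exact key
  · have : D * HH S r g v ≤ D * ((1 + δ) * Φ) := mul_le_mul_of_nonneg_left hHle hD.le
    have h6 : 0 < D * Φ := by positivity
    nlinarith
  · rw [hpr, hHH]
    have : 3 / (2 * (M : ℝ)) * ∑ w ∈ gnb O c N S b v, g w ≤ 3 / (2 * M) * ∑ w ∈ nb S v, g w :=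
      mul_le_mul_of_nonneg_left g1 h3.le
    have h6 : 0 ≤ δ * D * Φ / 2 := by positivity
    linarith
  · rw [hpr, hHH]
    have : 3 / (2 * (M : ℝ)) * ∑ w ∈ nb S v, g w ≤
        3 / (2 * M) * (∑ w ∈ gnb O c N S b v, g w + (T0 + Bo) * Φ) :=
      mul_le_mul_of_nonneg_left g2 h3.le
    linarith

/-- the token degrees -/
theorem ev_e3 (hE : E1 G S r K0 T0 Bo ρ O c N Ac K Km Q b) (hn : Nm r K0 T0 L P ρ D Dt δ M)
    (hx : Nx M r K0 T0 Bo m1 P ρ δ) {v : V} (hvA : v ∈ Ac) (s : Bool)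
    (hi : ∀ w, S.Adj v w → ix (ep v w) b < 2 * K0) :
    pr (fun ω : Co V P → Fin M =>
      ¬ |(#(NT O c N S Km Q ix K0 m1 b v s ω) : ℝ) - Dt| ≤ δ * Dt) ≤
      2 * Real.exp (-(δ ^ 2 * Dt / 64)) := by
  have hDt := hn.Dt0
  have hD := hn.D0
  have hδ := hn.δ0
  have hδs := hn.δs
  have hr := hn.r0
  have hK0 := hn.K00
  have hMr := hx.Mr
  have hNG : ∀ ω : Co V P → Fin M, (#(NT O c N S Km Q ix K0 m1 b v s ω) : ℝ) =
      ∑ w ∈ gnb O c N S b v with (ac O c N Km Q K0 m1 b w s ω ∧ pk ix K0 m1 b v w ω), (1 : ℝ) := by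
    intro ω
    rw [sum_const, nsmul_eq_mul, mul_one]
    congr 2
    ext w
    rw [mem_NT, mem_filter, mem_gnb]
    constructor
    · rintro ⟨h1, h2, h3⟩
      exact ⟨⟨h1, h2.1, h2.2.1⟩, h2, h3⟩
    · rintro ⟨⟨h1, _⟩, h2, h3⟩
      exact ⟨h1, h2, h3⟩
  simp only [hNG]
  have g1 := gnb_le hE v
  have g2 := gnb_card hE v (fun _ => True)
  rw [filter_true_of_mem (fun _ _ => trivial), filter_true_of_mem (fun _ _ => trivial)] at g2
  have g3 : (r : ℝ) ≤ #(nb S v) + K0 := by exact_mod_cast hE.dS1 v hvA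
  have hpr : ∑ w ∈ gnb O c N S b v, 1 * pr (fun ω : Co V P → Fin M =>
      ac O c N Km Q K0 m1 b w s ω ∧ pk ix K0 m1 b v w ω) = 3 / (4 * K0 * M) * #(gnb O c N S b v) := by
    rw [sum_congr rfl (g := fun _ => 3 / (4 * K0 * M : ℝ)) fun w hw => by
      rw [pr_acpk hE.KQ hx hw s (hi w (mem_gnb.1 hw).1), one_mul], sum_const, nsmul_eq_mul, mul_comm]
  have hDe : Dt = 3 / (4 * K0 * M) * r := by
    have h1 := hn.dDt
    rw [hn.dD] at h1
    field_simp at h1 ⊢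
    linarith
  have h3 : (0 : ℝ) < 3 / (4 * K0 * M) := by positivity
  have hδD : δ * Dt / 2 = 3 / (4 * K0 * M) * (δ * r / 2) := by
    rw [hDe]
    ring
  have key := ev_two (M := M) hE.NN hx.M0 b v (gnb O c N S b v) (fun _ => 1) (a := Dt)
    (e := δ * Dt / 2) (m := 2 * Dt) one_pos (fun _ => ⟨zero_le_one, le_rfl⟩)
    (fun w ω => ac O c N Km Q K0 m1 b w s ω ∧ pk ix K0 m1 b v w ω) (fun w _ => acpk_dep b v w s)
    (by positivity) hDt.le (by nlinarith) ?_ ?_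
  · have e1 : 2 * (δ * Dt / 2) = δ * Dt := by ring
    have e2 : (δ * Dt / 2) ^ 2 / (8 * 1 * (2 * Dt)) = δ ^ 2 * Dt / 64 := by
      field_simp
      norm_num
    rw [e1, e2] at key
    exact key
  · rw [hpr, hδD, hDe, ← mul_add]
    refine mul_le_mul_of_nonneg_left ?_ h3.le
    have h4 : 0 ≤ δ * r := by positivity
    linarith [hx.u2]
  · rw [hpr, hδD, hDe, ← mul_sub]
    refine mul_le_mul_of_nonneg_left ?_ h3.le
    have h4 : 0 ≤ δ * r := by positivity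
    linarith [hx.u1, hx.u2]

/-- star vertices in the neighbourhood of a generic vertex -/
theorem ev_e5 (hE : E1 G S r K0 T0 Bo ρ O c N Ac K Km Q b) (hn : Nm r K0 T0 L P ρ D Dt δ M)
    (hx : Nx M r K0 T0 Bo m1 P ρ δ) {v : V} (hvA : v ∈ Ac) (hv : v ∉ K) (s : Bool) :
    pr (fun ω : Co V P → Fin M => ¬ ρ * D / 12 ≤
      (#{w ∈ NG O c N S Km Q K0 m1 b v s ω | w ∈ MX O Km K0 m1 s ω} : ℝ)) ≤
      Real.exp (-(ρ ^ 2 * D / 9216)) := by
  have hD := hn.D0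
  have hδs := hn.δs
  have hδ := hn.δ0
  have hr := hn.r0
  have hρ := hn.ρ0
  have hρ1 := hn.ρ1
  have hMr := hx.Mr
  have hDe : D = 3 / (2 * M) * r := by
    rw [hn.dD]
    ring
  have hNG : ∀ ω : Co V P → Fin M, (#{w ∈ NG O c N S Km Q K0 m1 b v s ω | w ∈ MX O Km K0 m1 s ω} : ℝ) =
      #{w ∈ {w ∈ gnb O c N S b v | (w ∈ Km ∧ N b w ∉ Q) ∨ w ∉ O} | (ac O c N Km Q K0 m1 b w s ω ∧ w ∈ MX O Km K0 m1 s ω) ∧
        gn K0 m1 v w ω} := by
    intro ω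
    congr 2
    ext w
    rw [mem_filter, mem_NG, mem_filter, mem_filter, mem_gnb]
    constructor
    · rintro ⟨⟨h1, h2, h3⟩, h4⟩
      exact ⟨⟨⟨h1, h2.1, h2.2.1⟩, mx_F hE.KQ h4 h2⟩, ⟨h2, h4⟩, h3⟩
    · rintro ⟨⟨⟨h1, _⟩, _⟩, ⟨h2, h4⟩, h3⟩
      exact ⟨⟨h1, h2, h3⟩, h4⟩
  simp only [hNG]
  have hdep : ∀ w ∈ ({w ∈ gnb O c N S b v | (w ∈ Km ∧ N b w ∉ Q) ∨ w ∉ O} : Finset V), DepOnI (sc N b v w)
      (fun ω : Co V P → Fin M => (ac O c N Km Q K0 m1 b w s ω ∧ w ∈ MX O Km K0 m1 s ω) ∧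
        gn K0 m1 v w ω) := by
    intro w _
    refine dep_and (dep_and (depI_mono (sa0_sub b v w) (ac_dep b w s)) (mx_dep' b v w s))
      (depI_mono (by
        intro j hj
        rw [mem_singleton] at hj
        rw [mem_sc]
        tauto) (gn_dep v w))
  have hp : ∀ w ∈ ({w ∈ gnb O c N S b v | (w ∈ Km ∧ N b w ∉ Q) ∨ w ∉ O} : Finset V), 1 / (4 * (M : ℝ)) ≤
      pr (fun ω : Co V P → Fin M => (ac O c N Km Q K0 m1 b w s ω ∧ w ∈ MX O Km K0 m1 s ω) ∧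
        gn K0 m1 v w ω) ∧ pr (fun ω : Co V P → Fin M =>
          (ac O c N Km Q K0 m1 b w s ω ∧ w ∈ MX O Km K0 m1 s ω) ∧ gn K0 m1 v w ω) ≤ 3 / (2 * M) := by
    intro w hw
    rw [mem_filter] at hw
    obtain ⟨_, h1, h2⟩ := mem_gnb.1 hw.1
    constructor
    · rw [pr_ind' hx.M0 (dep_and (ac_dep b w s) (depI_mono (by
        intro j hj
        rw [mem_singleton] at hj
        simp only [sa0, mem_insert, mem_singleton]
        tauto) (mx_dep w s))) (gn_dep v w) (sa0_disj b v w), pr_gn hx.hM hx.hK hx.hm1]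
      have h3 := pr_acmx (M := M) hE.KQ hx.hM hx.hK hx.hm1 hx.M12 h1 h2 hw.2 s
      have h4 : 1 / (4 * (M : ℝ)) = 1 / (2 * M) * (1 / 2) := by
        field_simp
        norm_num
      rw [h4]
      exact mul_le_mul_of_nonneg_right h3 (by norm_num)
    · rw [← pr_acgn hE.KQ hx hw.1 s]
      exact pr_mono fun ω h => ⟨h.1.1, h.2⟩
  have hcK : ρ * r - (T0 + Bo) ≤ (#{w ∈ gnb O c N S b v | (w ∈ Km ∧ N b w ∉ Q) ∨ w ∉ O} : ℝ) := by
    have h1 := gnb_card hE v (fun w => (w ∈ Km ∧ N b w ∉ Q) ∨ w ∉ O)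
    have h2 := hE.K4 v hvA hv
    linarith
  have hcU : (#{w ∈ gnb O c N S b v | (w ∈ Km ∧ N b w ∉ Q) ∨ w ∉ O} : ℝ) ≤ r + K0 := by
    have h1 : #{w ∈ gnb O c N S b v | (w ∈ Km ∧ N b w ∉ Q) ∨ w ∉ O} ≤ #(gnb O c N S b v) := card_le_card (filter_subset _ _)
    have h2 := gnb_le hE v
    have h3 : (#{w ∈ gnb O c N S b v | (w ∈ Km ∧ N b w ∉ Q) ∨ w ∉ O} : ℝ) ≤ #(gnb O c N S b v) := by exact_mod_cast h1
    linarith
  have key := ev_low (M := M) hE.NN hx.M0 b v {w ∈ gnb O c N S b v | (w ∈ Km ∧ N b w ∉ Q) ∨ w ∉ O} (m := 2 * D)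
    (m0 := ρ * D / 8) (s := ρ * D / 24)
    (fun w ω => (ac O c N Km Q K0 m1 b w s ω ∧ w ∈ MX O Km K0 m1 s ω) ∧ gn K0 m1 v w ω) hdep
    (by positivity) ?_ ?_ (by positivity) (by nlinarith)
  · have e1 : ρ * D / 8 - ρ * D / 24 = ρ * D / 12 := by ring
    have e2 : (ρ * D / 24) ^ 2 / (8 * (2 * D)) = ρ ^ 2 * D / 9216 := by
      field_simp
      norm_num
    rw [e1, e2] at key
    exact key
  · refine (sum_le_card_nsmul _ _ (3 / (2 * (M : ℝ))) fun w hw => (hp w hw).2).trans ?_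
    rw [nsmul_eq_mul, hDe]
    have h1 : 2 * (3 / (2 * (M : ℝ)) * r) = (2 * r) * (3 / (2 * M)) := by ring
    rw [h1]
    refine mul_le_mul_of_nonneg_right ?_ (by positivity)
    have h2 := hx.u2
    nlinarith
  · refine le_trans ?_ (card_nsmul_le_sum _ _ (1 / (4 * (M : ℝ))) fun w hw => (hp w hw).1)
    rw [nsmul_eq_mul, hDe]
    have h1 : ρ * (3 / (2 * (M : ℝ)) * r) / 8 = (3 / 4 * (ρ * r)) * (1 / (4 * M)) := by
      field_simp
      ring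
    rw [h1]
    refine mul_le_mul_of_nonneg_right ?_ (by positivity)
    have h2 := hx.u1
    have h4 : δ * r ≤ ρ * r := by
      refine mul_le_mul_of_nonneg_right ?_ hr.le
      have h5 := hn.δρ
      have h6 : δ ≤ 100000 * K0 ^ 2 * δ := by
        have h7 : (1 : ℝ) ≤ (K0 : ℝ) ^ 2 := one_le_pow₀ hn.k0
        nlinarith
      linarith
    linarith

/-- star vertices in the neighbourhood of a token -/
theorem ev_e5t (hE : E1 G S r K0 T0 Bo ρ O c N Ac K Km Q b) (hn : Nm r K0 T0 L P ρ D Dt δ M)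
    (hx : Nx M r K0 T0 Bo m1 P ρ δ) {v : V} (hvA : v ∈ Ac) (hv : v ∉ K) (s : Bool)
    (hi : ∀ w, S.Adj v w → ix (ep v w) b < 2 * K0) :
    pr (fun ω : Co V P → Fin M => ¬ ρ * Dt / 12 ≤
      (#{w ∈ NT O c N S Km Q ix K0 m1 b v s ω | w ∈ MX O Km K0 m1 s ω} : ℝ)) ≤
      Real.exp (-(ρ ^ 2 * Dt / 9216)) := by
  have hDt := hn.Dt0
  have hδs := hn.δs
  have hδ := hn.δ0
  have hr := hn.r0
  have hρ := hn.ρ0
  have hρ1 := hn.ρ1
  have hMr := hx.Mr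
  have hK0 := hn.K00
  have hDe : Dt = 3 / (4 * K0 * M) * r := by
    have h1 := hn.dDt
    rw [hn.dD] at h1
    field_simp at h1 ⊢
    linarith
  have hNG : ∀ ω : Co V P → Fin M,
      (#{w ∈ NT O c N S Km Q ix K0 m1 b v s ω | w ∈ MX O Km K0 m1 s ω} : ℝ) =
      #{w ∈ {w ∈ gnb O c N S b v | (w ∈ Km ∧ N b w ∉ Q) ∨ w ∉ O} | (ac O c N Km Q K0 m1 b w s ω ∧ w ∈ MX O Km K0 m1 s ω) ∧
        pk ix K0 m1 b v w ω} := by
    intro ω
    congr 2
    ext w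
    rw [mem_filter, mem_NT, mem_filter, mem_filter, mem_gnb]
    constructor
    · rintro ⟨⟨h1, h2, h3⟩, h4⟩
      exact ⟨⟨⟨h1, h2.1, h2.2.1⟩, mx_F hE.KQ h4 h2⟩, ⟨h2, h4⟩, h3⟩
    · rintro ⟨⟨⟨h1, _⟩, _⟩, ⟨h2, h4⟩, h3⟩
      exact ⟨⟨h1, h2, h3⟩, h4⟩
  simp only [hNG]
  have hdep : ∀ w ∈ ({w ∈ gnb O c N S b v | (w ∈ Km ∧ N b w ∉ Q) ∨ w ∉ O} : Finset V), DepOnI (sc N b v w)
      (fun ω : Co V P → Fin M => (ac O c N Km Q K0 m1 b w s ω ∧ w ∈ MX O Km K0 m1 s ω) ∧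
        pk ix K0 m1 b v w ω) := by
    intro w _
    refine dep_and (dep_and (depI_mono (sa0_sub b v w) (ac_dep b w s)) (mx_dep' b v w s))
      (depI_mono (by
        intro j hj
        rw [mem_singleton] at hj
        rw [mem_sc]
        tauto) (pk_dep b v w))
  have hp : ∀ w ∈ ({w ∈ gnb O c N S b v | (w ∈ Km ∧ N b w ∉ Q) ∨ w ∉ O} : Finset V), 1 / (8 * K0 * (M : ℝ)) ≤
      pr (fun ω : Co V P → Fin M => (ac O c N Km Q K0 m1 b w s ω ∧ w ∈ MX O Km K0 m1 s ω) ∧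
        pk ix K0 m1 b v w ω) ∧ pr (fun ω : Co V P → Fin M =>
          (ac O c N Km Q K0 m1 b w s ω ∧ w ∈ MX O Km K0 m1 s ω) ∧ pk ix K0 m1 b v w ω) ≤
            3 / (4 * K0 * M) := by
    intro w hw
    rw [mem_filter] at hw
    obtain ⟨h0, h1, h2⟩ := mem_gnb.1 hw.1
    constructor
    · rw [pr_ind' hx.M0 (dep_and (ac_dep b w s) (depI_mono (by
        intro j hj
        rw [mem_singleton] at hj
        simp only [sa0, mem_insert, mem_singleton]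
        tauto) (mx_dep w s))) (pk_dep b v w) (sa0_disj b v w), pr_pk hx.hM hx.hK hx.hm1 (hi w h0)]
      have h3 := pr_acmx (M := M) hE.KQ hx.hM hx.hK hx.hm1 hx.M12 h1 h2 hw.2 s
      have h4 : 1 / (8 * K0 * (M : ℝ)) = 1 / (2 * M) * (1 / (4 * K0)) := by
        field_simp
        norm_num
      rw [h4]
      exact mul_le_mul_of_nonneg_right h3 (by positivity)
    · rw [← pr_acpk hE.KQ hx hw.1 s (hi w h0)]
      exact pr_mono fun ω h => ⟨h.1.1, h.2⟩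
  have hcK : ρ * r - (T0 + Bo) ≤ (#{w ∈ gnb O c N S b v | (w ∈ Km ∧ N b w ∉ Q) ∨ w ∉ O} : ℝ) := by
    have h1 := gnb_card hE v (fun w => (w ∈ Km ∧ N b w ∉ Q) ∨ w ∉ O)
    have h2 := hE.K4 v hvA hv
    linarith
  have hcU : (#{w ∈ gnb O c N S b v | (w ∈ Km ∧ N b w ∉ Q) ∨ w ∉ O} : ℝ) ≤ r + K0 := by
    have h1 : #{w ∈ gnb O c N S b v | (w ∈ Km ∧ N b w ∉ Q) ∨ w ∉ O} ≤ #(gnb O c N S b v) := card_le_card (filter_subset _ _)
    have h2 := gnb_le hE v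
    have h3 : (#{w ∈ gnb O c N S b v | (w ∈ Km ∧ N b w ∉ Q) ∨ w ∉ O} : ℝ) ≤ #(gnb O c N S b v) := by exact_mod_cast h1
    linarith
  have key := ev_low (M := M) hE.NN hx.M0 b v {w ∈ gnb O c N S b v | (w ∈ Km ∧ N b w ∉ Q) ∨ w ∉ O} (m := 2 * Dt)
    (m0 := ρ * Dt / 8) (s := ρ * Dt / 24)
    (fun w ω => (ac O c N Km Q K0 m1 b w s ω ∧ w ∈ MX O Km K0 m1 s ω) ∧ pk ix K0 m1 b v w ω) hdep
    (by positivity) ?_ ?_ (by positivity) (by nlinarith)
  · have e1 : ρ * Dt / 8 - ρ * Dt / 24 = ρ * Dt / 12 := by ring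
    have e2 : (ρ * Dt / 24) ^ 2 / (8 * (2 * Dt)) = ρ ^ 2 * Dt / 9216 := by
      field_simp
      norm_num
    rw [e1, e2] at key
    exact key
  · refine (sum_le_card_nsmul _ _ (3 / (4 * K0 * (M : ℝ))) fun w hw => (hp w hw).2).trans ?_
    rw [nsmul_eq_mul, hDe]
    have h1 : 2 * (3 / (4 * K0 * (M : ℝ)) * r) = (2 * r) * (3 / (4 * K0 * M)) := by ring
    rw [h1]
    refine mul_le_mul_of_nonneg_right ?_ (by positivity)
    have h2 := hx.u2
    nlinarith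
  · refine le_trans ?_ (card_nsmul_le_sum _ _ (1 / (8 * K0 * (M : ℝ))) fun w hw => (hp w hw).1)
    rw [nsmul_eq_mul, hDe]
    have h1 : ρ * (3 / (4 * K0 * (M : ℝ)) * r) / 8 = (3 / 4 * (ρ * r)) * (1 / (8 * K0 * M)) := by
      field_simp
    rw [h1]
    refine mul_le_mul_of_nonneg_right ?_ (by positivity)
    have h2 := hx.u1
    have h4 : δ * r ≤ ρ * r := by
      refine mul_le_mul_of_nonneg_right ?_ hr.le
      have h5 := hn.δρ
      have h6 : δ ≤ 100000 * K0 ^ 2 * δ := by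
        have h7 : (1 : ℝ) ≤ (K0 : ℝ) ^ 2 := one_le_pow₀ hn.k0
        nlinarith
      linarith
    linarith

/-- neighbours of a token outside `K` -/
theorem ev_e6 (hE : E1 G S r K0 T0 Bo ρ O c N Ac K Km Q b) (hn : Nm r K0 T0 L P ρ D Dt δ M)
    (hx : Nx M r K0 T0 Bo m1 P ρ δ) {v : V} (hvA : v ∈ Ac) (s : Bool)
    (hi : ∀ w, S.Adj v w → ix (ep v w) b < 2 * K0) :
    pr (fun ω : Co V P → Fin M => ¬ Dt / 8 ≤
      (#{w ∈ NT O c N S Km Q ix K0 m1 b v s ω | w ∉ K} : ℝ)) ≤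
      Real.exp (-(Dt / 4096)) := by
  have hDt := hn.Dt0
  have hδs := hn.δs
  have hδ := hn.δ0
  have hr := hn.r0
  have hMr := hx.Mr
  have hK0 := hn.K00
  have hDe : Dt = 3 / (4 * K0 * M) * r := by
    have h1 := hn.dDt
    rw [hn.dD] at h1
    field_simp at h1 ⊢
    linarith
  have hNG : ∀ ω : Co V P → Fin M,
      (#{w ∈ NT O c N S Km Q ix K0 m1 b v s ω | w ∉ K} : ℝ) =
      #{w ∈ {w ∈ gnb O c N S b v | w ∉ K} | ac O c N Km Q K0 m1 b w s ω ∧ pk ix K0 m1 b v w ω} := by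
    intro ω
    congr 2
    ext w
    rw [mem_filter, mem_NT, mem_filter, mem_filter, mem_gnb]
    constructor
    · rintro ⟨⟨h1, h2, h3⟩, h4⟩
      exact ⟨⟨⟨h1, h2.1, h2.2.1⟩, h4⟩, h2, h3⟩
    · rintro ⟨⟨⟨h1, _⟩, h4⟩, h2, h3⟩
      exact ⟨⟨h1, h2, h3⟩, h4⟩
  simp only [hNG]
  have hsum : ∑ w ∈ ({w ∈ gnb O c N S b v | w ∉ K} : Finset V), pr (fun ω : Co V P → Fin M =>
      ac O c N Km Q K0 m1 b w s ω ∧ pk ix K0 m1 b v w ω) =
      #{w ∈ gnb O c N S b v | w ∉ K} * (3 / (4 * K0 * M)) := by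
    rw [sum_congr rfl (g := fun _ => 3 / (4 * K0 * M : ℝ)) fun w hw => by
      rw [pr_acpk hE.KQ hx (mem_filter.1 hw).1 s (hi w (mem_gnb.1 (mem_filter.1 hw).1).1)], sum_const,
      nsmul_eq_mul]
  have hcK : (r : ℝ) / 4 - (T0 + Bo) ≤ (#{w ∈ gnb O c N S b v | w ∉ K} : ℝ) := by
    have h1 := gnb_card hE v (fun w => w ∉ K)
    have h2 := hE.K5 v hvA
    linarith
  have hcU : (#{w ∈ gnb O c N S b v | w ∉ K} : ℝ) ≤ r + K0 := by
    have h1 : #{w ∈ gnb O c N S b v | w ∉ K} ≤ #(gnb O c N S b v) := card_le_card (filter_subset _ _)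
    have h2 := gnb_le hE v
    have h3 : (#{w ∈ gnb O c N S b v | w ∉ K} : ℝ) ≤ #(gnb O c N S b v) := by exact_mod_cast h1
    linarith
  have h3 : (0 : ℝ) < 3 / (4 * K0 * M) := by positivity
  have key := ev_low (M := M) hE.NN hx.M0 b v {w ∈ gnb O c N S b v | w ∉ K} (m := 2 * Dt)
    (m0 := 3 * Dt / 16) (s := Dt / 16)
    (fun w ω => ac O c N Km Q K0 m1 b w s ω ∧ pk ix K0 m1 b v w ω) (fun w _ => acpk_dep b v w s)
    (by positivity) ?_ ?_ (by positivity) (by linarith)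
  · have e1 : 3 * Dt / 16 - Dt / 16 = Dt / 8 := by ring
    have e2 : (Dt / 16) ^ 2 / (8 * (2 * Dt)) = Dt / 4096 := by
      field_simp
      norm_num
    rw [e1, e2] at key
    exact key
  · rw [hsum]
    have h1 : 2 * Dt = (2 * r) * (3 / (4 * K0 * M)) := by
      rw [hDe]
      ring
    rw [h1]
    refine mul_le_mul_of_nonneg_right ?_ h3.le
    have h2 := hx.u2
    nlinarith
  · rw [hsum]
    have h1 : 3 * Dt / 16 = (3 * r / 16) * (3 / (4 * K0 * M)) := by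
      rw [hDe]
      ring
    rw [h1]
    refine mul_le_mul_of_nonneg_right ?_ h3.le
    have h2 := hx.u1
    nlinarith

end Ev

end Pool.Agent.Work.MP_db9399_eo
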