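import Pool.Agent.Work.MP_db9399_eo.EVT2
import Pool.Agent.Work.MP_db9399_eo.CERT

/-!
# MP_db9399, ENGN: failure probabilities of the remaining events (helper89)
-/

set_option autoImplicit false

namespace Pool.Agent.Work.MP_db9399_eo

open Finset Classical
open Pool.Agent.Work.MP_db9399_all (nb pr DepOnI)
open Pool.Agent.Work.MP_db9399_en

universe u v w

attribute [-instance] instDecidableEqSum

section Ev

variable {V : Type u} [Fintype V] {P M : ℕ} {G S : SimpleGraph V} {d r K0 T0 Bo m1 L : ℕ}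
  {ρ D Dt δ : ℝ}
  {O : Finset V} {c : Fin P → Finset V} {N : Fin P → V → V} {Ac K Km Q : Finset V} {lab : Fin P → V → Bool}
  {ix : V × V → Fin P → ℕ} {θ θ' : ℕ → ℝ} {b : Fin P}

/-! ### two steps to the tokens -/

/-- coins of the edges from `w` to tokens -/
noncomputable def stk (O : Finset V) (c : Fin P → Finset V) (N : Fin P → V → V) (S : SimpleGraph V) (b : Fin P) (w : V) :
    Finset (Co V P) :=
  ((nb S w).filter fun z => z ∈ tkO O c N b).image fun z => Sum.inr (Sum.inr (ep w z))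

theorem mem_stk {b : Fin P} {w : V} {j : Co V P} : j ∈ stk O c N S b w ↔
    ∃ z, S.Adj w z ∧ z ∈ tkO O c N b ∧ j = Sum.inr (Sum.inr (ep w z)) := by
  rw [stk, mem_image]
  constructor
  · rintro ⟨z, hz, rfl⟩
    rw [mem_filter, mem_nb] at hz
    exact ⟨z, hz.1, hz.2, rfl⟩
  · rintro ⟨z, h1, h2, rfl⟩
    exact ⟨z, by rw [mem_filter, mem_nb]; exact ⟨h1, h2⟩, rfl⟩

theorem sc_stk_disj {b : Fin P} {v w w' : V} (hv : v ∉ tkO O c N b) (hw : w ∉ tkO O c N b) :
    Disjoint (sc N b v w) (stk O c N S b w') := by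
  rw [Finset.disjoint_left]
  intro j hj hj'
  obtain ⟨z, _, hz, rfl⟩ := mem_stk.1 hj'
  rw [mem_sc] at hj
  rcases hj with h | h | h | h
  · cases h
  · rw [Sum.inr.injEq] at h
    cases h
  · rw [Sum.inr.injEq] at h
    cases h
  · rw [Sum.inr.injEq, Sum.inr.injEq] at h
    rcases ep_eq h with ⟨_, h2⟩ | ⟨_, h2⟩
    · exact hw (h2 ▸ hz)
    · exact hv (h2 ▸ hz)

theorem stk_disj {b : Fin P} {w w' : V} (hw : w ∉ tkO O c N b) (h : w ≠ w') :
    Disjoint (stk O c N S b w) (stk O c N S b w') := by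
  rw [Finset.disjoint_left]
  intro j hj hj'
  obtain ⟨z, _, hz, rfl⟩ := mem_stk.1 hj
  obtain ⟨z', _, hz', he⟩ := mem_stk.1 hj'
  rw [Sum.inr.injEq, Sum.inr.injEq] at he
  rcases ep_eq he with ⟨h2, _⟩ | ⟨h2, _⟩
  · exact h h2
  · exact hw (h2 ▸ hz')

theorem tn_dep (b : Fin P) (s : Bool) (w : V) : DepOnI (stk O c N S b w)
    (fun ω : Co V P → Fin M => tn O c N S lab ix K0 m1 b s w ω) := by
  intro a a' h
  have : ∀ z ∈ nb S w, z ∈ tksO O c N lab b s → (pk ix K0 m1 b w z a ↔ pk ix K0 m1 b w z a') := by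
    intro z hz hz'
    have h1 := h (Sum.inr (Sum.inr (ep w z))) (mem_stk.2 ⟨z, mem_nb.1 hz, (mem_tks.1 hz').1, rfl⟩)
    simp only [pk, eg, h1]
  simp only [tn]
  congr 2
  ext z
  rw [mem_filter, mem_filter]
  constructor
  · rintro ⟨h1, h2, h3⟩
    exact ⟨h1, h2, (this z h1 h2).1 h3⟩
  · rintro ⟨h1, h2, h3⟩
    exact ⟨h1, h2, (this z h1 h2).2 h3⟩

theorem ex_tn (hx : Nx M r K0 T0 Bo m1 P ρ δ) (b : Fin P) (s : Bool) (w : V)
    (hi : ∀ z, S.Adj w z → z ∈ tkO O c N b → ix (ep w z) b < 2 * K0) :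
    ex (fun ω : Co V P → Fin M => tn O c N S lab ix K0 m1 b s w ω) =
      #{z ∈ nb S w | z ∈ tksO O c N lab b s} * (1 / (4 * K0)) := by
  have h1 : (fun ω : Co V P → Fin M => tn O c N S lab ix K0 m1 b s w ω) = fun ω =>
      ∑ z ∈ (nb S w).filter (fun z => z ∈ tksO O c N lab b s),
        ind (fun ω : Co V P → Fin M => pk ix K0 m1 b w z ω) ω := by
    funext ω
    rw [tn, ← filter_filter, card_filter]
    push_cast
    refine sum_congr rfl fun z _ => ?_
    rw [ind]
  rw [h1, ex_sum, sum_congr rfl (g := fun _ => 1 / (4 * K0 : ℝ)) fun z hz => by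
    rw [← pr_ex]
    rw [mem_filter, mem_nb] at hz
    exact pr_pk hx.hM hx.hK hx.hm1 (hi z hz.1 (mem_tks.1 hz.2).1), sum_const, nsmul_eq_mul]

/-- the tokens at distance two -/
theorem ev_e4 (hE : E1 G S r K0 T0 Bo ρ O c N Ac K Km Q b) (hn : Nm r K0 T0 L P ρ D Dt δ M)
    (hx : Nx M r K0 T0 Bo m1 P ρ δ) (v : V) (hv : v ∉ tkO O c N b) (s : Bool)
    (hi : ∀ w z, S.Adj w z → z ∈ tkO O c N b → ix (ep w z) b < 2 * K0) :
    pr (fun ω : Co V P → Fin M =>
      ¬ |∑ w ∈ NG O c N S Km Q K0 m1 b v (!s) ω, tn O c N S lab ix K0 m1 b s w ω -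
      D * Dt * (M / 3 * wlk S r (tksO O c N lab b s) 2 v)| ≤ δ * D * T0) ≤
      2 * Real.exp (-(δ ^ 2 * D / 64)) := by
  have hDt := hn.Dt0
  have hD := hn.D0
  have hDt2 := hn.Dt2
  have hδ := hn.δ0
  have hδs := hn.δs
  have hr := hn.r0
  have hT := hn.t0
  have hK0 := hn.K00
  have hMr := hx.Mr
  -- the weights
  obtain ⟨τ, hτ⟩ : ∃ τ : V → ℝ, τ = fun w => (#{z ∈ nb S w | z ∈ tksO O c N lab b s} : ℝ) := ⟨_, rfl⟩
  have hτ1 : ∀ w, 0 ≤ τ w ∧ τ w ≤ T0 := by
    intro w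
    rw [hτ]
    refine ⟨Nat.cast_nonneg _, le_trans (Nat.cast_le.2 (card_le_card ?_))
      (Nat.cast_le.2 (hE.tk2 w))⟩
    intro z hz
    rw [mem_filter] at hz ⊢
    exact ⟨hz.1, (mem_tks.1 hz.2).1⟩
  have hDe : Dt = 3 / (4 * K0 * M) * r := by
    have h1 := hn.dDt
    rw [hn.dD] at h1
    field_simp at h1 ⊢
    linarith
  have hwlk : D * Dt * (M / 3 * wlk S r (tksO O c N lab b s) 2 v) =
      3 / (8 * K0 * M) * ∑ w ∈ nb S v, τ w := by
    have h1 : wlk S r (tksO O c N lab b s) 2 v = (∑ w ∈ nb S v, τ w) / r ^ 2 := by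
      rw [wlk_succ, HH]
      have : ∀ w, wlk S r (tksO O c N lab b s) 1 w = τ w / r := by
        intro w
        rw [wlk_succ, HH, hτ]
        simp only [wlk_zero]
        rw [sum_boole]
      simp only [this]
      rw [← sum_div, div_div, sq]
    rw [h1, hDe, hn.dD]
    field_simp
    ring
  obtain ⟨g1, g2⟩ := gnb_sum hE hτ1 v
  have hsum : ∀ ω : Co V P → Fin M, ∑ w ∈ NG O c N S Km Q K0 m1 b v (!s) ω,
      tn O c N S lab ix K0 m1 b s w ω = ∑ w ∈ gnb O c N S b v,
        ind (fun ω : Co V P → Fin M => ac O c N Km Q K0 m1 b w (!s) ω ∧ gn K0 m1 v w ω) ω *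
          tn O c N S lab ix K0 m1 b s w ω := by
    intro ω
    have h1 : NG O c N S Km Q K0 m1 b v (!s) ω = (gnb O c N S b v).filter
        fun w => ac O c N Km Q K0 m1 b w (!s) ω ∧ gn K0 m1 v w ω := by
      ext w
      rw [mem_NG, mem_filter, mem_gnb]
      constructor
      · rintro ⟨h1, h2, h3⟩
        exact ⟨⟨h1, h2.1, h2.2.1⟩, h2, h3⟩
      · rintro ⟨⟨h1, _⟩, h2, h3⟩
        exact ⟨h1, h2, h3⟩
    rw [h1, sum_filter]
    refine sum_congr rfl fun w _ => ?_
    rw [ind]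
    by_cases h : ac O c N Km Q K0 m1 b w (!s) ω ∧ gn K0 m1 v w ω
    · rw [if_pos h, if_pos h, one_mul]
    · rw [if_neg h, if_neg h, zero_mul]
  simp only [hsum]
  have hex : ∑ w ∈ gnb O c N S b v, ex (fun ω : Co V P → Fin M =>
      ind (fun ω : Co V P → Fin M => ac O c N Km Q K0 m1 b w (!s) ω ∧ gn K0 m1 v w ω) ω *
          tn O c N S lab ix K0 m1 b s w ω) = 3 / (8 * K0 * M) * ∑ w ∈ gnb O c N S b v, τ w := by
    rw [mul_sum]
    refine sum_congr rfl fun w hw => ?_
    rw [ex_ind' hx.M0 (ind_dep (acgn_dep b v w (!s))) (tn_dep b s w)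
      (sc_stk_disj hv (mem_gnb.1 hw).2.2), ← pr_ex, pr_acgn hE.KQ hx hw, ex_tn hx b s w
      (fun z => hi w z), hτ]
    field_simp
    ring
  have h3 : (0 : ℝ) < 3 / (8 * K0 * M) := by positivity
  have hsum0 : 0 ≤ ∑ w ∈ nb S v, τ w := sum_nonneg fun w _ => (hτ1 w).1
  have hsumU : ∑ w ∈ nb S v, τ w ≤ (r + K0) * T0 := by
    refine (sum_le_card_nsmul _ _ (T0 : ℝ) fun w _ => (hτ1 w).2).trans ?_
    rw [nsmul_eq_mul]
    refine mul_le_mul_of_nonneg_right ?_ (Nat.cast_nonneg _)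
    exact_mod_cast hE.dS2 v
  have hDt3 : 3 / (8 * K0 * M) * (r : ℝ) = Dt / 2 := by
    rw [hDe]
    ring
  rw [hwlk]
  have key := conc hx.M0 (gnb O c N S b v) (rp N b) (rp_fib hE.NN b _)
    (fun w => sc N b v w ∪ stk O c N S b w) (fun w hw w' hw' hne => ?_)
    (fun w ω => ind (fun ω : Co V P → Fin M => ac O c N Km Q K0 m1 b w (!s) ω ∧ gn K0 m1 v w ω) ω *
          tn O c N S lab ix K0 m1 b s w ω) (B := T0) (a := 3 / (8 * K0 * M) * ∑ w ∈ nb S v, τ w)
    (e := δ * D * T0 / 2) (m := 2 * D * T0) (by positivity) (fun w _ => ?_) (fun w _ ω => ?_)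
    (fun w _ ω => ?_) (by positivity) (by positivity) ?_ ?_ ?_
  · have e1 : 2 * (δ * D * T0 / 2) = δ * D * T0 := by ring
    have e2 : (δ * D * T0 / 2) ^ 2 / (8 * T0 * (2 * D * T0)) = δ ^ 2 * D / 64 := by
      field_simp
      norm_num
    rw [e1, e2] at key
    exact key
  · have hwW := (mem_gnb.1 hw).2.2
    have hwW' := (mem_gnb.1 hw').2.2
    have hne' : w ≠ w' := fun e => hne (by rw [e])
    rw [disjoint_union_left, disjoint_union_right, disjoint_union_right]
    exact ⟨⟨sc_disj hE.NN hne, sc_stk_disj hv hwW⟩, (sc_stk_disj hv hwW').symm,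
      stk_disj hwW hne'⟩
  · intro a a' h
    have h1 := ind_dep (acgn_dep (M := M) (O := O) (c := c) (N := N) (Km := Km) (Q := Q) (K0 := K0) (m1 := m1) b v w
      (!s)) a a' fun j hj => h j (mem_union_left _ hj)
    have h2 := tn_dep (M := M) (O := O) (c := c) (N := N) (S := S) (lab := lab) (ix := ix) (K0 := K0)
      (m1 := m1) b s w a a' fun j hj => h j (mem_union_right _ hj)
    simp only [h1, h2]
  · exact mul_nonneg (ind_nonneg _ _) (tn_bd hE s w).1
  · have h4 := ind_le_one (fun ω : Co V P → Fin M => ac O c N Km Q K0 m1 b w (!s) ω ∧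
      gn K0 m1 v w ω) ω
    have h5 := ind_nonneg (fun ω : Co V P → Fin M => ac O c N Km Q K0 m1 b w (!s) ω ∧
      gn K0 m1 v w ω) ω
    have h6 := tn_bd (lab := lab) (ix := ix) (m1 := m1) (b := b) (ω := ω) hE s w
    nlinarith [h6.1, h6.2]
  · have h4 : 3 / (8 * K0 * M) * ∑ w ∈ nb S v, τ w ≤ 3 / (8 * K0 * M) * ((r + K0) * T0) :=
      mul_le_mul_of_nonneg_left hsumU h3.le
    have h5 : 3 / (8 * K0 * M) * (((r : ℝ) + K0) * T0) ≤ Dt * T0 := by
      have h6 : (r : ℝ) + K0 ≤ 2 * r := by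
        have := hx.u2
        nlinarith
      have h7 : Dt * T0 = 3 / (8 * K0 * M) * (2 * r * T0) := by
        rw [hDe]
        ring
      rw [h7]
      refine mul_le_mul_of_nonneg_left ?_ h3.le
      exact mul_le_mul_of_nonneg_right h6 (by positivity)
    have h6 : Dt * T0 ≤ D * T0 := mul_le_mul_of_nonneg_right (by linarith) (by positivity)
    have h7 : 0 < D * T0 := by positivity
    nlinarith
  · rw [hex]
    have h4 : 3 / (8 * K0 * M) * ∑ w ∈ gnb O c N S b v, τ w ≤ 3 / (8 * K0 * M) * ∑ w ∈ nb S v, τ w :=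
      mul_le_mul_of_nonneg_left g1 h3.le
    have h5 : 0 ≤ δ * D * T0 / 2 := by positivity
    linarith
  · rw [hex]
    have h4 : 3 / (8 * K0 * M) * ∑ w ∈ nb S v, τ w ≤
        3 / (8 * K0 * M) * (∑ w ∈ gnb O c N S b v, τ w + (T0 + Bo) * T0) :=
      mul_le_mul_of_nonneg_left g2 h3.le
    have h5 : 3 / (8 * K0 * M) * (((T0 : ℝ) + Bo) * T0) ≤ δ * D * T0 / 2 := by
      have h6 : 3 / (8 * K0 * M) * (((T0 : ℝ) + Bo) * T0) ≤
          3 / (8 * K0 * M) * (δ * r / 4 * T0) := by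
        refine mul_le_mul_of_nonneg_left ?_ h3.le
        refine mul_le_mul_of_nonneg_right ?_ (by positivity)
        have h7 : 0 ≤ δ * r := by positivity
        linarith [hx.u1]
      have h7 : 3 / (8 * K0 * M) * (δ * r / 4 * (T0 : ℝ)) = δ * Dt * T0 / 8 := by
        rw [hDe]
        ring
      have h8 : δ * Dt * T0 ≤ δ * D * T0 := by
        refine mul_le_mul_of_nonneg_right ?_ (by positivity)
        exact mul_le_mul_of_nonneg_left (by linarith) hδ.le
      have h9 : 0 ≤ δ * D * T0 := by positivity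
      linarith
    linarith

/-! ### blocked edges -/

/-- number of colours in which `v` is close to active -/
theorem ev_v1 (hM12 : 12 ≤ M) {Z : ℝ} (hZ : 0 < Z) (hPZ : (P : ℝ) ≤ Z) (v : V) :
    pr (fun ω : Co V P → Fin M => ¬ (#{b | cn N b v ω < 12} : ℝ) ≤ 24 * Z / M) ≤
      Real.exp (-(2 * Z / M)) := by
  have hM0 : 0 < M := by omega
  have hMr : (0 : ℝ) < M := by exact_mod_cast hM0
  have hsum : ∀ ω : Co V P → Fin M, (#{b | cn N b v ω < 12} : ℝ) =
      ∑ b : Fin P, ind (fun ω : Co V P → Fin M => cn N b v ω < 12) ω := by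
    intro ω
    rw [card_filter]
    push_cast
    refine sum_congr rfl fun b _ => ?_
    rw [ind]
    by_cases h : cn N b v ω < 12
    · rw [if_pos h, if_pos h]
    · rw [if_neg h, if_neg h]
  have key := chern_up hM0 (univ : Finset (Fin P))
    (fun b => {(Sum.inl (b, rp N b v) : Co V P)})
    (fun b => ind (fun ω : Co V P → Fin M => cn N b v ω < 12)) (B := 1) (m := 12 * Z / M)
    (s := 12 * Z / M) (fun b _ => ind_dep (cn_dep b v fun x => x < 12))
    (fun b _ b' _ hne => by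
      rw [disjoint_singleton]
      intro h
      rw [Sum.inl.injEq, Prod.mk.injEq] at h
      exact hne h.1)
    (fun b _ ω => ind_nonneg _ _) (fun b _ ω => ind_le_one _ _) one_pos (by positivity) (by
      rw [sum_congr rfl (g := fun _ => 12 / (M : ℝ)) fun b _ => by
        rw [← pr_ex, pr_cn12 hM12], sum_const, nsmul_eq_mul, card_univ, Fintype.card_fin]
      have h1 : (P : ℝ) * (12 / M) = 12 * P / M := by ring
      rw [h1]
      refine div_le_div_of_nonneg_right ?_ hMr.le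
      linarith) (by positivity)
  have e1 : min ((12 * Z / M) ^ 2 / (4 * 1 * (12 * Z / M))) (12 * Z / M / (2 * 1)) =
      3 * Z / M := by
    have e2 : (12 * Z / M) ^ 2 / (4 * 1 * (12 * Z / M)) = 3 * Z / M := by
      field_simp
      norm_num
    have e3 : 12 * Z / M / (2 * 1) = 6 * Z / M := by
      field_simp
      norm_num
    rw [e2, e3, min_eq_left]
    refine div_le_div_of_nonneg_right ?_ hMr.le
    linarith
  rw [e1] at key
  have e5 : Real.exp (-(3 * Z / M)) ≤ Real.exp (-(2 * Z / M)) := by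
    refine Real.exp_le_exp.2 (neg_le_neg ?_)
    refine div_le_div_of_nonneg_right ?_ hMr.le
    linarith
  refine le_trans (pr_mono fun ω hω => ?_) (key.trans e5)
  rw [← hsum]
  have e4 : 12 * Z / M + 12 * Z / M = 24 * Z / M := by ring
  rw [e4]
  exact (not_le.1 hω).le

/-- number of neighbours close to active in colour `b` -/
theorem ev_y (hE : E1 G S r K0 T0 Bo ρ O c N Ac K Km Q b) (hn : Nm r K0 T0 L P ρ D Dt δ M)
    (hx : Nx M r K0 T0 Bo m1 P ρ δ) (v : V) :
    pr (fun ω : Co V P → Fin M => ¬ (#{w ∈ nb S v | cn N b w ω < 12} : ℝ) ≤ 48 * r / M) ≤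
      Real.exp (-(2 * r / M)) := by
  have hMr := hx.Mr
  have hr := hn.r0
  have hδs := hn.δs
  have hδ := hn.δ0
  have hsum : ∀ ω : Co V P → Fin M, (#{w ∈ nb S v | cn N b w ω < 12} : ℝ) =
      ∑ w ∈ nb S v, ind (fun ω : Co V P → Fin M => cn N b w ω < 12) ω := by
    intro ω
    rw [card_filter]
    push_cast
    refine sum_congr rfl fun w _ => ?_
    rw [ind]
    by_cases h : cn N b w ω < 12
    · rw [if_pos h, if_pos h]
    · rw [if_neg h, if_neg h]
  have key := grp_up hx.M0 (nb S v) (rp N b) (rp_fib hE.NN b _)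
    (fun w => {(Sum.inl (b, rp N b w) : Co V P)})
    (fun w _ w' _ hne => by
      rw [disjoint_singleton]
      intro h
      rw [Sum.inl.injEq, Prod.mk.injEq] at h
      exact hne h.2)
    (fun w => ind (fun ω : Co V P → Fin M => cn N b w ω < 12)) (B := 1) (m := 24 * r / M)
    (s := 24 * r / M) one_pos (fun w _ => ind_dep (cn_dep b w fun x => x < 12))
    (fun b _ ω => ind_nonneg _ _) (fun b _ ω => ind_le_one _ _) (by positivity) (by
      rw [sum_congr rfl (g := fun _ => 12 / (M : ℝ)) fun w _ => by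
        rw [← pr_ex, pr_cn12 hx.M12], sum_const, nsmul_eq_mul]
      have h1 : (#(nb S v) : ℝ) ≤ r + K0 := by exact_mod_cast hE.dS2 v
      have h2 := hx.u2
      have h3 : (#(nb S v) : ℝ) ≤ 2 * r := by nlinarith
      calc (#(nb S v) : ℝ) * (12 / M) ≤ 2 * r * (12 / M) :=
            mul_le_mul_of_nonneg_right h3 (by positivity)
        _ = 24 * r / M := by ring) (by positivity)
  have e1 : min ((24 * (r : ℝ) / M) ^ 2 / (8 * 1 * (24 * (r : ℝ) / M)))
      (24 * (r : ℝ) / M / (4 * 1)) = 3 * (r : ℝ) / M := by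
    have e2 : (24 * (r : ℝ) / M) ^ 2 / (8 * 1 * (24 * (r : ℝ) / M)) = 3 * (r : ℝ) / M := by
      field_simp
      norm_num
    have e3 : 24 * (r : ℝ) / M / (4 * 1) = 6 * (r : ℝ) / M := by
      field_simp
      norm_num
    rw [e2, e3, min_eq_left]
    refine div_le_div_of_nonneg_right ?_ hMr.le
    linarith
  rw [e1] at key
  have e5 : Real.exp (-(3 * (r : ℝ) / M)) ≤ Real.exp (-(2 * r / M)) := by
    refine Real.exp_le_exp.2 (neg_le_neg ?_)
    refine div_le_div_of_nonneg_right ?_ hMr.le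
    linarith
  refine le_trans (pr_mono fun ω hω => ?_) (key.trans e5)
  rw [← hsum]
  have e4 : 24 * (r : ℝ) / M + 24 * r / M = 48 * r / M := by ring
  rw [e4]
  exact (not_le.1 hω).le

/-- blocked neighbours -/
theorem ev_e2 (hE : E1 G S r K0 T0 Bo ρ O c N Ac K Km Q b) (hn : Nm r K0 T0 L P ρ D Dt δ M)
    (hx : Nx M r K0 T0 Bo m1 P ρ δ) (v : V) :
    pr (fun ω : Co V P → Fin M => ¬ (#(BB N S b v ω) : ℝ) ≤ δ * D) ≤
      Real.exp (-(δ * D / 16)) + Real.exp (-(2 * r / M)) + Real.exp (-(2 * (P + r) / M)) := by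
  have hMr := hx.Mr
  have hr := hn.r0
  have hδ := hn.δ0
  have hD := hn.D0
  have hP : (0 : ℝ) < P := by
    have := b.pos
    exact_mod_cast this
  have h1 := ev_y hE hn hx v
  have h2 := ev_v1 (N := N) hx.M12 (Z := (P : ℝ) + r) (by positivity) (by linarith) v
  -- the conditional event
  have h3 : pr (fun ω : Co V P → Fin M => ¬ (#(BB N S b v ω) : ℝ) ≤ δ * D ∧
      (#{w ∈ nb S v | cn N b w ω < 12} : ℝ) ≤ 48 * r / M ∧
      (#{b | cn N b v ω < 12} : ℝ) ≤ 24 * (P + r) / M) ≤ Real.exp (-(δ * D / 16)) := by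
    obtain ⟨Q0, hQ0⟩ : ∃ Q0 : Finset (Co V P), ∀ b' x, (Sum.inl (b', x) : Co V P) ∈ Q0 ↔
        b' = b ∨ x = rp N b' v := by
      refine ⟨univ.filter fun j => ∃ b' x, j = Sum.inl (b', x) ∧ (b' = b ∨ x = rp N b' v), ?_⟩
      intro b' x
      rw [mem_filter]
      constructor
      · rintro ⟨_, b1, x1, h, h'⟩
        rw [Sum.inl.injEq, Prod.mk.injEq] at h
        rw [h.1, h.2]
        exact h'
      · intro h
        exact ⟨mem_univ _, b', x, rfl, h⟩
    refine pr_cond hx.M0 Q0 _ fun ω0 => ?_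
    have e1 : ∀ ω : Co V P → Fin M, ∀ w, cn N b w (mg Q0 ω0 ω) = cn N b w ω0 := by
      intro ω w
      rw [cn, cn, mg_mem ((hQ0 _ _).2 (Or.inl rfl))]
    have e2 : ∀ ω : Co V P → Fin M, ∀ b', cn N b' v (mg Q0 ω0 ω) = cn N b' v ω0 := by
      intro ω b'
      rw [cn, cn, mg_mem ((hQ0 _ _).2 (Or.inr rfl))]
    have e3 : ∀ ω : Co V P → Fin M, ∀ b' w, b' ≠ b → S.Adj v w →
        cn N b' w (mg Q0 ω0 ω) = cn N b' w ω := by
      intro ω b' w hb hw
      rw [cn, cn, mg_not]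
      rw [hQ0, not_or]
      refine ⟨hb, fun h => ?_⟩
      rcases rp_eq hE.NN h with h | h
      · exact hw.ne h
      · rw [h] at hw
        by_cases h' : N b' w = w
        · rw [h'] at hw
          exact hw.ne rfl
        · exact hE.NS b' w hw.symm
    obtain ⟨Y, hY⟩ : ∃ Y : Finset V, Y = {w ∈ nb S v | cn N b w ω0 < 12} := ⟨_, rfl⟩
    obtain ⟨Z, hZ⟩ : ∃ Z : Finset (Fin P), Z = univ.filter fun b' => cn N b' v ω0 < 12 ∧ b' ≠ b :=
      ⟨_, rfl⟩
    by_cases hyz : (#Y : ℝ) ≤ 48 * r / M ∧ (#Z : ℝ) ≤ 24 * (P + r) / M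
    swap
    · refine le_trans (le_of_eq ?_) (Real.exp_pos _).le
      rw [← pr_false (Ω := Co V P → Fin M)]
      congr 1
      funext ω
      refine propext ⟨fun h => hyz ?_, fun h => h.elim⟩
      obtain ⟨_, h4, h5⟩ := h
      constructor
      · refine le_trans ?_ h4
        rw [hY]
        simp only [e1]
        exact le_rfl
      · refine le_trans ?_ h5
        rw [hZ]
        norm_cast
        refine card_le_card fun b' hb' => ?_
        rw [mem_filter] at hb' ⊢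
        rw [e2]
        exact ⟨hb'.1, hb'.2.1⟩
    have key := grp_up hx.M0 (Y ×ˢ Z) (fun p => (p.2, rp N p.2 p.1)) (fun k => ?_)
      (fun p => {(Sum.inl (p.2, rp N p.2 p.1) : Co V P)}) (fun p _ p' _ hne => by
        rw [disjoint_singleton]
        intro h
        rw [Sum.inl.injEq] at h
        exact hne h)
      (fun p => ind (fun ω : Co V P → Fin M => cn N p.2 p.1 ω < 12)) (B := 1) (m := δ * D / 2)
      (s := δ * D / 2) one_pos (fun p _ => ind_dep (cn_dep p.2 p.1 fun x => x < 12))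
      (fun p _ ω => ind_nonneg _ _) (fun p _ ω => ind_le_one _ _) (by positivity) ?_
      (by positivity)
    · have e4 : min ((δ * D / 2) ^ 2 / (8 * 1 * (δ * D / 2))) (δ * D / 2 / (4 * 1)) =
          δ * D / 16 := by
        have e5 : (δ * D / 2) ^ 2 / (8 * 1 * (δ * D / 2)) = δ * D / 16 := by
          field_simp
          norm_num
        rw [e5, min_eq_left]
        have : 0 < δ * D := by positivity
        linarith
      rw [e4] at key
      refine le_trans (pr_mono fun ω hω => ?_) key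
      have e6 : δ * D / 2 + δ * D / 2 = δ * D := by ring
      rw [e6]
      refine le_trans (not_le.1 hω.1).le ?_
      have e7 : (#(BB N S b v (mg Q0 ω0 ω)) : ℝ) ≤
          #((Y ×ˢ Z).filter fun p => cn N p.2 p.1 ω < 12) := by
        norm_cast
        refine card_le_card_of_surjOn Prod.fst ?_
        intro w hw
        rw [mem_coe, BB, mem_filter, mem_nb, bl] at hw
        obtain ⟨g1, g2, b', g3, g4, g5⟩ := hw
        rw [e1] at g2
        rw [e2] at g4
        rw [e3 ω b' w g3 g1] at g5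
        refine ⟨(w, b'), ?_, rfl⟩
        rw [mem_coe, mem_filter, mem_product, hY, hZ, mem_filter, mem_filter, mem_nb]
        exact ⟨⟨⟨g1, g2⟩, mem_univ _, g4, g3⟩, g5⟩
      refine e7.trans (le_of_eq ?_)
      rw [card_filter]
      push_cast
      refine sum_congr rfl fun p _ => ?_
      rw [ind]
      by_cases h : cn N p.2 p.1 ω < 12
      · rw [if_pos h, if_pos h]
      · rw [if_neg h, if_neg h]
    · refine (card_le_card (t := {(k.2, k.1), (N k.1 k.2, k.1)}) ?_).trans card_le_two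
      intro p hp
      simp only [mem_filter] at hp
      rw [mem_insert, mem_singleton]
      obtain ⟨_, hp⟩ := hp
      have h5 : p.2 = k.1 := by rw [← hp]
      have h6 : rp N p.2 p.1 = k.2 := by rw [← hp]
      rcases rp_mem N p.2 p.1 with h7 | h7
      · left
        rw [← h6, ← h5, h7]
      · right
        rw [← h6, ← h5, h7, hE.NN]
    · rw [sum_congr rfl (g := fun _ => 12 / (M : ℝ)) fun p _ => by
        rw [← pr_ex, pr_cn12 hx.M12], sum_const, nsmul_eq_mul, card_product]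
      push_cast
      have h4 : (#Y : ℝ) * #Z ≤ 48 * r / M * (24 * (P + r) / M) :=
        mul_le_mul hyz.1 hyz.2 (Nat.cast_nonneg _) (by positivity)
      refine (mul_le_mul_of_nonneg_right h4 (by positivity)).trans ?_
      rw [hn.dD]
      have h5 : 48 * (r : ℝ) / M * (24 * (P + r) / M) * (12 / M) =
          r / M ^ 3 * (13824 * (P + r)) := by
        field_simp
        norm_num
      have h6 : δ * (3 * r / (2 * M)) / 2 = r / M ^ 3 * (3 / 4 * (δ * M ^ 2)) := by
        field_simp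
        norm_num
      rw [h5, h6]
      refine mul_le_mul_of_nonneg_left ?_ (by positivity)
      have := hx.u4
      linarith
  refine le_trans (pr_mono (F := fun ω : Co V P → Fin M => (¬ (#(BB N S b v ω) : ℝ) ≤ δ * D ∧
      (#{w ∈ nb S v | cn N b w ω < 12} : ℝ) ≤ 48 * r / M ∧
      (#{b | cn N b v ω < 12} : ℝ) ≤ 24 * (P + r) / M) ∨
      (¬ (#{w ∈ nb S v | cn N b w ω < 12} : ℝ) ≤ 48 * r / M ∨
      ¬ (#{b | cn N b v ω < 12} : ℝ) ≤ 24 * (P + r) / M)) ?_) ?_
  · intro ω hω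
    by_cases h4 : (#{w ∈ nb S v | cn N b w ω < 12} : ℝ) ≤ 48 * r / M
    · by_cases h5 : (#{b | cn N b v ω < 12} : ℝ) ≤ 24 * (P + r) / M
      · exact Or.inl ⟨hω, h4, h5⟩
      · exact Or.inr (Or.inr h5)
    · exact Or.inr (Or.inl h4)
  · refine (pr_or _ _).trans ?_
    have h6 := pr_or (fun ω : Co V P → Fin M => ¬ (#{w ∈ nb S v | cn N b w ω < 12} : ℝ) ≤ 48 * r / M)
      (fun ω : Co V P → Fin M => ¬ (#{b | cn N b v ω < 12} : ℝ) ≤ 24 * (P + r) / M)
    linarith

/-! ### the load -/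

theorem Qf_bd (hE : E1 G S r K0 T0 Bo ρ O c N Ac K Km Q b) (hn : Nm r K0 T0 L P ρ D Dt δ M)
    (hθ : Wts L θ) (hθ' : Wts L θ') (v : V) :
    0 ≤ Qf O c N S lab r L ρ δ M (6 * T0 / Dt) θ θ' b v ∧
      Qf O c N S lab r L ρ δ M (6 * T0 / Dt) θ θ' b v ≤ 1000 / ρ * (6 * T0 / Dt) := by
  have hDt := hn.Dt0
  have hρ := hn.ρ0
  have hρ1 := hn.ρ1
  have hδ := hn.δ0
  have hδs := hn.δs
  obtain ⟨_, g2, _⟩ := q_bd (lab := lab) (b := b) hE hn hθ hθ' v
  have g3 := fun w => ((q_bd (lab := lab) (b := b) hE hn hθ hθ' w).2.2).2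
  have g3' := fun w => ((q_bd (lab := lab) (b := b) hE hn hθ hθ' w).2.2).1
  set Φ : ℝ := 6 * T0 / Dt with hΦ
  have hΦ0 : 0 ≤ Φ := by positivity
  have g4 := HH_le hE hn (by positivity) g3 v
  have g4' : 0 ≤ 24 / ρ * HH S r (q2f O c N S lab r L δ M Φ θ θ' b) v :=
    mul_nonneg (by positivity) (HH_nonneg g3' v)
  have g5 : HH S r (q2f O c N S lab r L δ M Φ θ θ' b) v ≤ 36 * Φ := by nlinarith
  rw [Qf]
  have g6 : 24 / ρ * HH S r (q2f O c N S lab r L δ M Φ θ θ' b) v ≤ 24 / ρ * (36 * Φ) :=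
    mul_le_mul_of_nonneg_left g5 (by positivity)
  have g7 : Φ ≤ 1 / ρ * Φ := by
    have : 1 ≤ 1 / ρ := by
      rw [le_div_iff₀ hρ]
      linarith
    nlinarith
  have g8 : 4000 / ρ * δ * Φ = 4000 * δ * (1 / ρ * Φ) := by ring
  have g9 : 24 / ρ * (36 * Φ) = 864 * (1 / ρ * Φ) := by ring
  have g10 : 1000 / ρ * Φ = 1000 * (1 / ρ * Φ) := by ring
  have g11 : 0 ≤ 1 / ρ * Φ := by positivity
  constructor
  · have g12 : 0 ≤ 4000 / ρ * δ * Φ := by positivity
    linarith [g2.1]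
  · rw [g8, g10]
    rw [g9] at g6
    nlinarith [g2.2]

/-- the loads of the colours of one class -/
theorem Qf_cls (B : Finset (Fin P)) (hE : ∀ b ∈ B, E1 G S r K0 T0 Bo ρ O c N Ac K Km Q b)
    (hn : Nm r K0 T0 L P ρ D Dt δ M) {w : ℝ} (hw : 0 ≤ w)
    (hres : ∀ v, ∑ b ∈ B, resQ S r L θ θ' O c N lab b v ≤ w) (v : V) :
    ∑ b ∈ B, Qf O c N S lab r L ρ δ M (6 * T0 / Dt) θ θ' b v ≤
      1 / ρ * (900 * (M / 3 * w + 200 * L * δ * (6 * T0 / Dt) * P) +
        11000 * (δ * (6 * T0 / Dt) * P)) := by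
  have hDt := hn.Dt0
  have hρ := hn.ρ0
  have hρ1 := hn.ρ1
  have hδ := hn.δ0
  have hδs := hn.δs
  have hL := hn.l0
  have hM := hn.M0
  set Φ : ℝ := 6 * T0 / Dt with hΦ
  have hΦ0 : 0 ≤ Φ := by positivity
  obtain ⟨σ, hσ⟩ : ∃ σ : ℝ, σ = M / 3 * w + 200 * L * δ * Φ * P := ⟨_, rfl⟩
  obtain ⟨η, hη⟩ : ∃ η : ℝ, η = δ * Φ * P := ⟨_, rfl⟩
  rw [← hσ, ← hη]
  have hη0 : 0 ≤ η := by
    rw [hη]
    positivity
  have hσ0 : 0 ≤ σ := by
    rw [hσ]
    positivity
  rcases B.eq_empty_or_nonempty with hB | ⟨b0, hb0⟩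
  · rw [hB, sum_empty]
    positivity
  have hE0 := hE b0 hb0
  have hBP : (#B : ℝ) ≤ P := by
    have h := card_le_univ B
    rw [Fintype.card_fin] at h
    exact_mod_cast h
  have hc : ∀ x : ℝ, 0 ≤ x → ∑ _b ∈ B, x ≤ x * P := by
    intro x hx
    rw [sum_const, nsmul_eq_mul, mul_comm]
    exact mul_le_mul_of_nonneg_left hBP hx
  have h1 : ∀ w, ∑ b ∈ B, qf O c N S lab r L δ M Φ θ θ' b w ≤ σ := by
    intro x
    simp only [qf]
    rw [sum_add_distrib, ← mul_sum, hσ]
    have g1 := mul_le_mul_of_nonneg_left (hres x) (by positivity : 0 ≤ (M : ℝ) / 3)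
    have g2 := hc (200 * L * δ * Φ) (by positivity)
    linarith
  have h2 : ∀ w, ∑ b ∈ B, q1f O c N S lab r L δ M Φ θ θ' b w ≤ 4 * σ + 12 * η := by
    intro w
    simp only [q1f]
    rw [sum_add_distrib, sum_add_distrib, ← mul_sum, HH_sum]
    have g1 := HH_le hE0 hn hσ0 h1 w
    have g2 := h1 w
    have g3 : 12 * δ * Φ * P = 12 * η := by
      rw [hη]
      ring
    have g4 := hc (12 * δ * Φ) (by positivity)
    rw [g3] at g4
    nlinarith
  have h3 : ∀ w, ∑ b ∈ B, q2f O c N S lab r L δ M Φ θ θ' b w ≤ 34 * σ + 250 * η := by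
    intro w
    simp only [q2f]
    rw [sum_add_distrib, sum_add_distrib, ← mul_sum, HH_sum]
    have g1 := HH_le hE0 hn (by positivity : 0 ≤ 4 * σ + 12 * η) h2 w
    have g2 := h1 w
    have g3 : 144 * δ * Φ * P = 144 * η := by
      rw [hη]
      ring
    have g4 := hc (144 * δ * Φ) (by positivity)
    rw [g3] at g4
    nlinarith
  simp only [Qf]
  rw [sum_add_distrib, sum_add_distrib, ← mul_sum, HH_sum]
  have g1 := HH_le hE0 hn (by positivity : 0 ≤ 34 * σ + 250 * η) h3 v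
  have g2 := h2 v
  have g3 : 4000 / ρ * δ * Φ * P = 4000 * (1 / ρ * η) := by
    rw [hη]
    ring
  have g4 : HH S r (fun w => ∑ b ∈ B, q2f O c N S lab r L δ M Φ θ θ' b w) v ≤ 35 * σ + 251 * η := by
    nlinarith
  have g5 : 24 / ρ * HH S r (fun w => ∑ b ∈ B, q2f O c N S lab r L δ M Φ θ θ' b w) v ≤
      24 / ρ * (35 * σ + 251 * η) := mul_le_mul_of_nonneg_left g4 (by positivity)
  have g6 : 24 / ρ * (35 * σ + 251 * η) = 1 / ρ * (840 * σ + 6024 * η) := by ring
  have g7 : 4 * σ + 12 * η ≤ 1 / ρ * (4 * σ + 12 * η) := by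
    have : 1 ≤ 1 / ρ := by
      rw [le_div_iff₀ hρ]
      linarith
    nlinarith
  have g8 : 0 ≤ 1 / ρ * σ := by positivity
  have g9 : 0 ≤ 1 / ρ * η := by positivity
  have g10 := hc (4000 / ρ * δ * Φ) (by positivity)
  rw [g3] at g10
  rw [g6] at g5
  linarith

/-- the load of a vertex -/
theorem ev_v2 (hM12 : 12 ≤ M) (Q : Fin P → ℝ) {B ε : ℝ} (hB0 : 0 < B) (hε : 0 < ε)
    (hQ0 : ∀ b, 0 ≤ Q b) (hB : ∀ b, Q b ≤ B) (hS : 12 / M * ∑ b, Q b ≤ ε / 8) (v : V) :
    pr (fun ω : Co V P → Fin M => ¬ ∑ b with cn N b v ω < 12, Q b ≤ ε / 4) ≤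
      Real.exp (-(ε / (32 * B))) := by
  have hM0 : 0 < M := by omega
  have hsum : ∀ ω : Co V P → Fin M, ∑ b with cn N b v ω < 12, Q b =
      ∑ b : Fin P, Q b * ind (fun ω : Co V P → Fin M => cn N b v ω < 12) ω := by
    intro ω
    rw [sum_filter]
    refine sum_congr rfl fun b _ => ?_
    rw [ind]
    by_cases h : cn N b v ω < 12
    · rw [if_pos h, if_pos h, mul_one]
    · rw [if_neg h, if_neg h, mul_zero]
  have key := chern_up hM0 (univ : Finset (Fin P))
    (fun b => {(Sum.inl (b, rp N b v) : Co V P)})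
    (fun b ω => Q b * ind (fun ω : Co V P → Fin M => cn N b v ω < 12) ω)
    (B := B) (m := ε / 8) (s := ε / 8)
    (fun b _ a a' h => by
      have := ind_dep (cn_dep (M := M) (N := N) b v fun x => x < 12) a a' h
      simp only [this])
    (fun b _ b' _ hne => by
      rw [disjoint_singleton]
      intro h
      rw [Sum.inl.injEq, Prod.mk.injEq] at h
      exact hne h.1)
    (fun b _ ω => mul_nonneg (hQ0 b) (ind_nonneg _ _)) (fun b _ ω => by
      have h1 := ind_le_one (fun ω : Co V P → Fin M => cn N b v ω < 12) ω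
      exact (mul_le_of_le_one_right (hQ0 b) h1).trans (hB b)) hB0 (by positivity) (by
      refine le_trans (le_of_eq ?_) hS
      rw [mul_sum]
      refine sum_congr rfl fun b _ => ?_
      rw [ex_const_mul, ← pr_ex, pr_cn12 hM12]
      ring) (by positivity)
  have e1 : min ((ε / 8) ^ 2 / (4 * B * (ε / 8))) (ε / 8 / (2 * B)) = ε / (32 * B) := by
    have e2 : (ε / 8) ^ 2 / (4 * B * (ε / 8)) = ε / (32 * B) := by
      field_simp
      norm_num
    have e3 : ε / 8 / (2 * B) = ε / (16 * B) := by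
      field_simp
      norm_num
    rw [e2, e3, min_eq_left]
    exact div_le_div_of_nonneg_left hε.le (by positivity) (by linarith)
  rw [e1] at key
  refine le_trans (pr_mono fun ω hω => ?_) key
  rw [hsum] at hω
  have e4 : ε / 8 + ε / 8 = ε / 4 := by ring
  rw [e4]
  exact (not_le.1 hω).le

/-- number of vertices of a set close to active in colour `b` -/
theorem ev_n (hM12 : 12 ≤ M) (hN : ∀ b v, N b (N b v) = v) {Z : ℝ} (hZ : 0 < Z) (X : Finset V)
    (hX : (#X : ℝ) ≤ Z) (b : Fin P) :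
    pr (fun ω : Co V P → Fin M => ¬ (#{w ∈ X | cn N b w ω < 12} : ℝ) ≤ 24 * Z / M) ≤
      Real.exp (-(Z / M)) := by
  have hM0 : 0 < M := by omega
  have hMr : (0 : ℝ) < M := by exact_mod_cast hM0
  have hsum : ∀ ω : Co V P → Fin M, (#{w ∈ X | cn N b w ω < 12} : ℝ) =
      ∑ w ∈ X, ind (fun ω : Co V P → Fin M => cn N b w ω < 12) ω := by
    intro ω
    rw [card_filter]
    push_cast
    refine sum_congr rfl fun w _ => ?_
    rw [ind]
    by_cases h : cn N b w ω < 12
    · rw [if_pos h, if_pos h]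
    · rw [if_neg h, if_neg h]
  have key := grp_up hM0 X (rp N b) (rp_fib hN b _)
    (fun w => {(Sum.inl (b, rp N b w) : Co V P)})
    (fun w _ w' _ hne => by
      rw [disjoint_singleton]
      intro h
      rw [Sum.inl.injEq, Prod.mk.injEq] at h
      exact hne h.2)
    (fun w => ind (fun ω : Co V P → Fin M => cn N b w ω < 12)) (B := 1) (m := 12 * Z / M)
    (s := 12 * Z / M) one_pos (fun w _ => ind_dep (cn_dep b w fun x => x < 12))
    (fun b _ ω => ind_nonneg _ _) (fun b _ ω => ind_le_one _ _) (by positivity) (by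
      rw [sum_congr rfl (g := fun _ => 12 / (M : ℝ)) fun w _ => by
        rw [← pr_ex, pr_cn12 hM12], sum_const, nsmul_eq_mul]
      calc (#X : ℝ) * (12 / M) ≤ Z * (12 / M) :=
            mul_le_mul_of_nonneg_right hX (by positivity)
        _ = 12 * Z / M := by ring) (by positivity)
  have e1 : min ((12 * Z / M) ^ 2 / (8 * 1 * (12 * Z / M))) (12 * Z / M / (4 * 1)) =
      3 / 2 * (Z / M) := by
    have e2 : (12 * Z / M) ^ 2 / (8 * 1 * (12 * Z / M)) = 3 / 2 * (Z / M) := by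
      field_simp
      norm_num
    have e3 : 12 * Z / M / (4 * 1) = 3 * (Z / M) := by
      field_simp
      norm_num
    rw [e2, e3, min_eq_left]
    have : 0 ≤ Z / M := by positivity
    linarith
  rw [e1] at key
  have e5 : Real.exp (-(3 / 2 * (Z / M))) ≤ Real.exp (-(Z / M)) := by
    refine Real.exp_le_exp.2 (neg_le_neg ?_)
    have : 0 ≤ Z / M := by positivity
    linarith
  refine le_trans (pr_mono fun ω hω => ?_) (key.trans e5)
  rw [← hsum]
  have e4 : 12 * Z / M + 12 * Z / M = 24 * Z / M := by ring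
  rw [e4]
  exact (not_le.1 hω).le

end Ev

end Pool.Agent.Work.MP_db9399_eo
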