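import Pool.Agent.Work.MP_db9399_eo.LOC
import Pool.Agent.Work.MP_db9399_eo.OUT
import Pool.Agent.Work.MP_db9399_en.FIN

/-!
# MP_db9399, ENGN: assembly (helper89)
-/

set_option autoImplicit false

namespace Pool.Agent.Work.MP_db9399_eo

open Finset Classical
open Pool.Agent.Work.MP_db9399_all (nb pr DepOnI)
open Pool.Agent.Work.MP_db9399_en

universe u v

attribute [-instance] instDecidableEqSum

section Ix

variable {V : Type u} [Fintype V] {P : ℕ}

/-- numbering of the colours with a token at an end -/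
noncomputable def ixf (O : Finset V) (c : Fin P → Finset V) (N : Fin P → V → V) (p : V × V) (b : Fin P) : ℕ :=
  #(univ.filter fun b' => (p.1 ∈ tkO O c N b' ∨ p.2 ∈ tkO O c N b') ∧ b' < b)

theorem ixf_inj {O : Finset V} {c : Fin P → Finset V} {N : Fin P → V → V} {p : V × V} {b b' : Fin P}
    (h : p.1 ∈ tkO O c N b ∨ p.2 ∈ tkO O c N b) (h' : p.1 ∈ tkO O c N b' ∨ p.2 ∈ tkO O c N b')
    (he : ixf O c N p b = ixf O c N p b') : b = b' := by
  have key : ∀ x y : Fin P, (p.1 ∈ tkO O c N x ∨ p.2 ∈ tkO O c N x) → x < y →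
      ixf O c N p x < ixf O c N p y := by
    intro x y hx hxy
    refine card_lt_card ⟨fun z hz => ?_, fun hs => ?_⟩
    · rw [mem_filter] at hz ⊢
      exact ⟨mem_univ _, hz.2.1, hz.2.2.trans hxy⟩
    · have := hs (mem_filter.2 ⟨mem_univ x, hx, hxy⟩)
      rw [mem_filter] at this
      exact lt_irrefl _ this.2.2
  rcases lt_trichotomy b b' with h1 | h1 | h1
  · exact absurd he (key b b' h h1).ne
  · exact h1
  · exact absurd he.symm (key b' b h' h1).ne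

theorem ixf_lt {O : Finset V} {c : Fin P → Finset V} {N : Fin P → V → V} {K0 : ℕ}
    (hk : ∀ v, (univ.filter fun b => v ∈ tkO O c N b).card ≤ K0) {p : V × V} {b : Fin P}
    (h : p.1 ∈ tkO O c N b ∨ p.2 ∈ tkO O c N b) : ixf O c N p b < 2 * K0 := by
  have h1 : ixf O c N p b < #(univ.filter fun b' => p.1 ∈ tkO O c N b' ∨ p.2 ∈ tkO O c N b') := by
    refine card_lt_card ⟨fun z hz => ?_, fun hs => ?_⟩
    · rw [mem_filter] at hz ⊢
      exact ⟨mem_univ _, hz.2.1⟩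
    · have := hs (mem_filter.2 ⟨mem_univ b, h⟩)
      rw [mem_filter] at this
      exact lt_irrefl _ this.2.2
  have h2 : (univ.filter fun b' => p.1 ∈ tkO O c N b' ∨ p.2 ∈ tkO O c N b') ⊆
      (univ.filter fun b' => p.1 ∈ tkO O c N b') ∪ univ.filter fun b' => p.2 ∈ tkO O c N b' := by
    intro z hz
    rw [mem_filter] at hz
    rw [mem_union, mem_filter, mem_filter]
    exact hz.2.imp (fun h => ⟨mem_univ _, h⟩) (fun h => ⟨mem_univ _, h⟩)
  have h3 := (card_le_card h2).trans (card_union_le _ _)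
  have h4 := hk p.1
  have h5 := hk p.2
  omega

theorem ep_or {O : Finset V} {c : Fin P → Finset V} {N : Fin P → V → V} {u v : V} {b : Fin P}
    (h : u ∈ tkO O c N b ∨ v ∈ tkO O c N b) :
    (ep u v).1 ∈ tkO O c N b ∨ (ep u v).2 ∈ tkO O c N b := by
  rcases ep_mem u v with h1 | h1
  · rw [h1]
    exact h
  · rw [h1]
    exact h.symm

end Ix

section Main

variable {V : Type u} [Fintype V] {P M : ℕ} {G S : SimpleGraph V} {d r K0 T0 Bo m1 L : ℕ}
  {ρ D Dt δ ξ : ℝ}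
  {O : Finset V} {c : Fin P → Finset V} {N : Fin P → V → V} {Ac K Km Q : Finset V} {lab : Fin P → V → Bool}
  {ix : V × V → Fin P → ℕ} {θ θ' : ℕ → ℝ} {b : Fin P}

/-- failure probability of one colour at one vertex -/
theorem pr_GdV (hE : E1 G S r K0 T0 Bo ρ O c N Ac K Km Q b) (hn : Nm r K0 T0 L P ρ D Dt δ M)
    (hx : Nx M r K0 T0 Bo m1 P ρ δ) (hθ : Wts L θ) (hθ' : Wts L θ')
    (hi : ∀ u v, (u ∈ tkO O c N b ∨ v ∈ tkO O c N b) → ix (ep u v) b < 2 * K0)
    (x1 : ξ ≤ δ ^ 2 * D / 64) (x2 : ξ ≤ δ ^ 2 * Dt / 64) (x3 : ξ ≤ ρ ^ 2 * D / 9216)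
    (x4 : ξ ≤ ρ ^ 2 * Dt / 9216) (x5 : ξ ≤ Dt / 4096) (x6 : ξ ≤ δ * D / 16) (x7 : ξ ≤ 2 * r / M)
    (v : V) :
    pr (fun ω : Co V P → Fin M => ¬ GdV O c N S Km Q lab ix K0 m1 r T0 L ρ D Dt δ M θ θ' Ac K v b ω) ≤
      60 * L * Real.exp (-ξ) := by
  have hL := hn.l0
  have hT := hn.t0
  have hDt := hn.Dt0
  have hD := hn.D0
  have hMr := hx.Mr
  have hr := hn.r0
  have hP : (0 : ℝ) < P := by
    have := b.pos
    exact_mod_cast this
  have hvt : v ∈ tkO O c N b → v ∈ Ac := fun h => hE.OA (mem_tk.1 h).1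
  obtain ⟨q, hq⟩ : ∃ q : ℝ, q = Real.exp (-ξ) := ⟨_, rfl⟩
  have hq0 : 0 < q := by
    rw [hq]
    exact Real.exp_pos _
  have hle : ∀ x : ℝ, ξ ≤ x → Real.exp (-x) ≤ q := by
    intro x hx
    rw [hq]
    exact Real.exp_le_exp.2 (by linarith)
  have e1 := hle _ x1
  have e2 := hle _ x2
  have e3 := hle _ x3
  have e4 := hle _ x4
  have e5 := hle _ x5
  have e6 := hle _ x6
  have e7 := hle _ x7
  have e8 : Real.exp (-(2 * ((P : ℝ) + r) / M)) ≤ q := by
    refine hle _ (x7.trans ?_)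
    refine div_le_div_of_nonneg_right ?_ hMr.le
    linarith
  rw [← hq]
  have hA : ∀ (g : V → ℝ) (Φ : ℝ), 0 < Φ → (∀ v, 0 ≤ g v ∧ g v ≤ Φ) →
      pr (fun ω : Co V P → Fin M => ¬ AVv O c N S Km Q K0 m1 r D δ b v ω g Φ) ≤ 4 * q := by
    intro g Φ hΦ hg
    have := pr_not_bool (Ω := Co V P → Fin M)
      (fun s ω => |∑ w ∈ NG O c N S Km Q K0 m1 b v s ω, g w - D * HH S r g v| ≤ δ * D * Φ)
      (p := 2 * q) (fun s => (ev_a hE hn hx hΦ hg v s).trans (by linarith))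
    refine le_trans this (by linarith)
  have hΦ : 0 < 6 * (T0 : ℝ) / Dt := by positivity
  have f0 := hA (fun _ => 1) 1 one_pos (fun _ => ⟨zero_le_one, le_rfl⟩)
  have f1 := hA (fun v => if v ∈ K then 0 else 1) 1 one_pos (fun v => by
    split_ifs <;> norm_num)
  have f2 : pr (fun ω : Co V P → Fin M => ¬ ∀ s, ∀ j : Fin (2 * L), 2 ≤ (j : ℕ) →
      AVv O c N S Km Q K0 m1 r D δ b v ω (fun v => M / 3 * wlk S r (tksO O c N lab b s) j v) (T0 / D)) ≤
      2 * (2 * L * (4 * q)) := by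
    refine pr_not_bool _ fun s => ?_
    have := pr_not_all (Ω := Co V P → Fin M) (fun (j : Fin (2 * L)) ω => 2 ≤ (j : ℕ) →
      AVv O c N S Km Q K0 m1 r D δ b v ω (fun v => M / 3 * wlk S r (tksO O c N lab b s) j v) (T0 / D))
      (p := 4 * q) (fun j => pr_not_imp _ _ (by positivity) fun hj => hA _ _ (by positivity)
        fun v => F_bd hE hn s (by omega) j.2.le v)
    rw [Fintype.card_fin] at this
    push_cast at this
    exact this
  have f3 := hA _ _ hΦ (fun v => (q_bd (lab := lab) (b := b) hE hn hθ hθ' v).1)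
  have f4 := hA _ _ (by positivity) (fun v => (q_bd (lab := lab) (b := b) hE hn hθ hθ' v).2.1)
  have f5 := hA _ _ (by positivity) (fun v => (q_bd (lab := lab) (b := b) hE hn hθ hθ' v).2.2)
  have g2 : pr (fun ω : Co V P → Fin M => ¬ (#(BB N S b v ω) : ℝ) ≤ δ * D) ≤ 3 * q :=
    (ev_e2 hE hn hx v).trans (by linarith)
  have g3 : pr (fun ω : Co V P → Fin M => ¬ (v ∈ tkO O c N b → ∀ s,
      |(#(NT O c N S Km Q ix K0 m1 b v s ω) : ℝ) - Dt| ≤ δ * Dt)) ≤ 4 * q := by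
    refine pr_not_imp _ _ (by positivity) fun hv => ?_
    refine (pr_not_bool _ (p := 2 * q) fun s => ?_).trans (by linarith)
    exact (ev_e3 hE hn hx (hvt hv) s fun w _ => hi v w (Or.inl hv)).trans (by linarith)
  have g4 : pr (fun ω : Co V P → Fin M => ¬ (v ∉ tkO O c N b → ∀ s,
      |∑ w ∈ NG O c N S Km Q K0 m1 b v (!s) ω, tn O c N S lab ix K0 m1 b s w ω -
      D * Dt * (M / 3 * wlk S r (tksO O c N lab b s) 2 v)| ≤ δ * D * T0)) ≤ 4 * q := by
    refine pr_not_imp _ _ (by positivity) fun hv => ?_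
    refine (pr_not_bool _ (p := 2 * q) fun s => ?_).trans (by linarith)
    exact (ev_e4 hE hn hx v hv s fun w z _ hz => hi w z (Or.inr hz)).trans (by linarith)
  have g5 : pr (fun ω : Co V P → Fin M => ¬ (v ∈ Ac → v ∉ K → ∀ s, ρ * D / 12 ≤
      (#{w ∈ NG O c N S Km Q K0 m1 b v s ω | w ∈ MX O Km K0 m1 s ω} : ℝ))) ≤ 2 * q := by
    refine pr_not_imp _ _ (by positivity) fun hvA => pr_not_imp _ _ (by positivity) fun hv =>
      pr_not_bool _ fun s => ?_
    exact (ev_e5 hE hn hx hvA hv s).trans e3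
  have g6 : pr (fun ω : Co V P → Fin M => ¬ (v ∉ K → v ∈ tkO O c N b → ∀ s, ρ * Dt / 12 ≤
      (#{w ∈ NT O c N S Km Q ix K0 m1 b v s ω | w ∈ MX O Km K0 m1 s ω} : ℝ))) ≤ 2 * q := by
    refine pr_not_imp _ _ (by positivity) fun hv => pr_not_imp _ _ (by positivity) fun hv' =>
      pr_not_bool _ fun s => ?_
    exact (ev_e5t hE hn hx (hvt hv') hv s fun w _ => hi v w (Or.inl hv')).trans e4
  have g7 : pr (fun ω : Co V P → Fin M => ¬ (v ∈ tkO O c N b → ∀ s, Dt / 8 ≤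
      (#{w ∈ NT O c N S Km Q ix K0 m1 b v s ω | w ∉ K} : ℝ))) ≤ 2 * q := by
    refine pr_not_imp _ _ (by positivity) fun hv => pr_not_bool _ fun s => ?_
    exact (ev_e6 hE hn hx (hvt hv) s fun w _ => hi v w (Or.inl hv)).trans e5
  -- all together
  have hor : ∀ (A : (Co V P → Fin M) → Prop) (B : (Co V P → Fin M) → Prop) (x y : ℝ),
      pr (fun ω => ¬ A ω) ≤ x → pr (fun ω => ¬ B ω) ≤ y → pr (fun ω => ¬ (A ω ∧ B ω)) ≤ x + y :=
    fun A B x y h1 h2 => (pr_not_and A B).trans (add_le_add h1 h2)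
  have key := hor _ _ _ _ f0 (hor _ _ _ _ f1 (hor _ _ _ _ f2 (hor _ _ _ _ f3 (hor _ _ _ _ f4
    (hor _ _ _ _ f5 (hor _ _ _ _ g2 (hor _ _ _ _ g3 (hor _ _ _ _ g4 (hor _ _ _ _ g5
    (hor _ _ _ _ g6 g7))))))))))
  refine le_trans (pr_mono fun ω hω => ?_) (key.trans ?_)
  · rintro ⟨h0, h1, h2, h3, h4, h5, h6, h7, h8, h9, h10, h11⟩
    exact hω ⟨h0, h1, h2, h3, h4, h5, h6, h7, h8, h9, h10, h11⟩
  · nlinarith

end Main

end Pool.Agent.Work.MP_db9399_eo
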