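import Pool.Agent.Work.MP_db9399_eo.Interface
import Pool.Agent.Work.MP_db9399_sg_helper54.KMLN

/-! # MP_db9399, KMLO: the set `Km` and the labels with occupied sets (helper89, after helper54's
KMLN) -/

set_option autoImplicit false
set_option linter.unusedSectionVars false

namespace Pool.Agent.Work.MP_db9399_eo

open Finset Classical
open Pool.Agent.Work.MP_db9399_all (nb)
open Pool.Agent.Work.MP_db9399_cg (sx sp)
open Pool.Agent.Work.MP_db9399_sg (TstN)
open Pool.Agent.Work.MP_db9399_cg.helper54.KML (LJ LJ.mk sg sg_abs)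
open Pool.Agent.Work.MP_db9399_sg.helper54.KMLN (zz F1 F2 vv vv_eq labelsG two_sq headsG Exq)

universe u

section kmset

variable {V J : Type u} [Fintype V] {P : ℕ}

/-- `x` is exposed to `y` -/
def Rr (G : SimpleGraph V) (S : J → SimpleGraph V) (c : Fin P → Finset V) (N : Fin P → V → V)
    (x y : V) : Prop :=
  G.Adj x y ∧ ((∃ b, N b x = y ∧ (x ∈ c b ∨ y ∈ c b)) ∨
    ((¬ ∃ b, N b x = y) ∧ ¬ ∃ j, (S j).Adj x y))

/-- occupied pairs at `x` -/
noncomputable def ptk (c : Fin P → Finset V) (N : Fin P → V → V) (x : V) : Finset (Fin P) :=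
  univ.filter fun b => N b x ≠ x ∧ (x ∈ c b ∨ N b x ∈ c b)

/-- left over edges at `x` -/
noncomputable def lov (G : SimpleGraph V) (S : J → SimpleGraph V) (N : Fin P → V → V) (x : V) :
    Finset V := (nb G x).filter fun w => (¬ ∃ b, N b x = w) ∧ ¬ ∃ j, (S j).Adj x w

lemma Rr_symm {G : SimpleGraph V} {S : J → SimpleGraph V} {c : Fin P → Finset V}
    {N : Fin P → V → V} (hN : ∀ b v, N b (N b v) = v) {x y : V} (h : Rr G S c N x y) :
    Rr G S c N y x := by
  obtain ⟨h1, h2⟩ := h
  refine ⟨h1.symm, ?_⟩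
  rcases h2 with ⟨b, hb, h2⟩ | ⟨h2, h3⟩
  · left
    exact ⟨b, by rw [← hb, hN], h2.symm⟩
  · right
    refine ⟨?_, ?_⟩
    · rintro ⟨b, hb⟩
      exact h2 ⟨b, by rw [← hb, hN]⟩
    · rintro ⟨j, hj⟩
      exact h3 ⟨j, hj.symm⟩

lemma Rr_card {G : SimpleGraph V} {S : J → SimpleGraph V} {c : Fin P → Finset V}
    {N : Fin P → V → V} (K : Finset V) (x : V) :
    ((K.filter (Rr G S c N x)).card : ℝ) ≤ (ptk c N x).card + (lov G S N x).card := by
  have h1 : K.filter (Rr G S c N x) ⊆ ((ptk c N x).image fun b => N b x) ∪ lov G S N x := by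
    intro y hy
    obtain ⟨_, hG, h2⟩ := mem_filter.1 hy
    rw [mem_union, mem_image]
    rcases h2 with ⟨b, hb, h3⟩ | h2
    · left
      refine ⟨b, mem_filter.2 ⟨mem_univ _, ?_, ?_⟩, hb⟩
      · rw [hb]
        exact hG.ne'
      · rw [hb]
        exact h3
    · right
      refine mem_filter.2 ⟨?_, h2⟩
      unfold nb
      exact mem_filter.2 ⟨mem_univ _, hG⟩
  have h3 := (card_le_card h1).trans (card_union_le _ _)
  have h6 := card_image_le (s := ptk c N x) (f := fun b => N b x)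
  have h7 : (K.filter (Rr G S c N x)).card ≤ (ptk c N x).card + (lov G S N x).card := by omega
  exact_mod_cast h7

/-- few vertices have a large value -/
lemma few_large (X : Finset V) (f : V → ℕ) (H C r : ℝ) (hH : 0 < H)
    (h : ∑ x ∈ X, (f x : ℝ) ≤ C * r) :
    ((X.filter fun x => H < (f x : ℝ)).card : ℝ) ≤ C * r / H := by
  rw [le_div_iff₀ hH, ← nsmul_eq_mul]
  refine (Finset.card_nsmul_le_sum _ (fun x => (f x : ℝ)) _ fun x hx =>
    (mem_filter.1 hx).2.le).trans ?_
  exact (Finset.sum_le_sum_of_subset_of_nonneg (filter_subset _ _)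
    fun x _ _ => Nat.cast_nonneg _).trans h

end kmset

lemma asymD (a : ℝ) (ha : 0 < a) (ha1 : a ≤ 1 / 100) :
    ∃ d0 : ℕ, 1 ≤ d0 ∧ ∀ d : ℕ, d0 ≤ d → 1 + 3 * (d : ℝ) ^ (a / 10) ≤ (d : ℝ) ^ (1 / 20 : ℝ) ∧
      600 * (d : ℝ) ^ (9 / 10 : ℝ) ≤ (d : ℝ) ^ (1 - a) := by
  have h1 := (tendsto_rpow_atTop (show (0 : ℝ) < 1 / 40 by norm_num)).eventually_ge_atTop 4
  have h2 := (tendsto_rpow_atTop (show (0 : ℝ) < 9 / 100 by norm_num)).eventually_ge_atTop 600
  have h3 := (h1.and h2).and (Filter.eventually_ge_atTop (1 : ℝ))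
  obtain ⟨x0, hx0⟩ := Filter.eventually_atTop.1 h3
  refine ⟨max 1 ⌈x0⌉₊, le_max_left _ _, fun d hd => ?_⟩
  have h4 : x0 ≤ d := (Nat.le_ceil _).trans (by exact_mod_cast (le_max_right _ _).trans hd)
  obtain ⟨⟨h5, h6⟩, h7⟩ := hx0 d h4
  have hdp : (0 : ℝ) < d := by linarith
  constructor
  · have e1 : (d : ℝ) ^ (a / 10) ≤ (d : ℝ) ^ (1 / 40 : ℝ) :=
      Real.rpow_le_rpow_of_exponent_le h7 (by linarith)
    have e2 : (d : ℝ) ^ (1 / 20 : ℝ) = (d : ℝ) ^ (1 / 40 : ℝ) * (d : ℝ) ^ (1 / 40 : ℝ) := by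
      rw [← Real.rpow_add hdp]
      norm_num
    rw [e2]
    nlinarith
  · have e1 : (d : ℝ) ^ (9 / 10 + 9 / 100 : ℝ) ≤ (d : ℝ) ^ (1 - a) :=
      Real.rpow_le_rpow_of_exponent_le h7 (by linarith)
    rw [Real.rpow_add hdp] at e1
    have e2 : (0 : ℝ) < (d : ℝ) ^ (9 / 10 : ℝ) := Real.rpow_pos_of_pos hdp _
    nlinarith

/-- **KMLO** -/
theorem stmt_KMLO : Stmt_KMLO.{u} := by
  intro a C ha ha1 hC
  set B : ℝ := 2400 * C with hBdef
  have hB1 : 1 ≤ B := by linarith
  refine ⟨1 / (7200 * B), by positivity, ?_, ?_⟩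
  · rw [div_le_one (by positivity)]
    linarith
  intro ε hε
  obtain ⟨d1, h1⟩ := headsG.{u} B C hB1 hC
  obtain ⟨e, d2, he, h2⟩ := labelsG.{u} a ε ha ha1 hε
  obtain ⟨d3, hd3, h3⟩ := asymD a ha ha1
  refine ⟨e, max (max d1 d2) d3, he, ?_⟩
  intro V I J τ _ _ _ _ P G S cl O A nn d K0 T0 Bo r jt p q N c K Kc hd hN hO hJ hG hr hK hKc hK4
    hK5 hp hq hT hm2 hloc
  have hd1 : d1 ≤ d := (le_max_left _ _).trans ((le_max_left _ _).trans hd)
  have hd2 : d2 ≤ d := (le_max_right _ _).trans ((le_max_left _ _).trans hd)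
  have hd3' : d3 ≤ d := (le_max_right _ _).trans hd
  obtain ⟨hsm, h600⟩ := h3 d hd3'
  have hdr : (1 : ℝ) ≤ d := by exact_mod_cast hd3.trans hd3'
  have hdp : (0 : ℝ) < d := by linarith
  -- the exposures
  set K' : Finset V := Kc ∩ O with hK'
  set Ex : V → Finset V := fun x => K'.filter (Rr G S c N x) with hEx
  have hsp : sp d a = (d : ℝ) ^ (a / 10) := rfl
  have hptk : ∀ x ∈ O, ((ptk c N x).card : ℝ) ≤ 2 * sp d a := by
    intro x hx
    have e1 : ptk c N x ⊆ (univ.filter fun b => x ∈ tkO O c N b) ∪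
        (univ.filter fun b => x ∈ c b) := by
      intro b hb
      obtain ⟨_, hb1, hb2⟩ := mem_filter.1 hb
      rw [mem_union, mem_filter, mem_filter]
      by_cases h : x ∈ c b
      · exact Or.inr ⟨mem_univ _, h⟩
      · refine Or.inl ⟨mem_univ _, ?_⟩
        unfold tkO
        exact mem_filter.2 ⟨hx, h, Or.inr (hb2.resolve_left h)⟩
    have e2 := (card_le_card e1).trans (card_union_le _ _)
    have e3 : ((ptk c N x).card : ℝ) ≤ ((univ.filter fun b => x ∈ tkO O c N b).card : ℝ) +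
        ((univ.filter fun b => x ∈ c b).card : ℝ) := by exact_mod_cast e2
    linarith [hO.t1 x, hO.o1 x]
  have hExq : Exq Ex K' (1 + 3 * (d : ℝ) ^ (a / 10)) := by
    refine ⟨fun x => filter_subset _ _, fun x hx => ?_, fun x hx y hy => ?_, fun x hx => ?_⟩
    · exact (mem_filter.1 hx).2.1.ne rfl
    · obtain ⟨hyK, hxy⟩ := mem_filter.1 hy
      exact mem_filter.2 ⟨hx, Rr_symm hN.mts.NN hxy⟩
    · have h4 := Rr_card (G := G) (S := S) (c := c) (N := N) K' x
      have h5 := hptk x (mem_inter.1 hx).2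
      have h6 : ((lov G S N x).card : ℝ) ≤ sp d a := hO.l1 x
      rw [hsp] at h5 h6
      have h7 : ((Ex x).card : ℝ) ≤ (ptk c N x).card + (lov G S N x).card := h4
      linarith
  -- the tests
  have htest : ∃ Km : Finset V, Km ⊆ K' ∧ (∀ v ∈ Km, ∀ w ∈ Km, w ∉ Ex v) ∧
      ∀ j, ∀ v ∈ A j, v ∉ K →
        ((((nb (S j) v).filter fun w => w ∉ O).card : ℝ) < (r j : ℝ) / 300) →
        (r j : ℝ) / (7200 * B) ≤ (((nb (S j) v).filter fun w => w ∈ Km).card : ℝ) := by
    let ι : Type u := {i : V × J // i.1 ∈ A i.2 ∧ i.1 ∉ K ∧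
      (((nb (S i.2) i.1).filter fun w => w ∉ O).card : ℝ) < (r i.2 : ℝ) / 300}
    have : Fintype ι := Subtype.fintype _
    set Av : ι → Finset V := fun i => (nb (S i.1.2) i.1.1 ∩ K').filter
      fun x => ((ptk c N x).card : ℝ) ≤ 1200 * C ∧ ((lov G S N x).card : ℝ) ≤ 1200 * C with hAv
    have hAS : ∀ i, Av i ⊆ nb (S i.1.2) i.1.1 := fun i x hx =>
      (mem_inter.1 (mem_filter.1 hx).1).1
    have hlow : ∀ i : ι, (r i.1.2 : ℝ) / 600 ≤ ((Av i).card : ℝ) := by
      rintro ⟨⟨v, j⟩, hvA, hvK, hvO⟩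
      simp only at hvA hvK hvO ⊢
      have e1 := hK4 j v hvA hvK
      set Bd := (nb (S j) v).filter fun x => (1200 * C : ℝ) < ((ptk c N x).card : ℝ) with hBd
      set Be := (nb (S j) v).filter fun x => (1200 * C : ℝ) < ((lov G S N x).card : ℝ) with hBe
      have e2 : ((nb (S j) v ∩ Kc).card : ℝ) ≤ (((nb (S j) v).filter fun w => w ∉ O).card : ℝ) +
          ((Av ⟨(v, j), hvA, hvK, hvO⟩).card : ℝ) + Bd.card + Be.card := by
        have e3 : nb (S j) v ∩ Kc ⊆ ((((nb (S j) v).filter fun w => w ∉ O) ∪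
            Av ⟨(v, j), hvA, hvK, hvO⟩) ∪ Bd) ∪ Be := by
          intro x hx
          obtain ⟨hx1, hx2⟩ := mem_inter.1 hx
          rw [mem_union, mem_union, mem_union]
          by_cases hxO : x ∈ O
          · by_cases hxp : ((ptk c N x).card : ℝ) ≤ 1200 * C
            · by_cases hxl : ((lov G S N x).card : ℝ) ≤ 1200 * C
              · left; left; right
                exact mem_filter.2 ⟨mem_inter.2 ⟨hx1, mem_inter.2 ⟨hx2, hxO⟩⟩, hxp, hxl⟩
              · right
                exact mem_filter.2 ⟨hx1, not_le.1 hxl⟩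
            · left; right
              exact mem_filter.2 ⟨hx1, not_le.1 hxp⟩
          · left; left; left
            exact mem_filter.2 ⟨hx1, hxO⟩
        have e4 := card_le_card e3
        have e5 := card_union_le ((((nb (S j) v).filter fun w => w ∉ O) ∪
            Av ⟨(v, j), hvA, hvK, hvO⟩) ∪ Bd) Be
        have e6 := card_union_le (((nb (S j) v).filter fun w => w ∉ O) ∪
            Av ⟨(v, j), hvA, hvK, hvO⟩) Bd
        have e7 := card_union_le ((nb (S j) v).filter fun w => w ∉ O)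
            (Av ⟨(v, j), hvA, hvK, hvO⟩)
        have e8 : (nb (S j) v ∩ Kc).card ≤ ((nb (S j) v).filter fun w => w ∉ O).card +
          (Av ⟨(v, j), hvA, hvK, hvO⟩).card + Bd.card + Be.card := by omega
        exact_mod_cast e8
      have hC0 : 0 < C := by linarith
      have e3 : (Bd.card : ℝ) ≤ C * r j / (1200 * C) :=
        few_large (nb (S j) v) (fun x => (ptk c N x).card) _ C (r j) (by positivity) (hO.av j v)
      have e4 : (Be.card : ℝ) ≤ C * r j / (1200 * C) :=
        few_large (nb (S j) v) (fun x => (lov G S N x).card) _ C (r j) (by positivity) (hO.lv j v)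
      have e5 : C * (r j : ℝ) / (1200 * C) = r j / 1200 := by
        field_simp
      rw [e5] at e3 e4
      linarith
    obtain ⟨Km, a1, a2, a3⟩ := h1 (ι := ι) Ex K' (1 + 3 * (d : ℝ) ^ (a / 10)) d Av hd1 hExq
      (by
        have : (0 : ℝ) ≤ (d : ℝ) ^ (a / 10) := by positivity
        linarith)
      (by
        have e1 : (0 : ℝ) ≤ 1 + 3 * (d : ℝ) ^ (a / 10) := by positivity
        calc (1 + 3 * (d : ℝ) ^ (a / 10)) ^ 3 ≤ ((d : ℝ) ^ (1 / 20 : ℝ)) ^ 3 :=
              pow_le_pow_left₀ e1 hsm 3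
          _ = (d : ℝ) ^ (3 / 20 : ℝ) := by
              rw [← Real.rpow_natCast, ← Real.rpow_mul hdp.le]
              norm_num)
      (fun i x hx => (mem_inter.1 (mem_filter.1 hx).1).2)
      (fun i x hx => by
        have e1 := Rr_card (G := G) (S := S) (c := c) (N := N) K' x
        have e2 := (mem_filter.1 hx).2
        have e3 : ((Ex x).card : ℝ) ≤ (ptk c N x).card + (lov G S N x).card := e1
        linarith [e2.1, e2.2])
      (fun i => by
        refine le_trans ?_ (hlow i)
        have := hr i.1.2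
        linarith)
      (fun i => by
        refine le_trans ?_ (hG i.1.1)
        exact_mod_cast card_le_card ((hAS i).trans fun w hw => by
          unfold nb at hw ⊢
          rw [mem_filter] at hw ⊢
          exact ⟨hw.1, hN.SG i.1.2 hw.2⟩))
      (fun x => by
        have e1 : ((univ.filter fun i : ι => x ∈ Av i).card : ℝ) ≤
            (((univ : Finset J) ×ˢ nb G x).card : ℝ) := by
          have e2 : (univ.filter fun i : ι => x ∈ Av i).card ≤
              ((univ : Finset J) ×ˢ nb G x).card := by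
            refine Finset.card_le_card_of_injOn (fun i => (i.1.2, i.1.1)) ?_ ?_
            · intro i hi
              rw [Finset.mem_coe, mem_filter] at hi
              have e3 := hAS i hi.2
              rw [Finset.mem_coe, mem_product]
              refine ⟨mem_univ _, ?_⟩
              unfold nb at e3 ⊢
              rw [mem_filter] at e3 ⊢
              exact ⟨mem_univ _, (hN.SG i.1.2 e3.2).symm⟩
            · intro i _ i' _ h
              simp only [Prod.mk.injEq] at h
              exact Subtype.ext (Prod.ext h.2 h.1)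
          exact_mod_cast e2
        refine e1.trans ?_
        rw [card_product, card_univ, Nat.cast_mul]
        calc (Fintype.card J : ℝ) * ((nb G x).card : ℝ) ≤ C * (C * d) := by
              refine mul_le_mul hJ (hG x) (by positivity) (by positivity)
          _ = C ^ 2 * d := by ring)
    refine ⟨Km, a1, a2, ?_⟩
    intro j v hvA hvK hvO
    have e1 := a3 ⟨(v, j), hvA, hvK, hvO⟩
    have e2 := hlow ⟨(v, j), hvA, hvK, hvO⟩
    simp only at e2
    have e3 : ((Av ⟨(v, j), hvA, hvK, hvO⟩ ∩ Km).card : ℝ) ≤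
        (((nb (S j) v).filter fun w => w ∈ Km).card : ℝ) := by
      exact_mod_cast card_le_card fun x hx => by
        obtain ⟨e4, e5⟩ := mem_inter.1 hx
        exact mem_filter.2 ⟨hAS _ e4, e5⟩
    refine le_trans ?_ (e1.trans e3)
    calc (r j : ℝ) / (7200 * B) = 1 / (12 * B) * ((r j : ℝ) / 600) := by
          field_simp
          ring
      _ ≤ _ := mul_le_mul_of_nonneg_left e2 (by positivity)
  obtain ⟨Km, k1, k2, k3⟩ := htest
  -- the labels
  have hvv : ∀ t, vv (tkO O c N) (univ.filter fun b => cl b = jt t) (fun x => p t x + q t x) ≤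
      e / d := by
    intro t
    rw [vv_eq]
    refine le_trans (le_of_eq ?_) (hm2 t)
    refine Finset.sum_congr rfl fun x _ => ?_
    rw [Finset.filter_filter]
  obtain ⟨f, hf⟩ := h2 d P (tkO O c N) (fun t => univ.filter fun b => cl b = jt t)
    (fun t x => p t x + q t x) hd2 hN.Pd hO.t1 (fun t x => add_nonneg (hp t x) (hq t x))
    hT.supp hT.mult hvv (fun t b hb => hloc t b (mem_filter.1 hb).2)
  refine ⟨Km, fun b x => decide (f (LJ.mk x b) = 0), fun x hx => (mem_inter.1 (k1 hx)).1,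
    ⟨hK, fun x hx => hKc (mem_inter.1 (k1 hx)).1,
    fun x hx => (mem_inter.1 (k1 hx)).2, ?_, ?_, hK5⟩, ?_, ?_⟩
  · -- K3
    intro v hv w hw hvw
    have hn := k2 v hv w hw
    have hS : ¬ ∃ j, (S j).Adj v w := by
      rintro ⟨j, hj⟩
      exact hK j v (hKc (mem_inter.1 (k1 hv)).1) w (hKc (mem_inter.1 (k1 hw)).1) hj
    have hex : ∃ b, N b v = w := by
      by_contra hcon
      exact hn (mem_filter.2 ⟨k1 hw, hvw, Or.inr ⟨hcon, hS⟩⟩)
    obtain ⟨b, hb⟩ := hex
    refine ⟨b, hb, ?_⟩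
    by_contra hcon
    have h4 : v ∈ c b ∨ w ∈ c b := by
      by_contra h5
      rw [not_or] at h5
      exact hcon h5
    exact hn (mem_filter.2 ⟨k1 hw, hvw, Or.inl ⟨b, hb, h4⟩⟩)
  · -- K4
    intro j v hvA hvK
    have hr0 : (0 : ℝ) ≤ r j := Nat.cast_nonneg _
    by_cases hvO : (((nb (S j) v).filter fun w => w ∉ O).card : ℝ) < (r j : ℝ) / 300
    · have h4 := k3 j v hvA hvK hvO
      have h5 : (((nb (S j) v).filter fun w => w ∈ Km).card : ℝ) ≤
          (((nb (S j) v).filter fun w => w ∈ Km ∨ w ∉ O).card : ℝ) := by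
        exact_mod_cast card_le_card fun x hx => by
          rw [mem_filter] at hx ⊢
          exact ⟨hx.1, Or.inl hx.2⟩
      calc 1 / (7200 * B) * (r j : ℝ) = (r j : ℝ) / (7200 * B) := by ring
        _ ≤ _ := h4.trans h5
    · rw [not_lt] at hvO
      have h5 : (((nb (S j) v).filter fun w => w ∉ O).card : ℝ) ≤
          (((nb (S j) v).filter fun w => w ∈ Km ∨ w ∉ O).card : ℝ) := by
        exact_mod_cast card_le_card fun x hx => by
          rw [mem_filter] at hx ⊢
          exact ⟨hx.1, Or.inr hx.2⟩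
      refine le_trans ?_ (hvO.trans h5)
      have h6 : 1 / (7200 * B) ≤ 1 / 300 := one_div_le_one_div_of_le (by norm_num) (by linarith)
      calc 1 / (7200 * B) * (r j : ℝ) ≤ 1 / 300 * (r j : ℝ) :=
            mul_le_mul_of_nonneg_right h6 hr0
        _ = _ := by ring
  · intro t
    have h4 : ∀ b, ∑ s : Bool,
        |∑ x ∈ tksO O c N (fun b x => decide (f (LJ.mk x b) = 0)) b s, p t x -
        ∑ x ∈ tksO O c N (fun b x => decide (f (LJ.mk x b) = 0)) b (!s), q t x| ≤
        |∑ x ∈ tkO O c N b, (p t x - q t x)| +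
          |zz (tkO O c N) (fun x => p t x + q t x) f b| := by
      intro b
      have h5 := Pool.Agent.Work.MP_db9399_cg.helper54.KML.two_sides (tkO O c N b)
        (fun x => decide (f (LJ.mk x b) = 0)) (p t) (q t)
      have h6 : ∀ x, (if decide (f (LJ.mk x b) = 0) = true then (1 : ℝ) else -1) =
          sg f (LJ.mk x b) := by
        intro x
        unfold sg
        by_cases hx : f (LJ.mk x b) = 0 <;> simp [hx]
      simp only [h6] at h5
      exact h5
    refine (Finset.sum_le_sum fun b _ => h4 b).trans ?_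
    rw [Finset.sum_add_distrib]
    have := (hf t).1
    unfold F1 at this
    linarith
  · intro t
    have h4 : ∀ b, ∑ s : Bool,
        (∑ x ∈ tksO O c N (fun b x => decide (f (LJ.mk x b) = 0)) b s, p t x -
        ∑ x ∈ tksO O c N (fun b x => decide (f (LJ.mk x b) = 0)) b (!s), q t x) ^ 2 ≤
        (∑ x ∈ tkO O c N b, (p t x - q t x)) ^ 2 +
          (1 / 2) * zz (tkO O c N) (fun x => p t x + q t x) f b ^ 2 := by
      intro b
      have h5 := two_sq (tkO O c N b) (fun x => decide (f (LJ.mk x b) = 0)) (p t) (q t)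
      have h6 : ∀ x, (if decide (f (LJ.mk x b) = 0) = true then (1 : ℝ) else -1) =
          sg f (LJ.mk x b) := by
        intro x
        unfold sg
        by_cases hx : f (LJ.mk x b) = 0 <;> simp [hx]
      simp only [h6] at h5
      exact h5
    refine (Finset.sum_le_sum fun b _ => h4 b).trans ?_
    rw [Finset.sum_add_distrib, ← Finset.mul_sum]
    have := (hf t).2
    unfold F2 at this
    linarith

end Pool.Agent.Work.MP_db9399_eo
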